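import Pool.Agent.H55.UL.Model2

/-!
# The arcsine law in the model: the theorem of Sparre Andersen
-/

set_option autoImplicit false

namespace Pool.Agent.H55.AL

open MeasureTheory ProbabilityTheory Filter Topology Finset
open Pool.Agent.H499R2.ND.TJ (PP geo)
open Pool.Agent.H55.UL (bs wt meas_wt meas_bs indep_wt map_reindex bs_law)

/-- the set depends on the first `n` coordinates -/
def Dep (n : ℕ) (A : Set (ℕ → ℕ)) : Prop := ∀ ω ω' : ℕ → ℕ, (∀ i < n, ω i = ω' i) → (ω ∈ A ↔ ω' ∈ A)

theorem dep_pre {n : ℕ} {A : Set (ℕ → ℕ)} (h : Dep n A) :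
    A = (fun (ω : ℕ → ℕ) (i : range n) => ω i) ⁻¹'
      {x | (fun i => if h : i ∈ range n then x ⟨i, h⟩ else 0) ∈ A} := by
  ext ω
  rw [Set.mem_preimage, Set.mem_ofPred_eq]
  apply h
  intro i hi
  rw [dif_pos (Finset.mem_range.2 hi)]

theorem dep_meas {n : ℕ} {A : Set (ℕ → ℕ)} (h : Dep n A) : MeasurableSet A := by
  rw [dep_pre h]
  refine (measurable_pi_lambda _ fun i => measurable_pi_apply _) ?_
  exact (Set.to_countable _).measurableSet

/-- the coordinates from `n` on -/
def tl (n : ℕ) (ω : ℕ → ℕ) : ℕ → ℕ := fun j => ω (n + j)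

theorem meas_tl (n : ℕ) : Measurable (tl n) := measurable_pi_lambda _ fun j => measurable_pi_apply _

theorem map_tl (n : ℕ) : PP.map (tl n) = PP := map_reindex (g := fun j => n + j) fun _ _ h => Nat.add_left_cancel h

/-- independence of the first `n` coordinates and the others -/
theorem indep_tl {n m : ℕ} {A B : Set (ℕ → ℕ)} (hA : Dep n A) (hB : Dep m B) :
    PP (A ∩ tl n ⁻¹' B) = PP A * PP B := by
  have h0 : iIndepFun (fun (i : ℕ) (ω : ℕ → ℕ) => ω i) PP := by
    unfold PP
    exact iIndepFun_infinitePi (X := fun (_ : ℕ) (n : ℕ) => n) (fun _ => measurable_id)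
  have hd : Disjoint (range n) (Ico n (n + m)) := by
    rw [Finset.range_eq_Ico]
    exact Finset.Ico_disjoint_Ico_consecutive 0 n (n + m)
  have h1 := h0.indepFun_finset (range n) (Ico n (n + m)) hd fun i => measurable_pi_apply i
  have e2 : tl n ⁻¹' B = (fun (ω : ℕ → ℕ) (i : Ico n (n + m)) => ω i) ⁻¹'
      {x | (fun i => if h : n + i ∈ Ico n (n + m) then x ⟨n + i, h⟩ else 0) ∈ B} := by
    ext ω
    rw [Set.mem_preimage, Set.mem_preimage, Set.mem_ofPred_eq]
    apply hB
    intro i hi
    rw [dif_pos (by rw [Finset.mem_Ico]; omega)]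
    rfl
  have h2 := h1.measure_inter_preimage_eq_mul
    {x | (fun i => if h : i ∈ range n then x ⟨i, h⟩ else 0) ∈ A}
    {x | (fun i => if h : n + i ∈ Ico n (n + m) then x ⟨n + i, h⟩ else 0) ∈ B}
    (Set.to_countable _).measurableSet (Set.to_countable _).measurableSet
  rw [← dep_pre hA, ← e2] at h2
  rw [h2]
  congr 1
  conv_rhs => rw [← map_tl n]
  rw [Measure.map_apply (meas_tl n) (dep_meas hB)]

/-- the walk with the steps `2 - (ω i + 1)` -/
def Zw (ω : ℕ → ℕ) (i : ℕ) : ℤ := 2 * i - (bs (range i) ω : ℤ)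

theorem Zw_zero (ω : ℕ → ℕ) : Zw ω 0 = 0 := by simp [Zw, bs]

theorem Zw_add (ω : ℕ → ℕ) (k i : ℕ) : Zw ω (k + i) = Zw ω k + Zw (tl k ω) i := by
  unfold Zw bs tl
  rw [Finset.sum_range_add]
  push_cast
  ring

theorem Zw_succ (ω : ℕ → ℕ) (n : ℕ) : Zw ω (n + 1) = Zw ω n + 1 - ω n := by
  unfold Zw bs
  rw [Finset.sum_range_succ]
  push_cast
  ring

theorem Zw_one_add (ω : ℕ → ℕ) (i : ℕ) : Zw ω (1 + i) = 1 - ω 0 + Zw (tl 1 ω) i := by
  rw [Zw_add, Zw_succ, Zw_zero]
  ring

theorem Zw_congr {ω ω' : ℕ → ℕ} {i : ℕ} (h : ∀ j < i, ω j = ω' j) : Zw ω i = Zw ω' i := by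
  unfold Zw bs
  congr 2
  apply Finset.sum_congr rfl
  intro j hj
  rw [Finset.mem_range] at hj
  rw [h j hj]

theorem meas_Zw (i : ℕ) : Measurable fun ω => Zw ω i := by
  have : (fun ω => Zw ω i) = (fun x : ℕ => (2 * i - (x : ℤ) : ℤ)) ∘ bs (range i) := rfl
  rw [this]
  exact measurable_from_top.comp (meas_bs _)

/-- the number of the positive values among the first `n` -/
def Np (n : ℕ) (ω : ℕ → ℕ) : ℕ := ((range n).filter fun i => 0 < Zw ω (i + 1)).card

theorem Np_succ (n : ℕ) (ω : ℕ → ℕ) : Np (n + 1) ω = Np n ω + if 0 < Zw ω (n + 1) then 1 else 0 := by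
  unfold Np
  rw [Finset.range_add_one, Finset.filter_insert]
  split_ifs with h
  · rw [Finset.card_insert_of_notMem (by simp)]
  · rw [add_zero]

theorem Np_congr {n : ℕ} {ω ω' : ℕ → ℕ} (h : ∀ j < n, ω j = ω' j) : Np n ω = Np n ω' := by
  unfold Np
  congr 1
  apply Finset.filter_congr
  intro i hi
  rw [Finset.mem_range] at hi
  rw [Zw_congr (fun j hj => h j (by omega))]

/-- `k` is the first place of the maximum on `[0, n]` -/
def Lf (n k : ℕ) (ω : ℕ → ℕ) : Prop :=
  k ≤ n ∧ (∀ j < k, Zw ω j < Zw ω k) ∧ ∀ j, k < j → j ≤ n → Zw ω j ≤ Zw ω k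

theorem Lf_congr {n k : ℕ} {ω ω' : ℕ → ℕ} (h : ∀ j < n, ω j = ω' j) : Lf n k ω ↔ Lf n k ω' := by
  unfold Lf
  refine and_congr_right fun hk => ?_
  have hz : ∀ j ≤ n, Zw ω j = Zw ω' j := fun j hj => Zw_congr fun i hi => h i (by omega)
  constructor
  · rintro ⟨h1, h2⟩
    refine ⟨fun j hj => ?_, fun j hj hj' => ?_⟩
    · rw [← hz j (by omega), ← hz k hk]; exact h1 j hj
    · rw [← hz j hj', ← hz k hk]; exact h2 j hj hj'
  · rintro ⟨h1, h2⟩
    refine ⟨fun j hj => ?_, fun j hj hj' => ?_⟩
    · rw [hz j (by omega), hz k hk]; exact h1 j hj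
    · rw [hz j hj', hz k hk]; exact h2 j hj hj'

theorem eq_of_fibers {ι : Type} [Countable ι] [MeasurableSpace ι] [MeasurableSingletonClass ι]
    {f g : (ℕ → ℕ) → ι} (hf : Measurable f) (hg : Measurable g) {E E' : Set (ℕ → ℕ)}
    (h : ∀ z, PP (E ∩ f ⁻¹' {z}) = PP (E' ∩ g ⁻¹' {z})) : PP E = PP E' := by
  have key : ∀ {f : (ℕ → ℕ) → ι}, Measurable f → ∀ E : Set (ℕ → ℕ), PP E = ∑' z : ι, PP (E ∩ f ⁻¹' {z}) := by
    intro f hf E
    have h1 := (tsum_measure_preimage_singleton (μ := PP.restrict E) (f := f) (s := Set.univ) Set.countable_univ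
      (fun z _ => hf (measurableSet_singleton z)))
    rw [Set.preimage_univ, Measure.restrict_apply_univ] at h1
    rw [← h1]
    rw [tsum_univ (f := fun z => (PP.restrict E) (f ⁻¹' {z}))]
    refine tsum_congr fun z => ?_
    rw [Measure.restrict_apply (hf (measurableSet_singleton z)), Set.inter_comm]
  rw [key hf E, key hg E']
  exact tsum_congr h

/-- the joint laws with the last value agree -/
theorem FG (n : ℕ) : ∀ (k : ℕ) (z : ℤ), PP {ω | Np n ω = k ∧ Zw ω n = z} = PP {ω | Lf n k ω ∧ Zw ω n = z} := by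
  induction n with
  | zero =>
    intro k z
    congr 1
    ext ω
    simp only [Set.mem_ofPred_eq]
    refine and_congr_left fun _ => ?_
    unfold Np Lf
    simp only [Finset.range_zero, Finset.filter_empty, Finset.card_empty]
    constructor
    · rintro rfl
      exact ⟨le_rfl, fun j hj => absurd hj (Nat.not_lt_zero j), fun j hj hj' => absurd hj' (by omega)⟩
    · rintro ⟨h, _⟩
      omega
  | succ n ih =>
    intro k z
    -- the last step
    have hA : ∀ (Q : (ℕ → ℕ) → Prop) (k : ℕ) (y : ℤ), (∀ ω ω' : ℕ → ℕ, (∀ j < n, ω j = ω' j) → (Q ω ↔ Q ω')) →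
        Dep n {ω | Q ω ∧ Zw ω n = y} := by
      intro Q k y hQ ω ω' h
      simp only [Set.mem_ofPred_eq]
      rw [hQ ω ω' h, Zw_congr h]
    have hlast : ∀ (A : Set (ℕ → ℕ)) (w : ℕ), Dep n A → PP (A ∩ (fun ω : ℕ → ℕ => ω n) ⁻¹' {w}) =
        PP A * PP {ω : ℕ → ℕ | ω 0 = w} := by
      intro A w hA
      have h1 : Dep 1 {ω : ℕ → ℕ | ω 0 = w} := by
        intro ω ω' h
        simp only [Set.mem_ofPred_eq]
        rw [h 0 (by omega)]
      rw [← indep_tl hA h1]
      rfl
    have hfirst : ∀ (A : Set (ℕ → ℕ)) (w : ℕ), Dep n A → PP (tl 1 ⁻¹' A ∩ (fun ω : ℕ → ℕ => ω 0) ⁻¹' {w}) =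
        PP A * PP {ω : ℕ → ℕ | ω 0 = w} := by
      intro A w hA
      have h1 : Dep 1 {ω : ℕ → ℕ | ω 0 = w} := by
        intro ω ω' h
        simp only [Set.mem_ofPred_eq]
        rw [h 0 (by omega)]
      rw [mul_comm, ← indep_tl h1 hA, Set.inter_comm]
      rfl
    have dN : ∀ (k : ℕ) (y : ℤ), Dep n {ω | Np n ω = k ∧ Zw ω n = y} := fun k y =>
      hA (fun ω => Np n ω = k) k y fun ω ω' h => by rw [Np_congr h]
    have dL : ∀ (k : ℕ) (y : ℤ), Dep n {ω | Lf n k ω ∧ Zw ω n = y} := fun k y =>
      hA (fun ω => Lf n k ω) k y fun ω ω' h => Lf_congr h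
    rcases le_or_gt z 0 with hz | hz
    · -- the last value is not positive
      refine eq_of_fibers (f := fun ω : ℕ → ℕ => ω n) (g := fun ω : ℕ → ℕ => ω n) (measurable_pi_apply n)
        (measurable_pi_apply n) fun w => ?_
      have e1 : {ω | Np (n + 1) ω = k ∧ Zw ω (n + 1) = z} ∩ (fun ω : ℕ → ℕ => ω n) ⁻¹' {w} =
          {ω | Np n ω = k ∧ Zw ω n = z - 1 + w} ∩ (fun ω : ℕ → ℕ => ω n) ⁻¹' {w} := by
        ext ω
        simp only [Set.mem_inter_iff, Set.mem_ofPred_eq, Set.mem_preimage, Set.mem_singleton_iff]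
        refine and_congr_left fun hw => ?_
        rw [Np_succ, Zw_succ, hw]
        constructor
        · rintro ⟨h1, h2⟩
          rw [if_neg (by omega)] at h1
          exact ⟨by omega, by omega⟩
        · rintro ⟨h1, h2⟩
          rw [if_neg (by omega)]
          exact ⟨by omega, by omega⟩
      have e2 : {ω | Lf (n + 1) k ω ∧ Zw ω (n + 1) = z} ∩ (fun ω : ℕ → ℕ => ω n) ⁻¹' {w} =
          {ω | Lf n k ω ∧ Zw ω n = z - 1 + w} ∩ (fun ω : ℕ → ℕ => ω n) ⁻¹' {w} := by
        ext ω
        simp only [Set.mem_inter_iff, Set.mem_ofPred_eq, Set.mem_preimage, Set.mem_singleton_iff]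
        refine and_congr_left fun hw => ?_
        have hs := Zw_succ ω n
        rw [hw] at hs
        constructor
        · rintro ⟨⟨h1, h2, h3⟩, h4⟩
          have hkn : k ≤ n := by
            by_contra hcon
            have : k = n + 1 := by omega
            subst this
            have := h2 0 (by omega)
            rw [Zw_zero] at this
            omega
          exact ⟨⟨hkn, h2, fun j hj hj' => h3 j hj (by omega)⟩, by omega⟩
        · rintro ⟨⟨h1, h2, h3⟩, h4⟩
          refine ⟨⟨by omega, h2, fun j hj hj' => ?_⟩, by omega⟩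
          rcases Nat.lt_or_ge n j with h5 | h5
          · have : j = n + 1 := by omega
            subst this
            have h0 : 0 ≤ Zw ω k := by
              rcases Nat.eq_zero_or_pos k with h6 | h6
              · subst h6; rw [Zw_zero]
              · have := h2 0 h6
                rw [Zw_zero] at this
                exact this.le
            omega
          · exact h3 j hj h5
      rw [e1, e2, hlast _ w (dN k _), hlast _ w (dL k _), ih]
    · -- the last value is positive
      rcases k with _ | k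
      · have e1 : {ω | Np (n + 1) ω = 0 ∧ Zw ω (n + 1) = z} = ∅ := by
          ext ω
          simp only [Set.mem_ofPred_eq, Set.mem_empty_iff_false, iff_false]
          rintro ⟨h1, h2⟩
          rw [Np_succ, if_pos (by omega)] at h1
          omega
        have e2 : {ω | Lf (n + 1) 0 ω ∧ Zw ω (n + 1) = z} = ∅ := by
          ext ω
          simp only [Set.mem_ofPred_eq, Set.mem_empty_iff_false, iff_false]
          rintro ⟨⟨_, _, h1⟩, h2⟩
          have := h1 (n + 1) (by omega) le_rfl
          rw [Zw_zero] at this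
          omega
        rw [e1, e2]
      · refine eq_of_fibers (f := fun ω : ℕ → ℕ => ω n) (g := fun ω : ℕ → ℕ => ω 0) (measurable_pi_apply n)
          (measurable_pi_apply 0) fun w => ?_
        have e1 : {ω | Np (n + 1) ω = k + 1 ∧ Zw ω (n + 1) = z} ∩ (fun ω : ℕ → ℕ => ω n) ⁻¹' {w} =
            {ω | Np n ω = k ∧ Zw ω n = z - 1 + w} ∩ (fun ω : ℕ → ℕ => ω n) ⁻¹' {w} := by
          ext ω
          simp only [Set.mem_inter_iff, Set.mem_ofPred_eq, Set.mem_preimage, Set.mem_singleton_iff]
          refine and_congr_left fun hw => ?_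
          rw [Np_succ, Zw_succ, hw]
          constructor
          · rintro ⟨h1, h2⟩
            rw [if_pos (by omega)] at h1
            exact ⟨by omega, by omega⟩
          · rintro ⟨h1, h2⟩
            rw [if_pos (by omega)]
            exact ⟨by omega, by omega⟩
        have e2 : {ω | Lf (n + 1) (k + 1) ω ∧ Zw ω (n + 1) = z} ∩ (fun ω : ℕ → ℕ => ω 0) ⁻¹' {w} =
            tl 1 ⁻¹' {ω | Lf n k ω ∧ Zw ω n = z - 1 + w} ∩ (fun ω : ℕ → ℕ => ω 0) ⁻¹' {w} := by
          ext ω
          simp only [Set.mem_inter_iff, Set.mem_ofPred_eq, Set.mem_preimage, Set.mem_singleton_iff]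
          refine and_congr_left fun hw => ?_
          have hs : ∀ i, Zw ω (i + 1) = 1 - (w : ℤ) + Zw (tl 1 ω) i := by
            intro i
            rw [add_comm i 1, Zw_one_add, hw]
          unfold Lf
          constructor
          · rintro ⟨⟨h1, h2, h3⟩, h4⟩
            refine ⟨⟨by omega, fun j hj => ?_, fun j hj hj' => ?_⟩, ?_⟩
            · have := h2 (j + 1) (by omega)
              rw [hs, hs] at this
              omega
            · have := h3 (j + 1) (by omega) (by omega)
              rw [hs, hs] at this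
              omega
            · rw [hs] at h4
              omega
          · rintro ⟨⟨h1, h2, h3⟩, h4⟩
            have hlast' : Zw ω (n + 1) = z := by
              rw [hs]; omega
            have h3' : ∀ j, k + 1 < j → j ≤ n + 1 → Zw ω j ≤ Zw ω (k + 1) := by
              intro j hj hj'
              obtain ⟨i, rfl⟩ : ∃ i, j = i + 1 := ⟨j - 1, by omega⟩
              rw [hs, hs]
              have := h3 i (by omega) (by omega)
              omega
            refine ⟨⟨by omega, fun j hj => ?_, h3'⟩, hlast'⟩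
            rcases j with _ | j
            · rw [Zw_zero]
              rcases Nat.lt_or_ge (k + 1) (n + 1) with h5 | h5
              · have := h3' (n + 1) h5 le_rfl
                omega
              · have : k + 1 = n + 1 := by omega
                rw [this]
                omega
            · rw [hs, hs]
              have := h2 j (by omega)
              omega
        rw [e1, e2, hlast _ w (dN k _), hfirst _ w (dL k _), ih]

/-- **Sparre Andersen** -/
theorem sparre (n k : ℕ) : PP {ω | Np n ω = k} = PP {ω | Lf n k ω} := by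
  refine eq_of_fibers (f := fun ω => Zw ω n) (g := fun ω => Zw ω n) (meas_Zw n) (meas_Zw n) fun z => ?_
  exact FG n k z

/-- the probability that the first `k` values are positive -/
noncomputable def pk (k : ℕ) : ℝ := PP.real {ω | ∀ j, 1 ≤ j → j ≤ k → 0 < Zw ω j}

/-- the probability that the first `k` values are not positive -/
noncomputable def qk (k : ℕ) : ℝ := PP.real {ω | ∀ j, 1 ≤ j → j ≤ k → Zw ω j ≤ 0}

/-- reversal of `[0, k)` -/
def rv (k i : ℕ) : ℕ := if i < k then k - 1 - i else i

theorem rv_inj (k : ℕ) : Function.Injective (rv k) := by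
  intro i j h
  unfold rv at h
  split_ifs at h <;> omega

theorem Zw_rv {k j : ℕ} (hj : j ≤ k) (ω : ℕ → ℕ) : Zw (fun i => ω (rv k i)) (k - j) = Zw ω k - Zw ω j := by
  obtain ⟨i, rfl⟩ := Nat.exists_eq_add_of_le hj
  rw [Nat.add_sub_cancel_left]
  have h : bs (range i) (fun i_1 => ω (rv (j + i) i_1)) = ∑ l ∈ Ico j (j + i), (ω l + 1) := by
    unfold bs
    rw [Finset.range_eq_Ico]
    refine Finset.sum_bij' (fun l _ => j + i - 1 - l) (fun l _ => j + i - 1 - l) ?_ ?_ ?_ ?_ ?_
    · intro l hl
      rw [Finset.mem_Ico] at hl ⊢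
      omega
    · intro l hl
      rw [Finset.mem_Ico] at hl ⊢
      omega
    · intro l hl
      rw [Finset.mem_Ico] at hl
      omega
    · intro l hl
      rw [Finset.mem_Ico] at hl
      omega
    · intro l hl
      rw [Finset.mem_Ico] at hl
      have hr : rv (j + i) l = j + i - 1 - l := by
        unfold rv
        rw [if_pos (by omega)]
      show ω (rv (j + i) l) + 1 = ω (j + i - 1 - l) + 1
      rw [hr]
  unfold Zw
  rw [h]
  unfold bs
  rw [← Finset.sum_range_add_sum_Ico _ (Nat.le_add_right j i)]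
  push_cast
  ring

theorem pk_rev (k : ℕ) : PP.real {ω | ∀ j < k, Zw ω j < Zw ω k} = pk k := by
  unfold pk
  have hd : Dep k {ω | ∀ j, 1 ≤ j → j ≤ k → 0 < Zw ω j} := by
    intro ω ω' h
    simp only [Set.mem_ofPred_eq]
    refine forall_congr' fun j => imp_congr_right fun _ => ?_
    constructor
    · intro h1 h2
      rw [← Zw_congr fun i hi => h i (by omega)]
      exact h1 h2
    · intro h1 h2
      rw [Zw_congr fun i hi => h i (by omega)]
      exact h1 h2
  conv_rhs => rw [← map_reindex (rv_inj k)]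
  rw [measureReal_def, measureReal_def, Measure.map_apply (measurable_pi_lambda _ fun j => measurable_pi_apply _) (dep_meas hd)]
  congr 2
  ext ω
  simp only [Set.mem_ofPred_eq, Set.mem_preimage]
  constructor
  · intro h j hj hj'
    have := h (k - j) (by omega)
    have h2 := Zw_rv (k := k) (j := k - j) (by omega) ω
    rw [show k - (k - j) = j by omega] at h2
    rw [h2]
    omega
  · intro h j hj
    have := h (k - j) (by omega) (by omega)
    rw [Zw_rv hj.le] at this
    omega

/-- the law of the number of the positive values -/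
theorem law_Np {n k : ℕ} (hk : k ≤ n) : PP.real {ω | Np n ω = k} = pk k * qk (n - k) := by
  rw [measureReal_def, sparre]
  have e : {ω | Lf n k ω} = {ω | ∀ j < k, Zw ω j < Zw ω k} ∩
      tl k ⁻¹' {ω | ∀ j, 1 ≤ j → j ≤ n - k → Zw ω j ≤ 0} := by
    ext ω
    simp only [Set.mem_ofPred_eq, Set.mem_inter_iff, Set.mem_preimage]
    unfold Lf
    constructor
    · rintro ⟨_, h1, h2⟩
      refine ⟨h1, fun j hj hj' => ?_⟩
      have := h2 (k + j) (by omega) (by omega)
      rw [Zw_add] at this
      omega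
    · rintro ⟨h1, h2⟩
      refine ⟨hk, h1, fun j hj hj' => ?_⟩
      obtain ⟨i, rfl⟩ := Nat.exists_eq_add_of_lt hj
      have := h2 (i + 1) (by omega) (by omega)
      rw [show k + i + 1 = k + (i + 1) by ring, Zw_add]
      omega
  have d1 : Dep k {ω | ∀ j < k, Zw ω j < Zw ω k} := by
    intro ω ω' h
    simp only [Set.mem_ofPred_eq]
    refine forall_congr' fun j => ?_
    constructor
    · intro h1 h2
      rw [← Zw_congr fun i hi => h i (by omega), ← Zw_congr (i := k) h]
      exact h1 h2
    · intro h1 h2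
      rw [Zw_congr fun i hi => h i (by omega), Zw_congr (i := k) h]
      exact h1 h2
  have d2 : Dep (n - k) {ω | ∀ j, 1 ≤ j → j ≤ n - k → Zw ω j ≤ 0} := by
    intro ω ω' h
    simp only [Set.mem_ofPred_eq]
    refine forall_congr' fun j => imp_congr_right fun _ => ?_
    constructor
    · intro h1 h2
      rw [← Zw_congr fun i hi => h i (by omega)]
      exact h1 h2
    · intro h1 h2
      rw [Zw_congr fun i hi => h i (by omega)]
      exact h1 h2
  rw [e, indep_tl d1 d2, ENNReal.toReal_mul, ← pk_rev]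
  rfl

end Pool.Agent.H55.AL
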