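import Pool.Agent.H55.AL.A1

/-!
# The arcsine law in the model: exact form
-/

set_option autoImplicit false

namespace Pool.Agent.H55.AL

open MeasureTheory ProbabilityTheory Filter Topology Finset
open Pool.Agent.H499R2.ND.TJ (PP geo)
open Pool.Agent.H55.UL (bs wt meas_wt meas_bs indep_wt map_reindex bs_law)

theorem meas_Np (n : ℕ) : Measurable (Np n) := by
  apply measurable_to_countable'
  intro x
  apply dep_meas (n := n)
  intro ω ω' h
  simp only [Set.mem_preimage, Set.mem_singleton_iff]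
  rw [Np_congr h]

theorem Np_le (n : ℕ) (ω : ℕ → ℕ) : Np n ω ≤ n := by
  unfold Np
  refine (Finset.card_filter_le _ _).trans ?_
  rw [Finset.card_range]

theorem sum_one (n : ℕ) : ∑ k ∈ range (n + 1), pk k * qk (n - k) = 1 := by
  have h : ∀ k ∈ range (n + 1), pk k * qk (n - k) = PP.real {ω | Np n ω = k} := by
    intro k hk
    rw [Finset.mem_range] at hk
    rw [law_Np (by omega)]
  rw [Finset.sum_congr rfl h, ← measureReal_biUnion_finset]
  · have : (⋃ k ∈ range (n + 1), {ω | Np n ω = k}) = Set.univ := by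
      ext ω
      simp only [Set.mem_iUnion, Set.mem_ofPred_eq, exists_prop, Finset.mem_range, exists_eq_right',
        Set.mem_univ, iff_true]
      have := Np_le n ω
      omega
    rw [this]
    simp
  · intro i _ j _ hij
    refine Set.disjoint_left.2 ?_
    intro ω h1 h2
    exact hij (h1.symm.trans h2)
  · intro k _
    exact (meas_Np n) (measurableSet_singleton k)

/-- the distribution function of the negative binomial law -/
theorem nb (M m : ℕ) : ∑ x ∈ range (M + 1), (x.choose (m + 1) : ℝ) * (1 / 2 : ℝ) ^ (x + 1) =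
    ∑ x ∈ range M, (x.choose m : ℝ) * (1 / 2 : ℝ) ^ (x + 1) - (M.choose (m + 1) : ℝ) * (1 / 2 : ℝ) ^ (M + 1) := by
  have h1 : ∑ x ∈ range (M + 1), (x.choose (m + 1) : ℝ) * (1 / 2 : ℝ) ^ (x + 1) =
      1 / 2 * (∑ x ∈ range M, (x.choose m : ℝ) * (1 / 2 : ℝ) ^ (x + 1) +
        ∑ x ∈ range M, (x.choose (m + 1) : ℝ) * (1 / 2 : ℝ) ^ (x + 1)) := by
    rw [Finset.sum_range_succ', ← Finset.sum_add_distrib, Finset.mul_sum]
    simp only [Nat.choose_zero_succ, Nat.cast_zero, zero_mul, add_zero]
    apply Finset.sum_congr rfl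
    intro x _
    rw [Nat.choose_succ_succ]
    push_cast
    ring
  have h2 : ∑ x ∈ range (M + 1), (x.choose (m + 1) : ℝ) * (1 / 2 : ℝ) ^ (x + 1) =
      ∑ x ∈ range M, (x.choose (m + 1) : ℝ) * (1 / 2 : ℝ) ^ (x + 1) +
        (M.choose (m + 1) : ℝ) * (1 / 2 : ℝ) ^ (M + 1) := Finset.sum_range_succ _ _
  linarith

theorem median (m : ℕ) : ∑ x ∈ range (2 * m + 1), (x.choose m : ℝ) * (1 / 2 : ℝ) ^ (x + 1) = 1 / 2 := by
  induction m with
  | zero => simp
  | succ m ih =>
    have h1 := nb (2 * m + 2) m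
    have h2 : ∑ x ∈ range (2 * m + 2), (x.choose m : ℝ) * (1 / 2 : ℝ) ^ (x + 1) =
      ∑ x ∈ range (2 * m + 1), (x.choose m : ℝ) * (1 / 2 : ℝ) ^ (x + 1) +
        ((2 * m + 1).choose m : ℝ) * (1 / 2 : ℝ) ^ (2 * m + 1 + 1) := Finset.sum_range_succ _ _
    have h3 : ((2 * m + 2).choose (m + 1) : ℝ) = 2 * ((2 * m + 1).choose m : ℝ) := by
      have : (2 * m + 2).choose (m + 1) = 2 * (2 * m + 1).choose m := by
        rw [show 2 * m + 2 = (2 * m + 1) + 1 by ring, Nat.choose_succ_succ, Nat.choose_symm_half]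
        ring
      rw [this]
      push_cast
      ring
    rw [show 2 * (m + 1) + 1 = 2 * m + 2 + 1 by ring, h1, h2, ih, h3]
    ring

theorem pos_half (i : ℕ) : PP.real {ω | 0 < Zw ω (i + 1)} = 1 / 2 := by
  have hs : (range (i + 1)).Nonempty := ⟨0, by simp⟩
  obtain ⟨h0, h1⟩ := bs_law (range (i + 1)) hs
  have e : {ω | 0 < Zw ω (i + 1)} = ⋃ x ∈ range (2 * i + 2), {ω | bs (range (i + 1)) ω = x} := by
    ext ω
    simp only [Set.mem_iUnion, Set.mem_ofPred_eq, exists_prop, Finset.mem_range, exists_eq_right']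
    unfold Zw
    omega
  rw [e, measureReal_biUnion_finset]
  · rw [Finset.sum_range_succ', h0, add_zero]
    have : ∀ x ∈ range (2 * i + 1), PP.real {ω | bs (range (i + 1)) ω = x + 1} =
        (x.choose i : ℝ) * (1 / 2 : ℝ) ^ (x + 1) := by
      intro x _
      rw [h1, Finset.card_range, Nat.add_sub_cancel]
    rw [Finset.sum_congr rfl this, median]
  · intro i _ j _ hij
    refine Set.disjoint_left.2 ?_
    intro ω h1 h2
    exact hij (h1.symm.trans h2)
  · intro y _
    exact (measurableSet_singleton y).preimage (meas_bs _)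

theorem sum_mean (n : ℕ) : ∑ k ∈ range (n + 1), (k : ℝ) * (pk k * qk (n - k)) = n / 2 := by
  have hmN : ∀ k, MeasurableSet {ω | Np n ω = k} := fun k => (meas_Np n) (measurableSet_singleton k)
  have hmZ : ∀ i, MeasurableSet {ω | 0 < Zw ω (i + 1)} := fun i =>
    (meas_Zw (i + 1)) (Set.to_countable (Set.Ioi (0 : ℤ))).measurableSet
  have h1 : ∫ ω, (Np n ω : ℝ) ∂PP = ∑ k ∈ range (n + 1), (k : ℝ) * (pk k * qk (n - k)) := by
    have e : ∀ ω, (Np n ω : ℝ) = ∑ k ∈ range (n + 1), {ω | Np n ω = k}.indicator (fun _ => (k : ℝ)) ω := by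
      intro ω
      rw [Finset.sum_eq_single (Np n ω)]
      · rw [Set.indicator_of_mem (show ω ∈ {ω' | Np n ω' = Np n ω} from rfl)]
      · intro k _ hk
        rw [Set.indicator_of_notMem (fun h => hk h.symm)]
      · intro h
        rw [Finset.mem_range] at h
        have := Np_le n ω
        omega
    simp_rw [e]
    rw [integral_finsetSum]
    · apply Finset.sum_congr rfl
      intro k hk
      rw [Finset.mem_range] at hk
      rw [integral_indicator_const _ (hmN k), law_Np (by omega), smul_eq_mul, mul_comm]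
    · intro k _
      exact (integrable_const _).indicator (hmN k)
  have h2 : ∫ ω, (Np n ω : ℝ) ∂PP = ∑ i ∈ range n, (1 / 2 : ℝ) := by
    have e : ∀ ω, (Np n ω : ℝ) = ∑ i ∈ range n, {ω | 0 < Zw ω (i + 1)}.indicator (fun _ => (1 : ℝ)) ω := by
      intro ω
      unfold Np
      rw [Finset.card_filter]
      push_cast
      apply Finset.sum_congr rfl
      intro i _
      by_cases h : 0 < Zw ω (i + 1)
      · rw [if_pos h, Set.indicator_of_mem (show ω ∈ {ω | 0 < Zw ω (i + 1)} from h)]
      · rw [if_neg h, Set.indicator_of_notMem (show ω ∉ {ω | 0 < Zw ω (i + 1)} from h)]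
    simp_rw [e]
    rw [integral_finsetSum]
    · apply Finset.sum_congr rfl
      intro i _
      rw [integral_indicator_const _ (hmZ i), pos_half, smul_eq_mul, mul_one]
    · intro i _
      exact (integrable_const _).indicator (hmZ i)
  rw [← h1, h2, Finset.sum_const, Finset.card_range, nsmul_eq_mul]
  ring

/-- the renewal sequence of the simple random walk -/
noncomputable def uk (n : ℕ) : ℝ := (n.centralBinom : ℝ) / 4 ^ n

theorem uk_succ (n : ℕ) : 2 * ((n : ℝ) + 1) * uk (n + 1) = (2 * n + 1) * uk n := by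
  have h : ((n : ℝ) + 1) * ((n + 1).centralBinom : ℝ) = 2 * (2 * n + 1) * (n.centralBinom : ℝ) := by
    exact_mod_cast Nat.succ_mul_centralBinom_succ n
  unfold uk
  rw [pow_succ]
  field_simp
  linarith

/-- two sequences with given convolutions -/
theorem ps_solve {p q : ℕ → ℝ} (hp0 : p 0 = 1)
    (h1 : ∀ n, ∑ k ∈ range (n + 1), p k * q (n - k) = 1)
    (h2 : ∀ n, ∑ k ∈ range (n + 1), (k : ℝ) * (p k * q (n - k)) = n / 2) : ∀ n, p n = uk n := by
  set P : PowerSeries ℝ := PowerSeries.mk p with hP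
  set Q : PowerSeries ℝ := PowerSeries.mk q with hQ
  set G : PowerSeries ℝ := PowerSeries.mk fun _ => 1 with hG
  set D := PowerSeries.derivative ℝ with hD
  have e1 : P * Q = G := by
    ext n
    rw [PowerSeries.coeff_mul, Finset.Nat.sum_antidiagonal_eq_sum_range_succ_mk]
    simp only [hP, hQ, hG, PowerSeries.coeff_mk]
    exact h1 n
  have hDc : ∀ (F : ℕ → ℝ) (k : ℕ), PowerSeries.coeff k (D (PowerSeries.mk F)) = F (k + 1) * (k + 1) := by
    intro F k
    rw [hD, PowerSeries.coeff_derivative, PowerSeries.coeff_mk]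
  have e2 : D P * Q + D P * Q = D G := by
    ext n
    rw [map_add, PowerSeries.coeff_mul, Finset.Nat.sum_antidiagonal_eq_sum_range_succ_mk, hG, hDc, hP]
    simp only [hDc]
    simp only [hQ, PowerSeries.coeff_mk]
    have h3 := h2 (n + 1)
    rw [Finset.sum_range_succ'] at h3
    simp only [Nat.cast_zero, zero_mul, add_zero, Nat.add_sub_add_right] at h3
    have h4 : ∑ x ∈ range n.succ, p (x + 1) * (x + 1) * q (n - x) =
        ∑ k ∈ range (n + 1), ((k + 1 : ℕ) : ℝ) * (p (k + 1) * q (n - k)) := by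
      apply Finset.sum_congr rfl
      intro x _
      push_cast
      ring
    rw [h4, h3]
    push_cast
    ring
  have e3 : G * (1 - PowerSeries.X) = 1 := PowerSeries.mk_one_mul_one_sub_eq_one ℝ
  have e5 : D G * (1 - PowerSeries.X) = G := by
    ext n
    rw [mul_sub, mul_one, map_sub]
    rcases n with _ | n
    · rw [PowerSeries.coeff_zero_mul_X, hG, hDc, PowerSeries.coeff_mk]
      simp
    · rw [PowerSeries.coeff_succ_mul_X, hG, hDc, hDc, PowerSeries.coeff_mk]
      push_cast
      ring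
  have e4 : (D P + D P) * (1 - PowerSeries.X) = P := by
    calc (D P + D P) * (1 - PowerSeries.X) = (D P + D P) * (1 - PowerSeries.X) * (G * (1 - PowerSeries.X)) := by
          rw [e3, mul_one]
      _ = (D P * Q + D P * Q) * (1 - PowerSeries.X) * (1 - PowerSeries.X) * P := by rw [← e1]; ring
      _ = P := by rw [e2, e5, e3, one_mul]
  have hrec : ∀ n : ℕ, 2 * ((n : ℝ) + 1) * p (n + 1) = (2 * n + 1) * p n := by
    intro n
    have h5 := congrArg (PowerSeries.coeff n) e4
    rw [mul_sub, mul_one, map_sub, map_add] at h5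
    rcases n with _ | n
    · rw [PowerSeries.coeff_zero_mul_X, hP, hDc, PowerSeries.coeff_mk] at h5
      push_cast at h5 ⊢
      linarith
    · rw [PowerSeries.coeff_succ_mul_X, map_add, hP, hDc, hDc, PowerSeries.coeff_mk] at h5
      push_cast at h5 ⊢
      linarith
  intro n
  induction n with
  | zero => rw [hp0]; simp [uk]
  | succ n ih =>
    have h6 := hrec n
    have h7 := uk_succ n
    rw [ih, ← h7] at h6
    have h8 : (0 : ℝ) < 2 * ((n : ℝ) + 1) := by positivity
    exact mul_left_cancel₀ h8.ne' h6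

theorem pk_zero : pk 0 = 1 := by
  unfold pk
  have : {ω | ∀ j, 1 ≤ j → j ≤ 0 → 0 < Zw ω j} = Set.univ := by
    ext ω
    simp only [Set.mem_ofPred_eq, Set.mem_univ, iff_true]
    intro j h1 h2
    omega
  rw [this]
  simp

theorem qk_zero : qk 0 = 1 := by
  unfold qk
  have : {ω | ∀ j, 1 ≤ j → j ≤ 0 → Zw ω j ≤ 0} = Set.univ := by
    ext ω
    simp only [Set.mem_ofPred_eq, Set.mem_univ, iff_true]
    intro j h1 h2
    omega
  rw [this]
  simp

theorem pk_eq (n : ℕ) : pk n = uk n := ps_solve pk_zero sum_one sum_mean n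

theorem qk_eq (n : ℕ) : qk n = uk n := by
  refine ps_solve (p := qk) (q := pk) qk_zero ?_ ?_ n
  · intro n
    rw [← sum_one n, ← Finset.sum_range_reflect]
    apply Finset.sum_congr rfl
    intro k hk
    rw [Finset.mem_range] at hk
    have e1 : n + 1 - 1 - k = n - k := by omega
    rw [e1, show n - (n - k) = k by omega]
    ring
  · intro n
    have h1 := sum_mean n
    have h2 := sum_one n
    have h3 : ∑ k ∈ range (n + 1), (k : ℝ) * (qk k * pk (n - k)) =
        ∑ k ∈ range (n + 1), ((n : ℝ) - k) * (pk k * qk (n - k)) := by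
      rw [← Finset.sum_range_reflect]
      apply Finset.sum_congr rfl
      intro k hk
      rw [Finset.mem_range] at hk
      have e1 : n + 1 - 1 - k = n - k := by omega
      rw [e1, show n - (n - k) = k by omega, Nat.cast_sub (by omega)]
      ring
    rw [h3]
    have h4 : ∑ k ∈ range (n + 1), ((n : ℝ) - k) * (pk k * qk (n - k)) =
        n * ∑ k ∈ range (n + 1), pk k * qk (n - k) - ∑ k ∈ range (n + 1), (k : ℝ) * (pk k * qk (n - k)) := by
      rw [Finset.mul_sum, ← Finset.sum_sub_distrib]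
      apply Finset.sum_congr rfl
      intro k _
      ring
    rw [h4, h1, h2]
    ring

/-- the discrete arcsine law -/
theorem arc_exact {n k : ℕ} (hk : k ≤ n) : PP.real {ω | Np n ω = k} = uk k * uk (n - k) := by
  rw [law_Np hk, pk_eq, qk_eq]

end Pool.Agent.H55.AL
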