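import Pool.Agent.H55.AL.A2
import Mathlib.Analysis.Real.Pi.Wallis
import Mathlib.Analysis.SpecialFunctions.Trigonometric.InverseDeriv

/-!
# The arcsine law: the limit
-/

set_option autoImplicit false

namespace Pool.Agent.H55.AL

open MeasureTheory ProbabilityTheory Filter Topology Finset
open Pool.Agent.H499R2.ND.TJ (PP geo)

theorem uk_pos (k : ℕ) : 0 < uk k := by
  unfold uk
  have := Nat.centralBinom_pos k
  positivity

theorem uk_W (k : ℕ) : uk k ^ 2 * (2 * k + 1) * Real.Wallis.W k = 1 := by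
  induction k with
  | zero => simp [uk, Real.Wallis.W]
  | succ k ih =>
    rw [Real.Wallis.W_succ]
    have h := uk_succ k
    have hk : (0 : ℝ) < k + 1 := by positivity
    have h1 : uk (k + 1) = (2 * k + 1) * uk k / (2 * (k + 1)) := by
      rw [eq_div_iff (by positivity)]
      linarith
    rw [h1]
    push_cast
    calc ((2 * (k : ℝ) + 1) * uk k / (2 * (k + 1))) ^ 2 * (2 * (k + 1) + 1) *
          (Real.Wallis.W k * ((2 * k + 2) / (2 * k + 1) * ((2 * k + 2) / (2 * k + 3))))
        = uk k ^ 2 * (2 * k + 1) * Real.Wallis.W k := by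
          field_simp
          ring
      _ = 1 := ih

theorem uk_le {k : ℕ} (hk : 1 ≤ k) : uk k ≤ 1 / Real.sqrt (Real.pi * k) := by
  have hkR : (1 : ℝ) ≤ k := by exact_mod_cast hk
  have hπ := Real.pi_pos
  have h1 := uk_W k
  have h2 := Real.Wallis.le_W k
  have hW := Real.Wallis.W_pos k
  have hpos : 0 < Real.sqrt (Real.pi * k) := Real.sqrt_pos.2 (by positivity)
  rw [le_div_iff₀ hpos]
  have h3 : uk k ^ 2 * (Real.pi * k) ≤ 1 := by
    have h4 : uk k ^ 2 * (2 * k + 1) * ((2 * k + 1) / (2 * k + 2) * (Real.pi / 2)) ≤ 1 := by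
      have := uk_pos k
      calc uk k ^ 2 * (2 * k + 1) * ((2 * k + 1) / (2 * k + 2) * (Real.pi / 2))
          ≤ uk k ^ 2 * (2 * k + 1) * Real.Wallis.W k := by gcongr
        _ = 1 := h1
    have h5 : uk k ^ 2 * (Real.pi * k) ≤ uk k ^ 2 * (2 * k + 1) * ((2 * k + 1) / (2 * k + 2) * (Real.pi / 2)) := by
      rw [mul_assoc]
      apply mul_le_mul_of_nonneg_left _ (by positivity)
      have h6 : (2 * (k : ℝ) + 1) * ((2 * k + 1) / (2 * k + 2) * (Real.pi / 2)) =
          Real.pi * ((2 * k + 1) ^ 2 / (2 * (2 * k + 2))) := by field_simp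
      rw [h6]
      apply mul_le_mul_of_nonneg_left _ hπ.le
      rw [le_div_iff₀ (by positivity)]
      nlinarith
    linarith
  have h7 : 0 ≤ uk k * Real.sqrt (Real.pi * k) := by
    have := uk_pos k
    positivity
  have h8 : (uk k * Real.sqrt (Real.pi * k)) ^ 2 ≤ 1 ^ 2 := by
    rw [mul_pow, Real.sq_sqrt (by positivity), one_pow]
    exact h3
  exact (pow_le_pow_iff_left₀ h7 (by norm_num) (by norm_num)).1 h8

theorem le_uk (k : ℕ) : 1 / Real.sqrt (Real.pi * (k + 1 / 2)) ≤ uk k := by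
  have hπ := Real.pi_pos
  have h1 := uk_W k
  have h2 := Real.Wallis.W_le k
  have hu := uk_pos k
  have hpos : 0 < Real.sqrt (Real.pi * (k + 1 / 2)) := Real.sqrt_pos.2 (by positivity)
  rw [div_le_iff₀ hpos]
  have h3 : 1 ≤ uk k ^ 2 * (Real.pi * (k + 1 / 2)) := by
    calc 1 = uk k ^ 2 * (2 * k + 1) * Real.Wallis.W k := h1.symm
      _ ≤ uk k ^ 2 * (2 * k + 1) * (Real.pi / 2) := by gcongr
      _ = uk k ^ 2 * (Real.pi * (k + 1 / 2)) := by ring
  have h7 : 0 ≤ uk k * Real.sqrt (Real.pi * (k + 1 / 2)) := by positivity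
  have h8 : (1 : ℝ) ^ 2 ≤ (uk k * Real.sqrt (Real.pi * (k + 1 / 2))) ^ 2 := by
    rw [mul_pow, Real.sq_sqrt (by positivity), one_pow]
    exact h3
  exact (pow_le_pow_iff_left₀ (by norm_num) h7 (by norm_num)).1 h8

/-- the arcsine distribution function -/
noncomputable def AF (x : ℝ) : ℝ := 2 / Real.pi * Real.arcsin (Real.sqrt x)

/-- the arcsine density -/
noncomputable def gd (x : ℝ) : ℝ := 1 / (Real.pi * Real.sqrt (x * (1 - x)))

theorem AF_cont : Continuous AF := by
  unfold AF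
  exact continuous_const.mul (Real.continuous_arcsin.comp Real.continuous_sqrt)

theorem AF_mono : Monotone AF := by
  intro x y h
  unfold AF
  apply mul_le_mul_of_nonneg_left _ (by have := Real.pi_pos; positivity)
  exact Real.monotone_arcsin (Real.sqrt_le_sqrt h)

theorem AF_zero : AF 0 = 0 := by simp [AF]

theorem AF_one : AF 1 = 1 := by
  unfold AF
  rw [Real.sqrt_one, Real.arcsin_one]
  have := Real.pi_pos
  field_simp

theorem AF_symm {x : ℝ} (h0 : 0 ≤ x) (h1 : x ≤ 1) : AF (1 - x) = 1 - AF x := by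
  unfold AF
  have h2 : Real.arcsin (Real.sqrt (1 - x)) = Real.pi / 2 - Real.arcsin (Real.sqrt x) := by
    rw [← Real.arccos_eq_pi_div_two_sub_arcsin, Real.arccos_eq_arcsin (Real.sqrt_nonneg x), Real.sq_sqrt h0]
  rw [h2]
  have := Real.pi_pos
  field_simp

theorem AF_deriv {x : ℝ} (h0 : 0 < x) (h1 : x < 1) : HasDerivAt AF (gd x) x := by
  have hs0 : 0 < Real.sqrt x := Real.sqrt_pos.2 h0
  have hs1 : Real.sqrt x < 1 := by
    rw [Real.sqrt_lt' one_pos]
    simpa using h1
  have h2 := (Real.hasDerivAt_arcsin (x := Real.sqrt x) (by linarith) hs1.ne).comp x (Real.hasDerivAt_sqrt h0.ne')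
  have h3 := h2.const_mul (2 / Real.pi)
  have e : 2 / Real.pi * (1 / Real.sqrt (1 - Real.sqrt x ^ 2) * (1 / (2 * Real.sqrt x))) = gd x := by
    unfold gd
    rw [Real.sq_sqrt h0.le, Real.sqrt_mul h0.le]
    have hs2 : 0 < Real.sqrt (1 - x) := Real.sqrt_pos.2 (by linarith)
    have := Real.pi_pos
    field_simp
  rw [e] at h3
  exact h3

theorem gd_anti {x y : ℝ} (h0 : 0 < x) (h : x ≤ y) (h1 : y ≤ 1 / 2) : gd y ≤ gd x := by
  unfold gd
  have hπ := Real.pi_pos
  have h2 : 0 < x * (1 - x) := mul_pos h0 (by linarith)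
  have h3 : 0 < Real.sqrt (x * (1 - x)) := Real.sqrt_pos.2 h2
  have h4 : x * (1 - x) ≤ y * (1 - y) := by nlinarith
  gcongr

theorem AF_lower {a b : ℝ} (ha : 0 ≤ a) (hab : a < b) (hb : b ≤ 1 / 2) : (b - a) * gd b ≤ AF b - AF a := by
  obtain ⟨c, hc, h⟩ := exists_hasDerivAt_eq_slope AF gd hab AF_cont.continuousOn
    (fun x hx => AF_deriv (lt_of_le_of_lt ha hx.1) (by linarith [hx.2]))
  have h1 : gd b ≤ gd c := gd_anti (lt_of_le_of_lt ha hc.1) hc.2.le hb
  rw [eq_div_iff (by linarith)] at h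
  rw [← h]
  have h2 : 0 < b - a := by linarith
  nlinarith

theorem AF_upper {a b : ℝ} (ha : 0 < a) (hab : a < b) (hb : b ≤ 1 / 2) : AF b - AF a ≤ (b - a) * gd a := by
  obtain ⟨c, hc, h⟩ := exists_hasDerivAt_eq_slope AF gd hab AF_cont.continuousOn
    (fun x hx => AF_deriv (lt_of_le_of_lt ha.le hx.1) (by linarith [hx.2]))
  have h1 : gd c ≤ gd a := gd_anti ha hc.1.le (by linarith [hc.2])
  rw [eq_div_iff (by linarith)] at h
  rw [← h]
  have h2 : 0 < b - a := by linarith
  nlinarith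

/-- the partial sums of the discrete arcsine law -/
noncomputable def SS (n m : ℕ) : ℝ := ∑ k ∈ range m, uk k * uk (n - k)

theorem SS_upper {n m : ℕ} (h : 2 * m ≤ n) : SS n (m + 1) ≤ uk n + AF (m / n) := by
  induction m with
  | zero =>
    unfold SS
    simp [AF_zero, uk]
  | succ m ih =>
    have hn : 0 < n := by omega
    have hnR : (0 : ℝ) < n := by exact_mod_cast hn
    have h1 := ih (by omega)
    have h2 : SS n (m + 1 + 1) = SS n (m + 1) + uk (m + 1) * uk (n - (m + 1)) := Finset.sum_range_succ _ _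
    have hπ := Real.pi_pos
    have h3 : uk (m + 1) * uk (n - (m + 1)) ≤ AF ((m + 1 : ℕ) / n) - AF (m / n) := by
      have h4 := uk_le (k := m + 1) (by omega)
      have h5 := uk_le (k := n - (m + 1)) (by omega)
      have h6 := uk_pos (m + 1)
      have h7 := uk_pos (n - (m + 1))
      have h8 : uk (m + 1) * uk (n - (m + 1)) ≤ 1 / Real.sqrt (Real.pi * (m + 1 : ℕ)) * (1 / Real.sqrt (Real.pi * (n - (m + 1) : ℕ))) :=
        mul_le_mul h4 h5 h7.le (by positivity)
      have hb : ((m + 1 : ℕ) : ℝ) / n ≤ 1 / 2 := by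
        rw [div_le_div_iff₀ hnR (by norm_num)]
        have : ((2 * (m + 1) : ℕ) : ℝ) ≤ n := by exact_mod_cast h
        push_cast at this ⊢
        linarith
      have hab : (m : ℝ) / n < ((m + 1 : ℕ) : ℝ) / n := by
        apply div_lt_div_of_pos_right _ hnR
        push_cast
        linarith
      have h9 := AF_lower (a := (m : ℝ) / n) (b := ((m + 1 : ℕ) : ℝ) / n) (by positivity) hab hb
      refine h8.trans (le_trans (le_of_eq ?_) h9)
      unfold gd
      rw [Nat.cast_sub (by omega)]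
      set M : ℝ := ((m + 1 : ℕ) : ℝ) with hM
      have hMm : (m : ℝ) = M - 1 := by rw [hM]; push_cast; ring
      have hM0 : 0 < M := by rw [hM]; positivity
      have hnM : 0 < (n : ℝ) - M := by
        have : ((2 * (m + 1) : ℕ) : ℝ) ≤ n := by exact_mod_cast h
        push_cast at this hM
        linarith
      rw [hMm]
      have e1 : M / n * (1 - M / n) = (M * (n - M)) / n ^ 2 := by field_simp
      rw [e1, Real.sqrt_div' _ (by positivity), Real.sqrt_sq hnR.le, Real.sqrt_mul hM0.le, Real.sqrt_mul hπ.le,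
        Real.sqrt_mul hπ.le]
      have e2 : Real.sqrt Real.pi * Real.sqrt Real.pi = Real.pi := Real.mul_self_sqrt hπ.le
      have e3 : 0 < Real.sqrt M := Real.sqrt_pos.2 hM0
      have e4 : 0 < Real.sqrt (n - M) := Real.sqrt_pos.2 hnM
      have e5 : 0 < Real.sqrt Real.pi := Real.sqrt_pos.2 hπ
      have e6 : M / (n : ℝ) - (M - 1) / n = 1 / n := by ring
      rw [e6]
      conv_rhs => rw [← e2]
      field_simp
    linarith

theorem SS_lower {n m : ℕ} (h : 2 * m ≤ n) :
    AF ((m + 1 / 2) / (n + 1)) - AF ((1 / 2) / (n + 1)) ≤ SS n m := by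
  induction m with
  | zero =>
    unfold SS
    simp
  | succ m ih =>
    have h1 := ih (by omega)
    have h2 : SS n (m + 1) = SS n m + uk m * uk (n - m) := Finset.sum_range_succ _ _
    have hπ := Real.pi_pos
    have hN : (0 : ℝ) < (n : ℝ) + 1 := by positivity
    have hmn : ((m : ℝ) + 1) * 2 ≤ n := by
      have : ((2 * (m + 1) : ℕ) : ℝ) ≤ n := by exact_mod_cast h
      push_cast at this
      linarith
    have h3 : AF (((m + 1 : ℕ) + 1 / 2) / (n + 1)) - AF ((m + 1 / 2) / (n + 1)) ≤ uk m * uk (n - m) := by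
      have h4 := le_uk m
      have h5 := le_uk (n - m)
      have h8 : 1 / Real.sqrt (Real.pi * (m + 1 / 2)) * (1 / Real.sqrt (Real.pi * ((n - m : ℕ) + 1 / 2))) ≤
          uk m * uk (n - m) := mul_le_mul h4 h5 (by positivity) (uk_pos m).le
      have hb : (((m + 1 : ℕ) : ℝ) + 1 / 2) / (n + 1) ≤ 1 / 2 := by
        rw [div_le_div_iff₀ hN (by norm_num)]
        push_cast
        linarith
      have hab : ((m : ℝ) + 1 / 2) / (n + 1) < (((m + 1 : ℕ) : ℝ) + 1 / 2) / (n + 1) := by
        apply div_lt_div_of_pos_right _ hN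
        push_cast
        linarith
      have h9 := AF_upper (a := ((m : ℝ) + 1 / 2) / (n + 1)) (b := (((m + 1 : ℕ) : ℝ) + 1 / 2) / (n + 1)) (by positivity) hab hb
      refine h9.trans (le_trans (le_of_eq ?_) h8)
      unfold gd
      rw [Nat.cast_sub (by omega)]
      set M : ℝ := (m : ℝ) + 1 / 2 with hM
      have hM1 : ((m + 1 : ℕ) : ℝ) + 1 / 2 = M + 1 := by rw [hM]; push_cast; ring
      have hM2 : (n : ℝ) - m + 1 / 2 = (n + 1) - M := by rw [hM]; ring
      rw [hM1, hM2]
      set N : ℝ := (n : ℝ) + 1 with hN'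
      have hM0 : 0 < M := by rw [hM]; positivity
      have hnM : 0 < N - M := by
        rw [hN', hM]
        linarith
      have e1 : M / N * (1 - M / N) = (M * (N - M)) / N ^ 2 := by field_simp
      rw [e1, Real.sqrt_div' _ (by positivity), Real.sqrt_sq hN.le, Real.sqrt_mul hM0.le, Real.sqrt_mul hπ.le,
        Real.sqrt_mul hπ.le]
      have e2 : Real.sqrt Real.pi * Real.sqrt Real.pi = Real.pi := Real.mul_self_sqrt hπ.le
      have e3 : 0 < Real.sqrt M := Real.sqrt_pos.2 hM0
      have e4 : 0 < Real.sqrt (N - M) := Real.sqrt_pos.2 hnM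
      have e5 : 0 < Real.sqrt Real.pi := Real.sqrt_pos.2 hπ
      have e6 : (M + 1) / N - M / N = 1 / N := by ring
      rw [e6]
      conv_lhs => rw [← e2]
      field_simp
    linarith

end Pool.Agent.H55.AL
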