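import Pool.Agent.H55.AL.A3

/-!
# The arcsine law in the model: the limit law
-/

set_option autoImplicit false

namespace Pool.Agent.H55.AL

open MeasureTheory ProbabilityTheory Filter Topology Finset
open Pool.Agent.H499R2.ND.TJ (PP geo)

theorem SS_all (n : ℕ) : SS n (n + 1) = 1 := by
  unfold SS
  rw [← sum_one n]
  apply Finset.sum_congr rfl
  intro k _
  rw [pk_eq, qk_eq]

theorem SS_mono (n m : ℕ) : SS n m ≤ SS n (m + 1) := by
  have : SS n (m + 1) = SS n m + uk m * uk (n - m) := Finset.sum_range_succ _ _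
  rw [this]
  have h1 := uk_pos m
  have h2 := uk_pos (n - m)
  have := mul_pos h1 h2
  linarith

theorem SS_symm {n m : ℕ} (h : m ≤ n + 1) : SS n m + SS n (n + 1 - m) = 1 := by
  have h1 : SS n (n + 1) = SS n m + ∑ k ∈ Ico m (n + 1), uk k * uk (n - k) := by
    unfold SS
    rw [Finset.sum_range_add_sum_Ico _ h]
  have h2 : ∑ k ∈ Ico m (n + 1), uk k * uk (n - k) = SS n (n + 1 - m) := by
    unfold SS
    refine Finset.sum_bij' (fun k _ => n - k) (fun k _ => n - k) ?_ ?_ ?_ ?_ ?_
    · intro k hk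
      rw [Finset.mem_Ico] at hk
      rw [Finset.mem_range]
      omega
    · intro k hk
      rw [Finset.mem_range] at hk
      rw [Finset.mem_Ico]
      omega
    · intro k hk
      rw [Finset.mem_Ico] at hk
      omega
    · intro k hk
      rw [Finset.mem_range] at hk
      omega
    · intro k hk
      rw [Finset.mem_Ico] at hk
      rw [show n - (n - k) = k by omega]
      ring
  rw [← h2, ← h1, SS_all]

theorem uk_tendsto : Tendsto uk atTop (𝓝 0) := by
  have hπ := Real.pi_pos
  have h1 : Tendsto (fun k : ℕ => 1 / Real.sqrt (Real.pi * k)) atTop (𝓝 0) := by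
    have h2 : Tendsto (fun k : ℕ => Real.sqrt (Real.pi * k)) atTop atTop :=
      Real.tendsto_sqrt_atTop.comp (tendsto_natCast_atTop_atTop.const_mul_atTop hπ)
    refine (h2.inv_tendsto_atTop).congr fun k => ?_
    simp
  refine squeeze_zero' (Filter.Eventually.of_forall fun k => (uk_pos k).le) ?_ h1
  filter_upwards [eventually_ge_atTop 1] with k hk
  exact uk_le hk

theorem AF_unif {ε : ℝ} (hε : 0 < ε) : ∃ d : ℝ, 0 < d ∧ ∀ x y : ℝ, 0 ≤ x → x ≤ 1 → 0 ≤ y → y ≤ 1 → |x - y| < d →
    |AF x - AF y| < ε := by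
  have h := (isCompact_Icc (a := (0 : ℝ)) (b := 1)).uniformContinuousOn_of_continuous AF_cont.continuousOn
  rw [Metric.uniformContinuousOn_iff] at h
  obtain ⟨d, hd, h⟩ := h ε hε
  refine ⟨d, hd, fun x y h1 h2 h3 h4 h5 => ?_⟩
  exact h x ⟨h1, h2⟩ y ⟨h3, h4⟩ h5

theorem SS_lim {ε : ℝ} (hε : 0 < ε) : ∀ᶠ n : ℕ in atTop, ∀ m : ℕ, m ≤ n + 1 → |SS n m - AF (m / (n + 1))| ≤ ε := by
  obtain ⟨d, hd, hAF⟩ := AF_unif (show 0 < ε / 2 by positivity)
  obtain ⟨N₁, hN₁⟩ := exists_nat_gt (1 / d)
  filter_upwards [uk_tendsto.eventually (gt_mem_nhds hε), eventually_ge_atTop (N₁ + 1)] with n hu hn m hm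
  have hn1 : 1 ≤ n := by omega
  have hnR : (1 : ℝ) ≤ n := by exact_mod_cast hn1
  have hN : (0 : ℝ) < (n : ℝ) + 1 := by positivity
  have hdn : 1 / ((n : ℝ) + 1) < d := by
    rw [div_lt_iff₀ hN, mul_comm]
    rw [div_lt_iff₀ hd] at hN₁
    have h1 : (N₁ : ℝ) ≤ n := by exact_mod_cast (by omega : N₁ ≤ n)
    nlinarith
  -- the first half
  have half : ∀ m : ℕ, 2 * m ≤ n + 1 → |SS n m - AF (m / (n + 1))| ≤ ε := by
    intro m hm
    rcases m with _ | m
    · have : SS n 0 = 0 := by simp [SS]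
      rw [this]
      simp [AF_zero]
      exact hε.le
    · have hmn : 2 * m ≤ n := by omega
      have hmR : (m : ℝ) + 1 ≤ n + 1 := by
        have : m + 1 ≤ n + 1 := by omega
        exact_mod_cast this
      have h1 := SS_upper hmn
      have h2 := (SS_lower hmn).trans (SS_mono n m)
      have h3 : AF ((m : ℝ) / n) ≤ AF (((m + 1 : ℕ) : ℝ) / (n + 1)) := by
        apply AF_mono
        rw [div_le_div_iff₀ (by linarith) hN]
        push_cast
        nlinarith
      have h4 := hAF (((m + 1 : ℕ) : ℝ) / (n + 1)) (((m : ℝ) + 1 / 2) / (n + 1)) (by positivity)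
        (by rw [div_le_one hN]; push_cast; linarith) (by positivity) (by rw [div_le_one hN]; linarith) (by
          have : ((m + 1 : ℕ) : ℝ) / (n + 1) - ((m : ℝ) + 1 / 2) / (n + 1) = 1 / 2 * (1 / ((n : ℝ) + 1)) := by
            push_cast
            ring
          rw [this, abs_of_pos (by positivity)]
          have : 0 < 1 / ((n : ℝ) + 1) := by positivity
          linarith)
      have h5 := hAF ((1 / 2) / ((n : ℝ) + 1)) 0 (by positivity) (by rw [div_le_one hN]; linarith) le_rfl (by norm_num) (by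
          rw [sub_zero, abs_of_pos (by positivity)]
          have : (1 / 2) / ((n : ℝ) + 1) = 1 / 2 * (1 / ((n : ℝ) + 1)) := by ring
          rw [this]
          have : 0 < 1 / ((n : ℝ) + 1) := by positivity
          linarith)
      rw [AF_zero, sub_zero] at h5
      rw [abs_lt] at h4 h5
      rw [abs_le]
      constructor
      · linarith [h4.2, h5.2]
      · linarith
  rcases Nat.lt_or_ge (n + 1) (2 * m) with h | h
  · have h1 := half (n + 1 - m) (by omega)
    have h2 := SS_symm hm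
    have h3 : AF (((n + 1 - m : ℕ) : ℝ) / (n + 1)) = 1 - AF (m / (n + 1)) := by
      rw [Nat.cast_sub hm]
      push_cast
      have hmR : (m : ℝ) ≤ n + 1 := by exact_mod_cast hm
      rw [sub_div, div_self hN.ne']
      exact AF_symm (by positivity) (by rw [div_le_one hN]; exact hmR)
    rw [h3] at h1
    have h4 : SS n (n + 1 - m) - (1 - AF (m / (n + 1))) = -(SS n m - AF (m / (n + 1))) := by linarith
    rw [h4, abs_neg] at h1
    exact h1
  · exact half m h

/-- the arcsine law for the model -/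
theorem model_arc {ε : ℝ} (hε : 0 < ε) : ∀ᶠ n : ℕ in atTop, ∀ y : ℝ, 0 ≤ y → y ≤ 1 →
    |PP.real {ω | (Np n ω : ℝ) ≤ y * n} - AF y| ≤ ε := by
  obtain ⟨d, hd, hAF⟩ := AF_unif (show 0 < ε / 2 by positivity)
  obtain ⟨N₁, hN₁⟩ := exists_nat_gt (1 / d)
  filter_upwards [SS_lim (show 0 < ε / 2 by positivity), eventually_ge_atTop (N₁ + 1)] with n hS hn y hy0 hy1
  have hn1 : 1 ≤ n := by omega
  have hnR : (1 : ℝ) ≤ n := by exact_mod_cast hn1
  have hN : (0 : ℝ) < (n : ℝ) + 1 := by positivity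
  have hdn : 1 / ((n : ℝ) + 1) < d := by
    rw [div_lt_iff₀ hN, mul_comm]
    rw [div_lt_iff₀ hd] at hN₁
    have h1 : (N₁ : ℝ) ≤ n := by exact_mod_cast (by omega : N₁ ≤ n)
    nlinarith
  set a := ⌊y * n⌋₊ with ha
  have hyn : 0 ≤ y * n := by positivity
  have ha1 : (a : ℝ) ≤ y * n := Nat.floor_le hyn
  have ha2 : y * n < a + 1 := Nat.lt_floor_add_one _
  have han : a ≤ n := by
    have : (a : ℝ) ≤ n := by nlinarith
    exact_mod_cast this
  have e : {ω | (Np n ω : ℝ) ≤ y * n} = ⋃ k ∈ range (a + 1), {ω | Np n ω = k} := by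
    ext ω
    simp only [Set.mem_iUnion, Set.mem_ofPred_eq, exists_prop, Finset.mem_range, exists_eq_right']
    rw [Nat.lt_succ_iff, ha, Nat.le_floor_iff hyn]
  have h1 : PP.real {ω | (Np n ω : ℝ) ≤ y * n} = SS n (a + 1) := by
    rw [e, measureReal_biUnion_finset]
    · unfold SS
      apply Finset.sum_congr rfl
      intro k hk
      rw [Finset.mem_range] at hk
      exact arc_exact (by omega)
    · intro i _ j _ hij
      refine Set.disjoint_left.2 ?_
      intro ω h1 h2
      exact hij (h1.symm.trans h2)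
    · intro k _
      exact (meas_Np n) (measurableSet_singleton k)
  rw [h1]
  have h2 := hS (a + 1) (by omega)
  have hx1 : ((a + 1 : ℕ) : ℝ) / (n + 1) ≤ 1 := by
    rw [div_le_one hN]
    exact_mod_cast (by omega : a + 1 ≤ n + 1)
  have h3 := hAF (((a + 1 : ℕ) : ℝ) / (n + 1)) y (by positivity) hx1 hy0 hy1 (by
    rw [abs_lt]
    have e1 : ((a + 1 : ℕ) : ℝ) / (n + 1) - y = (a + 1 - y * (n + 1)) / (n + 1) := by
      push_cast
      field_simp
    have e2 : |(a : ℝ) + 1 - y * (n + 1)| ≤ 1 := by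
      rw [abs_le]
      constructor <;> nlinarith
    rw [e1, ← abs_lt, abs_div, abs_of_pos hN]
    refine lt_of_le_of_lt ?_ hdn
    gcongr)
  have h4 := abs_sub_le (SS n (a + 1)) (AF (((a + 1 : ℕ) : ℝ) / (n + 1))) (AF y)
  linarith

end Pool.Agent.H55.AL
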