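import Pool.Agent.H55.AL.A4

/-!
# The arcsine law in the model, jointly with the sign of the last value
-/

set_option autoImplicit false

namespace Pool.Agent.H55.AL

open MeasureTheory ProbabilityTheory Filter Topology Finset
open Pool.Agent.H499R2.ND.TJ (PP geo)

theorem meas_NZ (n k : ℕ) : MeasurableSet {ω | Np n ω = k ∧ 0 < Zw ω n} :=
  ((meas_Np n) (measurableSet_singleton k)).inter ((meas_Zw n) (Set.to_countable (Set.Ioi (0 : ℤ))).measurableSet)

theorem meas_NZ' (n k : ℕ) : MeasurableSet {ω | Np n ω = k ∧ Zw ω n ≤ 0} :=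
  ((meas_Np n) (measurableSet_singleton k)).inter ((meas_Zw n) (Set.to_countable (Set.Iic (0 : ℤ))).measurableSet)

theorem ab_sum {n k : ℕ} (hk : k ≤ n) : PP.real {ω | Np n ω = k ∧ 0 < Zw ω n} +
    PP.real {ω | Np n ω = k ∧ Zw ω n ≤ 0} = uk k * uk (n - k) := by
  rw [← arc_exact hk, ← measureReal_union _ (meas_NZ' n k)]
  · congr 1
    ext ω
    simp only [Set.mem_union, Set.mem_ofPred_eq]
    constructor
    · rintro (h | h)
      · exact h.1
      · exact h.1
    · intro h
      rcases lt_or_ge 0 (Zw ω n) with h1 | h1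
      · exact Or.inl ⟨h, h1⟩
      · exact Or.inr ⟨h, h1⟩
  · refine Set.disjoint_left.2 ?_
    rintro ω ⟨_, h1⟩ ⟨_, h2⟩
    omega

theorem ab_rec {n k : ℕ} (hk : k ≤ n) : PP.real {ω | Np (n + 1) ω = k + 1 ∧ 0 < Zw ω (n + 1)} +
    PP.real {ω | Np (n + 1) ω = k ∧ Zw ω (n + 1) ≤ 0} = uk k * uk (n - k) := by
  rw [← arc_exact hk, ← measureReal_union _ (meas_NZ' (n + 1) k)]
  · congr 1
    ext ω
    simp only [Set.mem_union, Set.mem_ofPred_eq]
    rw [Np_succ]
    constructor
    · rintro (⟨h, h1⟩ | ⟨h, h1⟩)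
      · rw [if_pos h1] at h
        omega
      · rw [if_neg (by omega)] at h
        omega
    · intro h
      rcases lt_or_ge 0 (Zw ω (n + 1)) with h1 | h1
      · exact Or.inl ⟨by rw [if_pos h1]; omega, h1⟩
      · exact Or.inr ⟨by rw [if_neg (by omega)]; omega, h1⟩
  · refine Set.disjoint_left.2 ?_
    rintro ω ⟨_, h1⟩ ⟨_, h2⟩
    omega

/-- the exact joint law -/
theorem joint_exact (n : ℕ) : ∀ k : ℕ, k ≤ n → PP.real {ω | Np n ω = k ∧ 0 < Zw ω n} =
    (k : ℝ) / n * (uk k * uk (n - k)) := by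
  rcases n with _ | n
  · intro k hk
    have : k = 0 := by omega
    subst this
    have : {ω | Np 0 ω = 0 ∧ 0 < Zw ω 0} = ∅ := by
      ext ω
      simp only [Set.mem_ofPred_eq, Set.mem_empty_iff_false, iff_false]
      rintro ⟨_, h⟩
      rw [Zw_zero] at h
      exact lt_irrefl _ h
    rw [this]
    simp
  · intro k
    induction k with
    | zero =>
      intro _
      have : {ω | Np (n + 1) ω = 0 ∧ 0 < Zw ω (n + 1)} = ∅ := by
        ext ω
        simp only [Set.mem_ofPred_eq, Set.mem_empty_iff_false, iff_false]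
        rintro ⟨h1, h2⟩
        rw [Np_succ, if_pos h2] at h1
        omega
      rw [this]
      simp
    | succ k ih =>
      intro hk
      have h1 := ih (by omega)
      have h2 := ab_sum (n := n + 1) (k := k) (by omega)
      have h3 := ab_rec (n := n) (k := k) (by omega)
      rw [h1] at h2
      have e1 : n + 1 - (k + 1) = n - k := by omega
      have e2 : n + 1 - k = (n - k) + 1 := by omega
      rw [e2] at h2
      rw [e1]
      have h4 := uk_succ (n - k)
      have h5 := uk_succ k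
      rw [Nat.cast_sub (by omega : k ≤ n)] at h4
      have hn : (0 : ℝ) < (n : ℝ) + 1 := by positivity
      have h6 : PP.real {ω | Np (n + 1) ω = k + 1 ∧ 0 < Zw ω (n + 1)} =
          uk k * uk (n - k) - uk k * uk (n - k + 1) + k / ((n : ℝ) + 1) * (uk k * uk (n - k + 1)) := by
        push_cast at h2
        linarith
      rw [h6]
      have h7 : uk (n - k + 1) * ((n : ℝ) + 1 - k) = (2 * (n - k) + 1) / 2 * uk (n - k) := by linarith
      have h8 : ((k : ℝ) + 1) * uk (k + 1) = (2 * k + 1) / 2 * uk k := by linarith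
      push_cast
      have h9 : uk k * uk (n - k) - uk k * uk (n - k + 1) + k / ((n : ℝ) + 1) * (uk k * uk (n - k + 1)) =
          uk k * (uk (n - k) * (n + 1) - uk (n - k + 1) * ((n : ℝ) + 1 - k)) / (n + 1) := by
        field_simp
        ring
      have h10 : ((k : ℝ) + 1) / (n + 1) * (uk (k + 1) * uk (n - k)) = ((k : ℝ) + 1) * uk (k + 1) * uk (n - k) / (n + 1) := by
        ring
      rw [h9, h10, h7, h8]
      ring

/-- the limit of the joint law -/
noncomputable def JF (x : ℝ) : ℝ := 1 / Real.pi * (Real.arcsin (Real.sqrt x) - Real.sqrt (x * (1 - x)))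

theorem JF_cont : Continuous JF := by
  unfold JF
  exact continuous_const.mul ((Real.continuous_arcsin.comp Real.continuous_sqrt).sub
    (Real.continuous_sqrt.comp (continuous_id.mul (continuous_const.sub continuous_id))))

theorem JF_zero : JF 0 = 0 := by simp [JF]

theorem JF_deriv {x : ℝ} (h0 : 0 < x) (h1 : x < 1) : HasDerivAt JF (x * gd x) x := by
  have hs0 : 0 < Real.sqrt x := Real.sqrt_pos.2 h0
  have hs1 : Real.sqrt x < 1 := by
    rw [Real.sqrt_lt' one_pos]
    simpa using h1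
  have h2 := (Real.hasDerivAt_arcsin (x := Real.sqrt x) (by linarith) hs1.ne).comp x (Real.hasDerivAt_sqrt h0.ne')
  have hx : 0 < x * (1 - x) := mul_pos h0 (by linarith)
  have h4 : HasDerivAt (fun x : ℝ => x * (1 - x)) (1 * (1 - x) + x * (0 - 1)) x :=
    (hasDerivAt_id x).mul ((hasDerivAt_const x 1).sub (hasDerivAt_id x))
  have h5 := h4.sqrt hx.ne'
  have h6 := (h2.sub h5).const_mul (1 / Real.pi)
  have e : 1 / Real.pi * (1 / Real.sqrt (1 - Real.sqrt x ^ 2) * (1 / (2 * Real.sqrt x)) -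
      (1 * (1 - x) + x * (0 - 1)) / (2 * Real.sqrt (x * (1 - x)))) = x * gd x := by
    unfold gd
    rw [Real.sq_sqrt h0.le, Real.sqrt_mul h0.le]
    have hs2 : 0 < Real.sqrt (1 - x) := Real.sqrt_pos.2 (by linarith)
    have := Real.pi_pos
    field_simp
    ring
  rw [e] at h6
  exact h6

theorem gd_nonneg {x : ℝ} : 0 ≤ gd x := by
  unfold gd
  have := Real.pi_pos
  positivity

theorem JF_lower {y y' : ℝ} (h0 : 0 ≤ y) (h : y ≤ y') (h1 : y' ≤ 1) : y * (AF y' - AF y) ≤ JF y' - JF y := by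
  have hm : MonotoneOn (fun x => JF x - y * AF x) (Set.Icc y 1) := by
    apply monotoneOn_of_deriv_nonneg (convex_Icc y 1)
    · exact (JF_cont.sub (continuous_const.mul AF_cont)).continuousOn
    · rw [interior_Icc]
      intro x hx
      exact ((JF_deriv (lt_of_le_of_lt h0 hx.1) hx.2).sub
        ((AF_deriv (lt_of_le_of_lt h0 hx.1) hx.2).const_mul y)).differentiableAt.differentiableWithinAt
    · rw [interior_Icc]
      intro x hx
      have hd : HasDerivAt (fun x => JF x - y * AF x) (x * gd x - y * gd x) x :=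
        (JF_deriv (lt_of_le_of_lt h0 hx.1) hx.2).sub ((AF_deriv (lt_of_le_of_lt h0 hx.1) hx.2).const_mul y)
      rw [hd.deriv]
      have := gd_nonneg (x := x)
      nlinarith [hx.1]
  have := hm ⟨le_rfl, h.trans h1⟩ ⟨h, h1⟩ h
  simp only at this
  linarith

theorem JF_upper {y y' : ℝ} (h0 : 0 ≤ y) (h : y ≤ y') (h1 : y' ≤ 1) : JF y' - JF y ≤ y' * (AF y' - AF y) := by
  have hm : MonotoneOn (fun x => y' * AF x - JF x) (Set.Icc 0 y') := by
    apply monotoneOn_of_deriv_nonneg (convex_Icc 0 y')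
    · exact ((continuous_const.mul AF_cont).sub JF_cont).continuousOn
    · rw [interior_Icc]
      intro x hx
      exact (((AF_deriv hx.1 (lt_of_lt_of_le hx.2 h1)).const_mul y').sub
        (JF_deriv hx.1 (lt_of_lt_of_le hx.2 h1))).differentiableAt.differentiableWithinAt
    · rw [interior_Icc]
      intro x hx
      have hd : HasDerivAt (fun x => y' * AF x - JF x) (y' * gd x - x * gd x) x :=
        ((AF_deriv hx.1 (lt_of_lt_of_le hx.2 h1)).const_mul y').sub (JF_deriv hx.1 (lt_of_lt_of_le hx.2 h1))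
      rw [hd.deriv]
      have := gd_nonneg (x := x)
      nlinarith [hx.2]
  have := hm ⟨h0, h⟩ ⟨h0.trans h, le_rfl⟩ h
  simp only at this
  linarith

/-- the number of the positive values is at most `y n` and the last value is positive -/
theorem sum_form {n : ℕ} (hn : 1 ≤ n) {y : ℝ} (hy0 : 0 ≤ y) (hy1 : y ≤ 1) :
    PP.real {ω | (Np n ω : ℝ) ≤ y * n} = ∑ k ∈ (range (n + 1)).filter (fun k : ℕ => (k : ℝ) ≤ y * n), uk k * uk (n - k) ∧
    PP.real ({ω | (Np n ω : ℝ) ≤ y * n} ∩ {ω | 0 < Zw ω n}) =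
      ∑ k ∈ (range (n + 1)).filter (fun k : ℕ => (k : ℝ) ≤ y * n), (k : ℝ) / n * (uk k * uk (n - k)) := by
  constructor
  · have e : {ω | (Np n ω : ℝ) ≤ y * n} =
        ⋃ k ∈ (range (n + 1)).filter (fun k : ℕ => (k : ℝ) ≤ y * n), {ω | Np n ω = k} := by
      ext ω
      simp only [Set.mem_iUnion, Set.mem_ofPred_eq, exists_prop, Finset.mem_filter, Finset.mem_range, exists_eq_right']
      have := Np_le n ω
      constructor
      · intro h
        exact ⟨by omega, h⟩
      · rintro ⟨_, h⟩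
        exact h
    rw [e, measureReal_biUnion_finset]
    · apply Finset.sum_congr rfl
      intro k hk
      rw [Finset.mem_filter, Finset.mem_range] at hk
      exact arc_exact (by omega)
    · intro i _ j _ hij
      refine Set.disjoint_left.2 ?_
      intro ω h1 h2
      exact hij (h1.symm.trans h2)
    · intro k _
      exact (meas_Np n) (measurableSet_singleton k)
  · have e : {ω | (Np n ω : ℝ) ≤ y * n} ∩ {ω | 0 < Zw ω n} =
        ⋃ k ∈ (range (n + 1)).filter (fun k : ℕ => (k : ℝ) ≤ y * n), {ω | Np n ω = k ∧ 0 < Zw ω n} := by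
      ext ω
      simp only [Set.mem_iUnion, Set.mem_inter_iff, Set.mem_ofPred_eq, exists_prop, Finset.mem_filter, Finset.mem_range]
      have := Np_le n ω
      constructor
      · rintro ⟨h, h2⟩
        exact ⟨Np n ω, ⟨by omega, h⟩, rfl, h2⟩
      · rintro ⟨k, ⟨_, h⟩, h3, h4⟩
        exact ⟨by rw [h3]; exact h, h4⟩
    rw [e, measureReal_biUnion_finset]
    · apply Finset.sum_congr rfl
      intro k hk
      rw [Finset.mem_filter, Finset.mem_range] at hk
      exact joint_exact n k (by omega)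
    · intro i _ j _ hij
      refine Set.disjoint_left.2 ?_
      rintro ω ⟨h1, _⟩ ⟨h2, _⟩
      exact hij (h1.symm.trans h2)
    · intro k _
      exact meas_NZ n k

theorem H_incr {n : ℕ} (hn : 1 ≤ n) {y y' : ℝ} (hy0 : 0 ≤ y) (h : y ≤ y') (hy1 : y' ≤ 1) :
    y * (PP.real {ω | (Np n ω : ℝ) ≤ y' * n} - PP.real {ω | (Np n ω : ℝ) ≤ y * n}) ≤
      PP.real ({ω | (Np n ω : ℝ) ≤ y' * n} ∩ {ω | 0 < Zw ω n}) - PP.real ({ω | (Np n ω : ℝ) ≤ y * n} ∩ {ω | 0 < Zw ω n}) ∧
    PP.real ({ω | (Np n ω : ℝ) ≤ y' * n} ∩ {ω | 0 < Zw ω n}) - PP.real ({ω | (Np n ω : ℝ) ≤ y * n} ∩ {ω | 0 < Zw ω n}) ≤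
      y' * (PP.real {ω | (Np n ω : ℝ) ≤ y' * n} - PP.real {ω | (Np n ω : ℝ) ≤ y * n}) := by
  have hnR : (0 : ℝ) < n := by exact_mod_cast hn
  obtain ⟨g1, h1⟩ := sum_form hn (hy0.trans h) hy1
  obtain ⟨g2, h2⟩ := sum_form hn hy0 (h.trans hy1)
  rw [g1, h1, g2, h2]
  have hsub : (range (n + 1)).filter (fun k : ℕ => (k : ℝ) ≤ y * n) ⊆ (range (n + 1)).filter (fun k : ℕ => (k : ℝ) ≤ y' * n) := by
    intro k hk
    rw [Finset.mem_filter] at hk ⊢
    exact ⟨hk.1, hk.2.trans (mul_le_mul_of_nonneg_right h hnR.le)⟩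
  rw [← Finset.sum_sdiff hsub, ← Finset.sum_sdiff hsub (f := fun k : ℕ => (k : ℝ) / n * (uk k * uk (n - k)))]
  simp only [add_sub_cancel_right]
  rw [Finset.mul_sum, Finset.mul_sum]
  constructor
  · apply Finset.sum_le_sum
    intro k hk
    rw [Finset.mem_sdiff, Finset.mem_filter, Finset.mem_filter] at hk
    obtain ⟨⟨h3, h4⟩, h5⟩ := hk
    have h6 : y * n < k := by
      by_contra hcon
      exact h5 ⟨h3, not_lt.1 hcon⟩
    apply mul_le_mul_of_nonneg_right
    · rw [le_div_iff₀ hnR]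
      exact h6.le
    · exact (mul_pos (uk_pos _) (uk_pos _)).le
  · apply Finset.sum_le_sum
    intro k hk
    rw [Finset.mem_sdiff, Finset.mem_filter, Finset.mem_filter] at hk
    obtain ⟨⟨h3, h4⟩, h5⟩ := hk
    apply mul_le_mul_of_nonneg_right
    · rw [div_le_iff₀ hnR]
      exact h4
    · exact (mul_pos (uk_pos _) (uk_pos _)).le

/-- the joint arcsine law for the model -/
theorem model_joint {ε : ℝ} (hε : 0 < ε) : ∀ᶠ n : ℕ in atTop, ∀ y : ℝ, 0 ≤ y → y ≤ 1 →
    |PP.real ({ω | (Np n ω : ℝ) ≤ y * n} ∩ {ω | 0 < Zw ω n}) - JF y| ≤ ε := by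
  obtain ⟨M, hM⟩ := exists_nat_gt (2 / ε)
  have hM0 : (0 : ℝ) < M := lt_of_lt_of_le (by positivity) hM.le
  have hMε : 1 / (M : ℝ) ≤ ε / 2 := by
    rw [div_lt_iff₀ hε] at hM
    rw [div_le_iff₀ hM0]
    linarith
  set e : ℝ := ε / (4 * M) with he
  have he0 : 0 < e := by positivity
  filter_upwards [model_arc he0, eventually_ge_atTop 1] with n hG hn y hy0 hy1
  have hnR : (0 : ℝ) < n := by exact_mod_cast hn
  set G : ℝ → ℝ := fun y => PP.real {ω | (Np n ω : ℝ) ≤ y * n} with hGdef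
  set H : ℝ → ℝ := fun y => PP.real ({ω | (Np n ω : ℝ) ≤ y * n} ∩ {ω | 0 < Zw ω n}) with hHdef
  have hH0 : H 0 = 0 := by
    have := (sum_form hn (le_refl (0 : ℝ)) zero_le_one).2
    rw [hHdef]
    simp only
    rw [this]
    apply Finset.sum_eq_zero
    intro k hk
    rw [Finset.mem_filter] at hk
    have : (k : ℝ) = 0 := by
      have h1 := hk.2
      rw [zero_mul] at h1
      exact le_antisymm h1 (Nat.cast_nonneg k)
    rw [this]
    simp
  set Y : ℕ → ℝ := fun i => (i : ℝ) * (y / M) with hY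
  have hY0 : ∀ i, 0 ≤ Y i := fun i => by rw [hY]; positivity
  have hYM : Y M = y := by rw [hY]; field_simp
  have hYstep : ∀ i, Y (i + 1) = Y i + y / M := fun i => by rw [hY]; push_cast; ring
  have hY1 : ∀ i, i ≤ M → Y i ≤ 1 := by
    intro i hi
    have h1 : Y i ≤ Y M := by
      rw [hY]
      have : (i : ℝ) ≤ M := by exact_mod_cast hi
      show (i : ℝ) * (y / M) ≤ M * (y / M)
      gcongr
    rw [hYM] at h1
    linarith
  have hyM : y / M ≤ 1 / M := by gcongr
  have key : ∀ i, i ≤ M → H (Y i) - JF (Y i) ≤ 2 * e * i + 1 / M * G (Y i) ∧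
      JF (Y i) - H (Y i) ≤ 2 * e * i + 1 / M * AF (Y i) := by
    intro i
    induction i with
    | zero =>
      intro _
      have e0 : Y 0 = 0 := by simp [hY]
      rw [e0, hH0, JF_zero, AF_zero]
      have : 0 ≤ G 0 := measureReal_nonneg
      constructor
      · have : 0 ≤ 1 / (M : ℝ) * G 0 := by positivity
        simpa using this
      · simp
    | succ i ih =>
      intro hi
      obtain ⟨i1, i2⟩ := ih (by omega)
      have hle : Y i ≤ Y (i + 1) := by
        rw [hYstep]
        have : 0 ≤ y / M := by positivity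
        linarith
      obtain ⟨a1, a2⟩ := H_incr hn (hY0 i) hle (hY1 (i + 1) hi)
      have b1 := JF_lower (hY0 i) hle (hY1 (i + 1) hi)
      have b2 := JF_upper (hY0 i) hle (hY1 (i + 1) hi)
      have c1 := abs_le.1 (hG (Y i) (hY0 i) (hY1 i (by omega)))
      have c2 := abs_le.1 (hG (Y (i + 1)) (hY0 _) (hY1 (i + 1) hi))
      change _ ≤ H (Y (i + 1)) - H (Y i) at a1
      change H (Y (i + 1)) - H (Y i) ≤ _ at a2
      change Y i * (G (Y (i + 1)) - G (Y i)) ≤ _ at a1
      change _ ≤ Y (i + 1) * (G (Y (i + 1)) - G (Y i)) at a2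
      change _ ≤ G (Y i) - AF (Y i) ∧ G (Y i) - AF (Y i) ≤ _ at c1
      change _ ≤ G (Y (i + 1)) - AF (Y (i + 1)) ∧ G (Y (i + 1)) - AF (Y (i + 1)) ≤ _ at c2
      set dG := G (Y (i + 1)) - G (Y i) with hdG
      set dF := AF (Y (i + 1)) - AF (Y i) with hdF
      have hdG0 : 0 ≤ dG := by
        rw [hdG, sub_nonneg]
        apply measureReal_mono _ (measure_ne_top _ _)
        intro ω hω
        rw [Set.mem_ofPred_eq] at hω ⊢
        exact hω.trans (mul_le_mul_of_nonneg_right hle hnR.le)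
      have hdF0 : 0 ≤ dF := by
        rw [hdF, sub_nonneg]
        exact AF_mono hle
      have hdd : |dG - dF| ≤ 2 * e := by
        rw [abs_le]
        constructor <;> linarith
      rw [abs_le] at hdd
      have hYi1 := hY1 i (by omega)
      have d1 : Y i * (dG - dF) ≤ 2 * e := by
        have : Y i * (dG - dF) ≤ Y i * (2 * e) := mul_le_mul_of_nonneg_left hdd.2 (hY0 i)
        nlinarith
      have d2 : Y i * (dF - dG) ≤ 2 * e := by
        have : Y i * (dF - dG) ≤ Y i * (2 * e) := mul_le_mul_of_nonneg_left (by linarith) (hY0 i)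
        nlinarith
      have d3 : y / M * dG ≤ 1 / M * dG := mul_le_mul_of_nonneg_right hyM hdG0
      have d4 : y / M * dF ≤ 1 / M * dF := mul_le_mul_of_nonneg_right hyM hdF0
      rw [hYstep, add_mul] at a2 b2
      rw [← hYstep] at a2 b2
      push_cast
      constructor
      · have e1 : 1 / (M : ℝ) * G (Y (i + 1)) = 1 / M * G (Y i) + 1 / M * dG := by rw [hdG]; ring
        rw [e1]
        linarith
      · have e1 : 1 / (M : ℝ) * AF (Y (i + 1)) = 1 / M * AF (Y i) + 1 / M * dF := by rw [hdF]; ring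
        rw [e1]
        linarith
  obtain ⟨k1, k2⟩ := key M le_rfl
  rw [hYM] at k1 k2
  have hG1 : G y ≤ 1 := measureReal_le_one
  have hF1 : AF y ≤ 1 := by rw [← AF_one]; exact AF_mono hy1
  have h2e : 2 * e * M = ε / 2 := by
    rw [he]; field_simp; norm_num
  have hiM : 0 < 1 / (M : ℝ) := by positivity
  rw [h2e] at k1 k2
  have k3 : 1 / (M : ℝ) * G y ≤ ε / 2 := by nlinarith
  have k4 : 1 / (M : ℝ) * AF y ≤ ε / 2 := by nlinarith
  show |H y - JF y| ≤ ε
  rw [abs_le]
  constructor <;> linarith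

end Pool.Agent.H55.AL
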