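import Pool.Agent.H55.UL.Joint

/-!
# Averages over the places of the trajectory, arcsine law
-/

set_option autoImplicit false

namespace Pool.Agent.H55.AL

open Filter Topology Finset
open Pool.Agent.Results.MP_f7abf1_nt.BlockLaw (T Syr wait bound oddCount)
open Pool.Agent.H55.UL

/-- above the mean line -/
def sA (m j : ℕ) : Prop := S m j < 2 * j

/-- near the mean line -/
def bA (w : ℝ) (m j : ℕ) : Prop := |(S m j : ℝ) - 2 * j| ≤ w

/-- the place `j` and the endpoint of its block are on different sides of the mean line -/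
def misA (b m j : ℕ) : Prop := ¬ (sA m j ↔ sA m (j / b * b))

theorem same_signA {w : ℝ} {m i j : ℕ} (h1 : ¬ bA w m i)
    (h3 : ¬ (w ≤ |(S m j : ℝ) - S m i - 2 * ((j : ℝ) - i)|)) : (sA m j ↔ sA m i) := by
  unfold bA at h1
  rw [not_le] at h1 h3
  have hs : ∀ q : ℕ, (sA m q ↔ (S m q : ℝ) - 2 * q < 0) := by
    intro q
    unfold sA
    rw [sub_neg]
    constructor
    · intro h; exact_mod_cast h
    · intro h; exact_mod_cast h
  rw [hs j, hs i]
  have h4 := abs_lt.1 h3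
  rcases lt_or_ge ((S m i : ℝ) - 2 * i) 0 with h5 | h5
  · rw [abs_of_neg h5] at h1
    constructor
    · intro _; exact h5
    · intro _; linarith [h4.2]
  · rw [abs_of_nonneg h5] at h1
    constructor
    · intro h; linarith [h4.1]
    · intro h; linarith

theorem mid_bdA {K j : ℕ} {η γ ε : ℝ} (hη : 0 < η) (hγ : 0 < γ) (hγ1 : γ ≤ 1) (hK : 0 < K) (h1 : γ * K ≤ j) :
    (2 * (η * Real.sqrt K) + 1) / Real.sqrt j / 2 + ε ≤ η / γ + 1 / (2 * γ * Real.sqrt K) + ε := by
  have hKR : (0 : ℝ) < K := by exact_mod_cast hK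
  have hs : 0 < Real.sqrt K := Real.sqrt_pos.2 hKR
  have h4 : γ * Real.sqrt K ≤ Real.sqrt j := by
    rw [← Real.sqrt_sq hγ.le, ← Real.sqrt_mul (by positivity)]
    apply Real.sqrt_le_sqrt
    have : γ ^ 2 * K ≤ γ * K := by
      have : γ ^ 2 ≤ γ := by nlinarith
      gcongr
    linarith
  have h5 : (2 * (η * Real.sqrt K) + 1) / Real.sqrt j ≤ (2 * (η * Real.sqrt K) + 1) / (γ * Real.sqrt K) := by
    gcongr
  have h6 : (2 * (η * Real.sqrt K) + 1) / (γ * Real.sqrt K) / 2 = η / γ + 1 / (2 * γ * Real.sqrt K) := by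
    field_simp
  linarith

theorem bad_sumA {ε₀ : ℝ} (h0 : 0 < ε₀) (h01 : ε₀ ≤ 1) : ∃ η : ℝ, 0 < η ∧ ∀ κ : ℝ, 0 < κ → κ ≤ 1 / 2 →
    ∀ᶠ X : ℕ in atTop, ∀ K : ℕ, Real.log X ≤ K → (K : ℝ) ≤ (1 - κ) * Real.log X / Real.log (4 / 3) →
      ∑ j ∈ range K, oddCount X (fun n => bA (η * Real.sqrt K) n j) ≤ ε₀ * K * X := by
  set γ : ℝ := ε₀ / 8 with hγ
  have hγ0 : 0 < γ := by positivity
  have hγ1 : γ ≤ 1 := by rw [hγ]; linarith
  set η : ℝ := ε₀ * γ / 8 with hη
  have hη0 : 0 < η := by positivity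
  refine ⟨η, hη0, fun κ hκ hκ2 => ?_⟩
  set κ₁ := min κ γ with hκ₁
  have hκ₁0 : 0 < κ₁ := lt_min hκ hγ0
  obtain ⟨K₁, hK₁⟩ := eventually_atTop.1 (slow (8 / (γ * ε₀)) (show (0 : ℝ) < 1 by norm_num))
  filter_upwards [up_short hκ₁0 (show 0 < ε₀ / 8 by positivity), log_tendsto.eventually_ge_atTop (max K₁ (max 1 (16 / ε₀)))]
    with X hX hL K hLK hK
  have hL1 : K₁ ≤ Real.log X := (le_max_left _ _).trans hL
  have hL2 : 1 ≤ Real.log X := (le_max_left _ _).trans ((le_max_right _ _).trans hL)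
  have hL3 : 16 / ε₀ ≤ Real.log X := (le_max_right _ _).trans ((le_max_right _ _).trans hL)
  have hKR1 : (1 : ℝ) ≤ K := hL2.trans hLK
  have hKR : (0 : ℝ) < K := by linarith
  have hK0 : 0 < K := by exact_mod_cast hKR
  have hs1 : 1 ≤ Real.sqrt K := by rw [Real.one_le_sqrt]; exact hKR1
  have hX0 : (0 : ℝ) ≤ X := Nat.cast_nonneg X
  have hlpos : 0 < Real.log (4 / 3) := by linarith [log43_lo]
  have hKκ₁ : (K : ℝ) ≤ (1 - κ₁) * Real.log X / Real.log (4 / 3) := by
    refine hK.trans ?_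
    have : κ₁ ≤ κ := min_le_left _ _
    gcongr
  have hsm : 1 / (2 * γ * Real.sqrt K) ≤ ε₀ / 8 := by
    obtain ⟨_, h2, _⟩ := hK₁ K (hL1.trans hLK)
    have h3 : 8 / (γ * ε₀) ≤ 1 * Real.sqrt K := by
      refine le_trans ?_ h2
      have h4 : 0 ≤ Real.log K := Real.log_nonneg hKR1
      have h5 : 0 < 8 / (γ * ε₀) := by positivity
      have := mul_nonneg h5.le h4
      linarith
    rw [one_mul, div_le_iff₀ (by positivity)] at h3
    rw [div_le_iff₀ (by positivity)]
    nlinarith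
  have hmid : η / γ + 1 / (2 * γ * Real.sqrt K) + ε₀ / 8 ≤ ε₀ / 2 := by
    have : η / γ = ε₀ / 8 := by
      rw [hη]; field_simp
    linarith
  have hterm : ∀ j ∈ range K, oddCount X (fun n => bA (η * Real.sqrt K) n j) ≤
      ((if (j : ℝ) < γ * K then (1 : ℝ) else 0) + ε₀ / 2) * X := by
    intro j hj
    rw [Finset.mem_range] at hj
    by_cases h1 : (j : ℝ) < γ * K
    · rw [if_pos h1]
      refine (oc_le X _).trans ?_
      have h3 : (1 : ℝ) ≤ 1 + ε₀ / 2 := by linarith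
      have := mul_le_mul_of_nonneg_right h3 hX0
      linarith
    · rw [if_neg h1, zero_add]
      push Not at h1
      have hκL : κ₁ * Real.log X ≤ γ * K := by
        apply mul_le_mul (min_le_right _ _) hLK (by linarith) hγ0.le
      have hj1 : 0 < j := by
        have : (0 : ℝ) < j := lt_of_lt_of_le (by positivity) h1
        exact_mod_cast this
      have hjK : (j : ℝ) ≤ K := by exact_mod_cast hj.le
      have h3 := hX j hj1 (hκL.trans h1) (hjK.trans hKκ₁) (2 * j) (η * Real.sqrt K) (by positivity)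
      have h4 := mid_bdA (ε := ε₀ / 8) hη0 hγ0 hγ1 hK0 h1
      refine le_trans h3 ?_
      gcongr
      exact h4.trans hmid
  refine (Finset.sum_le_sum hterm).trans ?_
  rw [← Finset.sum_mul, Finset.sum_add_distrib, Finset.sum_const, Finset.card_range, nsmul_eq_mul]
  have c1 := cnt_lt K (show 0 ≤ γ * (K : ℝ) by positivity)
  rw [Finset.card_filter] at c1
  push_cast at c1
  have c3 : (2 : ℝ) ≤ ε₀ / 8 * K := by
    have : 16 / ε₀ ≤ K := hL3.trans hLK
    rw [div_le_iff₀ h0] at this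
    linarith
  have c4 : (∑ j ∈ range K, (if (j : ℝ) < γ * K then (1 : ℝ) else 0)) + K * (ε₀ / 2) ≤ ε₀ * K := by
    have : γ * K = ε₀ / 8 * K := by rw [hγ]
    have hpos : 0 ≤ ε₀ * K := by positivity
    linarith
  exact mul_le_mul_of_nonneg_right c4 hX0

theorem mis_sumA {ε₀ : ℝ} (h0 : 0 < ε₀) (h01 : ε₀ ≤ 1) : ∃ r₀ : ℕ, ∀ r : ℕ, r₀ ≤ r → 0 < r → ∀ κ : ℝ, 0 < κ → κ ≤ 1 / 2 →
    ∀ᶠ X : ℕ in atTop, ∀ b : ℕ, 0 < b → Real.log X ≤ (r * b : ℕ) →
      ((r * b : ℕ) : ℝ) ≤ (1 - κ) * Real.log X / Real.log (4 / 3) →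
      ∑ j ∈ range (r * b), oddCount X (fun n => misA b n j) ≤ ε₀ * (r * b : ℕ) * X := by
  set γ : ℝ := ε₀ / 16 with hγ
  have hγ0 : 0 < γ := by positivity
  have hγ1 : γ ≤ 1 := by rw [hγ]; linarith
  set η : ℝ := ε₀ * γ / 16 with hη
  have hη0 : 0 < η := by positivity
  refine ⟨⌈16 / ε₀⌉₊ + ⌈128 / (ε₀ * η ^ 2)⌉₊, fun r hr hrpos κ hκ hκ2 => ?_⟩
  have hrR : (0 : ℝ) < r := by exact_mod_cast hrpos
  have hr1 : (1 : ℝ) ≤ r := by exact_mod_cast hrpos
  have hra : 16 / ε₀ ≤ r := by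
    have h1 := Nat.le_ceil (16 / ε₀)
    have h2 : (⌈16 / ε₀⌉₊ : ℝ) ≤ r := by exact_mod_cast (le_trans (Nat.le_add_right _ _) hr)
    linarith
  have hrb : 128 / (ε₀ * η ^ 2) ≤ r := by
    have h1 := Nat.le_ceil (128 / (ε₀ * η ^ 2))
    have h2 : (⌈128 / (ε₀ * η ^ 2)⌉₊ : ℝ) ≤ r := by exact_mod_cast (le_trans (Nat.le_add_left _ _) hr)
    linarith
  set κ₁ := min κ (min γ (ε₀ / (16 * r))) with hκ₁
  have hκ₁0 : 0 < κ₁ := by rw [hκ₁]; positivity
  obtain ⟨K₁, hK₁⟩ := eventually_atTop.1 (slow (8 / (γ * ε₀)) (show (0 : ℝ) < 1 by norm_num))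
  have hε1 : 0 < ε₀ / 16 := by positivity
  filter_upwards [up_short hκ₁0 hε1, up_cheb2 hκ₁0 hε1,
    log_tendsto.eventually_ge_atTop (max K₁ (max 1 ((4 * r + 8) / ε₀)))]
    with X hXa hXc hL b hb hLK hK
  set K := r * b with hKdef
  have hL1 : K₁ ≤ Real.log X := (le_max_left _ _).trans hL
  have hL2 : 1 ≤ Real.log X := (le_max_left _ _).trans ((le_max_right _ _).trans hL)
  have hL3 : (4 * r + 8) / ε₀ ≤ Real.log X := (le_max_right _ _).trans ((le_max_right _ _).trans hL)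
  have hKR1 : (1 : ℝ) ≤ K := hL2.trans hLK
  have hKR : (0 : ℝ) < K := by linarith
  have hK0 : 0 < K := by exact_mod_cast hKR
  have hKrb : (K : ℝ) = r * b := by rw [hKdef]; push_cast; ring
  have hbR : (0 : ℝ) < b := by exact_mod_cast hb
  have hs0 : 0 < Real.sqrt K := Real.sqrt_pos.2 hKR
  have hsq : Real.sqrt K ^ 2 = K := Real.sq_sqrt hKR.le
  have hX0 : (0 : ℝ) ≤ X := Nat.cast_nonneg X
  have hlpos : 0 < Real.log (4 / 3) := by linarith [log43_lo]
  have hKκ₁ : (K : ℝ) ≤ (1 - κ₁) * Real.log X / Real.log (4 / 3) := by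
    refine hK.trans ?_
    have : κ₁ ≤ κ := min_le_left _ _
    gcongr
  have hκγ : κ₁ ≤ γ := (min_le_right _ _).trans (min_le_left _ _)
  have hκr : κ₁ ≤ ε₀ / (16 * r) := (min_le_right _ _).trans (min_le_right _ _)
  have hκL : κ₁ * Real.log X ≤ γ * K := mul_le_mul hκγ hLK (by linarith) hγ0.le
  have hsm : 1 / (2 * γ * Real.sqrt K) ≤ ε₀ / 16 := by
    obtain ⟨_, h2, _⟩ := hK₁ K (hL1.trans hLK)
    have h3 : 8 / (γ * ε₀) ≤ 1 * Real.sqrt K := by
      refine le_trans ?_ h2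
      have h4 : 0 ≤ Real.log K := Real.log_nonneg hKR1
      have h5 : 0 < 8 / (γ * ε₀) := by positivity
      have := mul_nonneg h5.le h4
      linarith
    rw [one_mul, div_le_iff₀ (by positivity)] at h3
    rw [div_le_iff₀ (by positivity)]
    linarith
  have hmid : η / γ + 1 / (2 * γ * Real.sqrt K) + ε₀ / 16 ≤ 3 * (ε₀ / 16) := by
    have : η / γ = ε₀ / 16 := by
      rw [hη]; field_simp
    linarith
  set w := η * Real.sqrt K with hw
  have hw0 : 0 < w := by positivity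
  have hq2 : (b : ℝ) / w ^ 2 ≤ ε₀ / 32 := by
    have e1 : (b : ℝ) / w ^ 2 = 1 / (r * η ^ 2) := by
      rw [hw, div_eq_div_iff (by positivity) (by positivity)]
      have : (η * Real.sqrt K) ^ 2 = η ^ 2 * (Real.sqrt K ^ 2) := by ring
      rw [this, hsq, hKrb]
      ring
    rw [e1, div_le_div_iff₀ (by positivity) (by norm_num)]
    rw [div_le_iff₀ (by positivity)] at hrb
    linarith
  have hterm : ∀ j ∈ range K, oddCount X (fun n => misA b n j) ≤
      ((if (j : ℝ) < γ * K + b then (1 : ℝ) else 0) +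
        (if ((j % b : ℕ) : ℝ) < κ₁ * Real.log X then (1 : ℝ) else 0) + ε₀ / 2) * X := by
    intro j hj
    rw [Finset.mem_range] at hj
    have t1 : (0 : ℝ) ≤ (if (j : ℝ) < γ * K + b then (1 : ℝ) else 0) := by split_ifs <;> norm_num
    have t3 : (0 : ℝ) ≤ (if ((j % b : ℕ) : ℝ) < κ₁ * Real.log X then (1 : ℝ) else 0) := by split_ifs <;> norm_num
    by_cases hall : (j : ℝ) < γ * K + b ∨ ((j % b : ℕ) : ℝ) < κ₁ * Real.log X
    · refine (oc_le X _).trans ?_
      have h3 : (1 : ℝ) ≤ (if (j : ℝ) < γ * K + b then (1 : ℝ) else 0) +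
        (if ((j % b : ℕ) : ℝ) < κ₁ * Real.log X then (1 : ℝ) else 0) + ε₀ / 2 := by
        rcases hall with h | h
        · rw [if_pos h]; linarith
        · rw [if_pos h]; linarith
      have := mul_le_mul_of_nonneg_right h3 hX0
      linarith
    · push Not at hall
      obtain ⟨h1, h3⟩ := hall
      set i := j / b * b with hi
      have hdm : i + j % b = j := by rw [hi, mul_comm]; exact Nat.div_add_mod j b
      have hmod : j % b < b := Nat.mod_lt j hb
      have hij : i ≤ j := by omega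
      have hji : j ≤ i + b := by omega
      have hijR : (j : ℝ) - i = ((j % b : ℕ) : ℝ) := by
        have : (j : ℝ) = i + ((j % b : ℕ) : ℝ) := by exact_mod_cast hdm.symm
        linarith
      have hji' : (j : ℝ) - i ≤ b := by
        rw [hijR]; exact_mod_cast hmod.le
      have hiK : i < K := lt_of_le_of_lt hij hj
      have g1 : γ * K ≤ i := by linarith
      have hi1 : 0 < i := by
        have : (0 : ℝ) < i := lt_of_lt_of_le (by positivity) g1
        exact_mod_cast this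
      have hjKR : (j : ℝ) ≤ K := by exact_mod_cast hj.le
      have hiKR : (i : ℝ) ≤ K := by exact_mod_cast hiK.le
      have a1 := hXa i hi1 (hκL.trans g1) (hiKR.trans hKκ₁) (2 * i) w hw0.le
      have a1' : oddCount X (fun n => bA w n i) ≤ (3 * (ε₀ / 16)) * X := by
        refine le_trans a1 ?_
        gcongr
        exact (mid_bdA hη0 hγ0 hγ1 hK0 g1).trans hmid
      have a3 := hXc i j hij (hκL.trans g1) (by linarith) (hjKR.trans hKκ₁) w hw0
      have a3' : oddCount X (fun n => w ≤ |(S n j : ℝ) - S n i - 2 * ((j : ℝ) - i)|) ≤ (ε₀ / 32 + ε₀ / 16) * X := by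
        refine le_trans a3 ?_
        have : ((j : ℝ) - i) / w ^ 2 ≤ ε₀ / 32 := by
          refine le_trans ?_ hq2
          gcongr
        gcongr
      have a4 : oddCount X (fun n => misA b n j) ≤
          oddCount X (fun n => bA w n i ∨ w ≤ |(S n j : ℝ) - S n i - 2 * ((j : ℝ) - i)|) := by
        apply oc_mono
        intro n _ _ hn
        by_contra hcon
        rw [not_or] at hcon
        exact hn (same_signA hcon.1 hcon.2)
      have a5 := oc_or X (fun n => bA w n i) (fun n => w ≤ |(S n j : ℝ) - S n i - 2 * ((j : ℝ) - i)|)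
      have h4 : oddCount X (fun n => misA b n j) ≤ ε₀ / 2 * X := by
        have : 0 ≤ ε₀ * X := by positivity
        linarith
      refine h4.trans ?_
      have h5 : ε₀ / 2 ≤ (if (j : ℝ) < γ * K + b then (1 : ℝ) else 0) +
        (if ((j % b : ℕ) : ℝ) < κ₁ * Real.log X then (1 : ℝ) else 0) + ε₀ / 2 := by linarith
      exact mul_le_mul_of_nonneg_right h5 hX0
  refine (Finset.sum_le_sum hterm).trans ?_
  rw [← Finset.sum_mul, Finset.sum_add_distrib, Finset.sum_add_distrib, Finset.sum_const,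
    Finset.card_range, nsmul_eq_mul]
  have c1 := cnt_lt K (show 0 ≤ γ * (K : ℝ) + b by positivity)
  have c3 := cnt_mod r hb (show 0 ≤ κ₁ * Real.log X by positivity)
  rw [← hKdef] at c3
  rw [Finset.card_filter] at c1 c3
  push_cast at c1 c3
  have d1 : (b : ℝ) ≤ ε₀ / 16 * K := by
    rw [div_le_iff₀ h0] at hra
    rw [hKrb]
    have := mul_le_mul_of_nonneg_right hra hbR.le
    linarith
  have d2 : (r : ℝ) * (κ₁ * Real.log X) ≤ ε₀ / 16 * K := by
    have e1 : (r : ℝ) * κ₁ ≤ ε₀ / 16 := by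
      rw [le_div_iff₀ (by positivity)] at hκr
      linarith
    calc (r : ℝ) * (κ₁ * Real.log X) = (r * κ₁) * Real.log X := by ring
      _ ≤ (ε₀ / 16) * K := by
        apply mul_le_mul e1 hLK (by linarith) (by positivity)
  have d3 : (r : ℝ) + 2 ≤ ε₀ / 4 * K := by
    have : (4 * r + 8) / ε₀ ≤ K := hL3.trans hLK
    rw [div_le_iff₀ h0] at this
    linarith
  have d4 : γ * K = ε₀ / 16 * K := by rw [hγ]
  apply mul_le_mul_of_nonneg_right _ hX0
  linarith

end Pool.Agent.H55.AL
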