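import Pool.Agent.H55.AL.A4
import Pool.Agent.H55.UL.Joint

/-!
# The arcsine law for the block endpoints in the model
-/

set_option autoImplicit false

namespace Pool.Agent.H55.AL

open MeasureTheory ProbabilityTheory Filter Topology Finset
open Pool.Agent.H499R2.ND.TJ (PP geo)
open Pool.Agent.H55.UL (bs bs_short cheb card_div cnt_lt)

/-- the place `j` and the endpoint of its block are on different sides of the mean line -/
def misM (b : ℕ) (ω : ℕ → ℕ) (j : ℕ) : Prop := ¬ (0 < Zw ω j ↔ 0 < Zw ω (j / b * b))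

theorem misM_dep (b j : ℕ) : Dep j {ω | misM b ω j} := by
  intro ω ω' h
  simp only [Set.mem_ofPred_eq, misM]
  have h1 : Zw ω j = Zw ω' j := Zw_congr h
  have h2 : Zw ω (j / b * b) = Zw ω' (j / b * b) :=
    Zw_congr fun i hi => h i (lt_of_lt_of_le hi (Nat.div_mul_le_self j b))
  rw [h1, h2]

open Classical in
theorem markovM (K : ℕ) (A : ℕ → Set (ℕ → ℕ)) (hA : ∀ j, MeasurableSet (A j)) {c : ℝ} :
    c * PP.real {ω | c ≤ (((range K).filter fun j => ω ∈ A j).card : ℝ)} ≤ ∑ j ∈ range K, PP.real (A j) := by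
  have e : ∀ ω, (((range K).filter fun j => ω ∈ A j).card : ℝ) = ∑ j ∈ range K, (A j).indicator (fun _ => (1 : ℝ)) ω := by
    intro ω
    rw [Finset.card_filter]
    push_cast
    apply Finset.sum_congr rfl
    intro j _
    by_cases h : ω ∈ A j
    · rw [if_pos h, Set.indicator_of_mem h]
    · rw [if_neg h, Set.indicator_of_notMem h]
  have hi : ∀ j ∈ range K, Integrable (fun ω => (A j).indicator (fun _ => (1 : ℝ)) ω) PP := fun j _ =>
    (integrable_const _).indicator (hA j)
  have h1 := mul_meas_ge_le_integral_of_nonneg (μ := PP)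
    (f := fun ω => ∑ j ∈ range K, (A j).indicator (fun _ => (1 : ℝ)) ω)
    (Filter.Eventually.of_forall fun ω => Finset.sum_nonneg fun j _ => Set.indicator_nonneg (fun _ _ => zero_le_one) ω)
    (integrable_finsetSum _ hi) c
  rw [integral_finsetSum _ hi] at h1
  simp only [e]
  refine h1.trans (le_of_eq ?_)
  apply Finset.sum_congr rfl
  intro j _
  rw [integral_indicator_const _ (hA j)]
  simp

theorem misM_sub {w : ℝ} {ω : ℕ → ℕ} {i j b : ℕ} (hi : i = j / b * b) (h : misM b ω j) :
    (|(bs (range i) ω : ℝ) - 2 * i| ≤ w) ∨ (w ≤ |(bs (Ico i j) ω : ℝ) - 2 * (Ico i j).card|) := by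
  unfold misM at h
  rw [← hi] at h
  have hij : i ≤ j := by rw [hi]; exact Nat.div_mul_le_self j b
  by_contra hcon
  rw [not_or, not_le, not_le] at hcon
  obtain ⟨h1, h2⟩ := hcon
  apply h
  have e1 : ∀ q : ℕ, (0 < Zw ω q ↔ (bs (range q) ω : ℝ) - 2 * q < 0) := by
    intro q
    unfold Zw
    rw [sub_pos, sub_neg]
    constructor
    · intro h; exact_mod_cast h
    · intro h; exact_mod_cast h
  have e2 : (bs (range j) ω : ℝ) = bs (range i) ω + bs (Ico i j) ω := by
    unfold bs
    rw [← Finset.sum_range_add_sum_Ico _ hij]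
    push_cast
    ring
  rw [Nat.card_Ico, Nat.cast_sub hij] at h2
  rw [e1, e1, e2]
  have h4 := abs_lt.1 h2
  rcases lt_or_ge ((bs (range i) ω : ℝ) - 2 * i) 0 with h5 | h5
  · rw [abs_of_neg h5] at h1
    constructor
    · intro _; exact h5
    · intro _; linarith [h4.2]
  · rw [abs_of_nonneg h5] at h1
    constructor
    · intro h; linarith [h4.1]
    · intro h; linarith

theorem mis_model {ε₀ : ℝ} (h0 : 0 < ε₀) (h01 : ε₀ ≤ 1) : ∃ r₀ : ℕ, ∀ r : ℕ, r₀ ≤ r → 0 < r →
    ∀ᶠ b : ℕ in atTop, ∑ j ∈ range (r * b), PP.real {ω | misM b ω j} ≤ ε₀ * (r * b : ℕ) := by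
  set γ : ℝ := ε₀ / 16 with hγ
  have hγ0 : 0 < γ := by positivity
  have hγ1 : γ ≤ 1 := by rw [hγ]; linarith
  set η : ℝ := ε₀ * γ / 16 with hη
  have hη0 : 0 < η := by positivity
  refine ⟨⌈16 / ε₀⌉₊ + ⌈128 / (ε₀ * η ^ 2)⌉₊, fun r hr hrpos => ?_⟩
  have hrR : (0 : ℝ) < r := by exact_mod_cast hrpos
  have hr1 : (1 : ℝ) ≤ r := by exact_mod_cast hrpos
  have hra : 16 / ε₀ ≤ r := by
    have h1 := Nat.le_ceil (16 / ε₀)
    have h2 : (⌈16 / ε₀⌉₊ : ℝ) ≤ r := by exact_mod_cast (le_trans (Nat.le_add_right _ _) hr)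
    linarith
  have hrb : 128 / (ε₀ * η ^ 2) ≤ r := by
    have h1 := Nat.le_ceil (128 / (ε₀ * η ^ 2))
    have h2 : (⌈128 / (ε₀ * η ^ 2)⌉₊ : ℝ) ≤ r := by exact_mod_cast (le_trans (Nat.le_add_left _ _) hr)
    linarith
  obtain ⟨N₁, hN₁⟩ := exists_nat_gt ((16 / (γ * ε₀)) ^ 2)
  obtain ⟨N₂, hN₂⟩ := exists_nat_gt (16 / ε₀)
  filter_upwards [eventually_ge_atTop (max 1 (max N₁ N₂))] with b hb'
  have hb : 0 < b := lt_of_lt_of_le one_pos ((le_max_left _ _).trans hb')
  have hb1 : N₁ ≤ b := (le_max_left _ _).trans ((le_max_right _ _).trans hb')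
  have hb2 : N₂ ≤ b := (le_max_right _ _).trans ((le_max_right _ _).trans hb')
  set K := r * b with hKdef
  have hK0 : 0 < K := Nat.mul_pos hrpos hb
  have hKR : (0 : ℝ) < K := by exact_mod_cast hK0
  have hKrb : (K : ℝ) = r * b := by rw [hKdef]; push_cast; ring
  have hbR : (0 : ℝ) < b := by exact_mod_cast hb
  have hbK : (b : ℝ) ≤ K := by
    rw [hKrb]
    nlinarith
  have hs0 : 0 < Real.sqrt K := Real.sqrt_pos.2 hKR
  have hsq : Real.sqrt K ^ 2 = K := Real.sq_sqrt hKR.le
  have hsm : 1 / (γ * Real.sqrt K) ≤ ε₀ / 16 := by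
    have h3 : 16 / (γ * ε₀) ≤ Real.sqrt K := by
      apply Real.le_sqrt_of_sq_le
      have h1 : (N₁ : ℝ) ≤ b := by exact_mod_cast hb1
      linarith
    rw [div_le_iff₀ (by positivity)] at h3
    rw [div_le_iff₀ (by positivity)]
    linarith
  set w := η * Real.sqrt K with hw
  have hw0 : 0 < w := by positivity
  have hq2 : 2 * (b : ℝ) / w ^ 2 ≤ ε₀ / 32 := by
    have e1 : 2 * (b : ℝ) / w ^ 2 = 2 / (r * η ^ 2) := by
      rw [hw, div_eq_div_iff (by positivity) (by positivity)]
      have : (η * Real.sqrt K) ^ 2 = η ^ 2 * (Real.sqrt K ^ 2) := by ring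
      rw [this, hsq, hKrb]
      ring
    rw [e1, div_le_div_iff₀ (by positivity) (by norm_num)]
    rw [div_le_iff₀ (by positivity)] at hrb
    linarith
  have hterm : ∀ j ∈ range K, PP.real {ω | misM b ω j} ≤
      (if (j : ℝ) < γ * K + b then (1 : ℝ) else 0) + ε₀ / 2 := by
    intro j hj
    rw [Finset.mem_range] at hj
    by_cases h1 : (j : ℝ) < γ * K + b
    · rw [if_pos h1]
      have : PP.real {ω | misM b ω j} ≤ 1 := measureReal_le_one
      linarith
    · rw [if_neg h1, zero_add]
      push Not at h1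
      set i := j / b * b with hi
      have hdm : i + j % b = j := by rw [hi, mul_comm]; exact Nat.div_add_mod j b
      have hmod : j % b < b := Nat.mod_lt j hb
      have hij : i ≤ j := by omega
      have hijR : (j : ℝ) - i = ((j % b : ℕ) : ℝ) := by
        have : (j : ℝ) = i + ((j % b : ℕ) : ℝ) := by exact_mod_cast hdm.symm
        linarith
      have hji' : (j : ℝ) - i ≤ b := by
        rw [hijR]; exact_mod_cast hmod.le
      have g1 : γ * K ≤ i := by linarith
      have hi1 : 0 < i := by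
        have : (0 : ℝ) < i := lt_of_lt_of_le (by positivity) g1
        exact_mod_cast this
      have a1 := bs_short (s := range i) (by rw [Finset.nonempty_range_iff]; omega) {s : ℕ | |(s : ℝ) - 2 * i| ≤ w}
        (l := 2 * w) (by linarith) (by
          intro a ha b hb
          rw [Set.mem_ofPred_eq, abs_le] at ha hb
          linarith [ha.1, hb.2])
      rw [Finset.card_range] at a1
      have a1' : (2 * w + 1) / Real.sqrt i ≤ ε₀ / 8 + ε₀ / 16 := by
        have h4 : γ * Real.sqrt K ≤ Real.sqrt i := by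
          rw [← Real.sqrt_sq hγ0.le, ← Real.sqrt_mul (by positivity)]
          apply Real.sqrt_le_sqrt
          have : γ ^ 2 * K ≤ γ * K := by
            have : γ ^ 2 ≤ γ := by nlinarith
            gcongr
          linarith
        have h5 : (2 * w + 1) / Real.sqrt i ≤ (2 * w + 1) / (γ * Real.sqrt K) := by gcongr
        have h6 : (2 * w + 1) / (γ * Real.sqrt K) = 2 * η / γ + 1 / (γ * Real.sqrt K) := by
          rw [hw]; field_simp
        have h7 : 2 * η / γ = ε₀ / 8 := by rw [hη]; field_simp; norm_num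
        linarith
      have a2 := cheb (Ico i j) hw0
      have a2' : 2 * ((Ico i j).card : ℝ) / w ^ 2 ≤ ε₀ / 32 := by
        refine le_trans ?_ hq2
        rw [Nat.card_Ico, Nat.cast_sub hij]
        gcongr
      have a3 : PP.real {ω | misM b ω j} ≤ PP.real ({ω | bs (range i) ω ∈ {s : ℕ | |(s : ℝ) - 2 * i| ≤ w}} ∪
          {ω | w ≤ |(bs (Ico i j) ω : ℝ) - 2 * (Ico i j).card|}) := by
        apply measureReal_mono _ (measure_ne_top _ _)
        intro ω hω
        exact misM_sub hi hω
      have a4 := measureReal_union_le (μ := PP) {ω | bs (range i) ω ∈ {s : ℕ | |(s : ℝ) - 2 * i| ≤ w}}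
          {ω | w ≤ |(bs (Ico i j) ω : ℝ) - 2 * (Ico i j).card|}
      linarith
  refine (Finset.sum_le_sum hterm).trans ?_
  rw [Finset.sum_add_distrib, Finset.sum_const, Finset.card_range, nsmul_eq_mul]
  have c1 := cnt_lt K (show 0 ≤ γ * (K : ℝ) + b by positivity)
  rw [Finset.card_filter] at c1
  push_cast at c1
  have d1 : (b : ℝ) ≤ ε₀ / 16 * K := by
    rw [div_le_iff₀ h0] at hra
    rw [hKrb]
    have := mul_le_mul_of_nonneg_right hra hbR.le
    linarith
  have d3 : (1 : ℝ) ≤ ε₀ / 16 * K := by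
    have h1 : (N₂ : ℝ) ≤ b := by exact_mod_cast hb2
    have : 16 / ε₀ ≤ K := by linarith
    rw [div_le_iff₀ h0] at this
    linarith
  have d4 : γ * K = ε₀ / 16 * K := by rw [hγ]
  have d5 : 0 ≤ ε₀ * K := by positivity
  linarith

/-- the number of the block endpoints above the mean line -/
def cM (r b : ℕ) (ω : ℕ → ℕ) : ℕ := ((range r).filter fun i => 0 < Zw ω (i * b)).card

open Classical in
theorem cM_cmp {r b : ℕ} (hb : 0 < b) (ω : ℕ → ℕ) :
    b * cM r b ω ≤ Np (r * b) ω + ((range (r * b)).filter fun j => ω ∈ {ω | misM b ω j}).card ∧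
    Np (r * b) ω ≤ b * cM r b ω + ((range (r * b)).filter fun j => ω ∈ {ω | misM b ω j}).card + 1 := by
  have h1 : ((range (r * b)).filter fun j => 0 < Zw ω (j / b * b)).card = b * cM r b ω :=
    card_div (fun i => 0 < Zw ω (i * b)) r hb
  have h2 : ((range (r * b)).filter fun j => 0 < Zw ω j).card ≤ Np (r * b) ω := by
    unfold Np
    apply Finset.card_le_card_of_injOn (fun j => j - 1)
    · intro j hj
      rw [Finset.mem_coe, Finset.mem_filter, Finset.mem_range] at hj
      rw [Finset.mem_coe, Finset.mem_filter, Finset.mem_range]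
      have hj1 : 1 ≤ j := by
        rcases Nat.eq_zero_or_pos j with h | h
        · rw [h, Zw_zero] at hj
          exact absurd hj.2 (lt_irrefl _)
        · exact h
      refine ⟨by show j - 1 < r * b; omega, ?_⟩
      show 0 < Zw ω (j - 1 + 1)
      rw [Nat.sub_add_cancel hj1]
      exact hj.2
    · intro i hi j hj h
      rw [Finset.mem_coe, Finset.mem_filter, Finset.mem_range] at hi hj
      have hj1 : 1 ≤ j := by
        rcases Nat.eq_zero_or_pos j with h | h
        · rw [h, Zw_zero] at hj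
          exact absurd hj.2 (lt_irrefl _)
        · exact h
      have hi1 : 1 ≤ i := by
        rcases Nat.eq_zero_or_pos i with h | h
        · rw [h, Zw_zero] at hi
          exact absurd hi.2 (lt_irrefl _)
        · exact h
      simp only at h
      omega
  have h3 : Np (r * b) ω ≤ ((range (r * b)).filter fun j => 0 < Zw ω j).card + 1 := by
    have h4 : Np (r * b) ω ≤ (((range (r * b)).filter fun j => 0 < Zw ω j) ∪ {r * b}).card := by
      unfold Np
      apply Finset.card_le_card_of_injOn (fun j => j + 1)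
      · intro j hj
        rw [Finset.mem_coe, Finset.mem_filter, Finset.mem_range] at hj
        rw [Finset.mem_coe, Finset.mem_union, Finset.mem_filter, Finset.mem_range, Finset.mem_singleton]
        rcases Nat.lt_or_ge (j + 1) (r * b) with h | h
        · exact Or.inl ⟨h, hj.2⟩
        · exact Or.inr (by show j + 1 = r * b; omega)
      · intro i _ j _ h
        exact Nat.succ_injective h
    refine h4.trans ((Finset.card_union_le _ _).trans ?_)
    rw [Finset.card_singleton]
  have h5 : ((range (r * b)).filter fun j => 0 < Zw ω (j / b * b)).card ≤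
      ((range (r * b)).filter fun j => 0 < Zw ω j).card + ((range (r * b)).filter fun j => ω ∈ {ω | misM b ω j}).card := by
    refine (Finset.card_le_card ?_).trans (Finset.card_union_le _ _)
    intro j hj
    rw [Finset.mem_filter] at hj
    rw [Finset.mem_union, Finset.mem_filter, Finset.mem_filter]
    by_cases h : 0 < Zw ω j
    · exact Or.inl ⟨hj.1, h⟩
    · refine Or.inr ⟨hj.1, ?_⟩
      show ¬ (0 < Zw ω j ↔ 0 < Zw ω (j / b * b))
      tauto
  have h6 : ((range (r * b)).filter fun j => 0 < Zw ω j).card ≤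
      ((range (r * b)).filter fun j => 0 < Zw ω (j / b * b)).card +
        ((range (r * b)).filter fun j => ω ∈ {ω | misM b ω j}).card := by
    refine (Finset.card_le_card ?_).trans (Finset.card_union_le _ _)
    intro j hj
    rw [Finset.mem_filter] at hj
    rw [Finset.mem_union, Finset.mem_filter, Finset.mem_filter]
    by_cases h : 0 < Zw ω (j / b * b)
    · exact Or.inl ⟨hj.1, h⟩
    · refine Or.inr ⟨hj.1, ?_⟩
      show ¬ (0 < Zw ω j ↔ 0 < Zw ω (j / b * b))
      tauto
  omega

/-- the arcsine law for the block endpoints -/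
theorem model_blocks {ε : ℝ} (hε : 0 < ε) : ∃ r₀ : ℕ, ∀ r : ℕ, r₀ ≤ r → 0 < r →
    ∀ᶠ b : ℕ in atTop, ∀ y : ℝ, 0 ≤ y → y ≤ 1 →
      |PP.real {ω | (cM r b ω : ℝ) ≤ y * r} - AF y| ≤ ε := by
  classical
  obtain ⟨d, hd, hAF⟩ := AF_unif (show 0 < ε / 4 by positivity)
  set e : ℝ := min (min (ε / 4) (d / 4)) (1 / 2) with he
  have he0 : 0 < e := by rw [he]; positivity
  have heε : e ≤ ε / 4 := (min_le_left _ _).trans (min_le_left _ _)
  have hed : e ≤ d / 4 := (min_le_left _ _).trans (min_le_right _ _)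
  have he2 : e ≤ 1 / 2 := min_le_right _ _
  have hee : e ^ 2 ≤ 1 := by nlinarith
  obtain ⟨r₀, hr₀⟩ := mis_model (ε₀ := e ^ 2) (by positivity) hee
  refine ⟨r₀, fun r hr hrpos => ?_⟩
  have hrR : (0 : ℝ) < r := by exact_mod_cast hrpos
  have hKt : Tendsto (fun b : ℕ => r * b) atTop atTop :=
    tendsto_id.const_mul_atTop' hrpos
  obtain ⟨N₁, hN₁⟩ := exists_nat_gt (1 / e)
  filter_upwards [hr₀ r hr hrpos, hKt.eventually (model_arc (show 0 < ε / 4 by positivity)),
    eventually_ge_atTop (max 1 N₁)] with b hmis harc hb' y hy0 hy1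
  have hb : 0 < b := lt_of_lt_of_le one_pos ((le_max_left _ _).trans hb')
  have hb1 : N₁ ≤ b := (le_max_right _ _).trans hb'
  set K := r * b with hKdef
  have hK0 : 0 < K := Nat.mul_pos hrpos hb
  have hKR : (0 : ℝ) < K := by exact_mod_cast hK0
  have hKrb : (K : ℝ) = r * b := by rw [hKdef]; push_cast; ring
  have hbR : (0 : ℝ) < b := by exact_mod_cast hb
  have hr1 : (1 : ℝ) ≤ r := by exact_mod_cast hrpos
  have h1K : 1 ≤ e * K := by
    have h1 : (N₁ : ℝ) ≤ b := by exact_mod_cast hb1
    have h2 : (b : ℝ) ≤ K := by rw [hKrb]; nlinarith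
    have h3 : 1 / e ≤ K := by linarith
    rw [div_le_iff₀ he0] at h3
    linarith
  set Bd : Set (ℕ → ℕ) := {ω | e * K ≤ (((range K).filter fun j => ω ∈ {ω | misM b ω j}).card : ℝ)} with hBd
  have hB : PP.real Bd ≤ e := by
    have h1 := markovM K (fun j => {ω | misM b ω j}) (fun j => dep_meas (misM_dep b j)) (c := e * K)
    have h2 : e * K * PP.real Bd ≤ e * K * e := by
      refine (h1.trans hmis).trans (le_of_eq ?_)
      ring
    exact le_of_mul_le_mul_left h2 (by positivity)
  have hcmp : ∀ ω, ω ∉ Bd → (b : ℝ) * cM r b ω ≤ Np K ω + e * K ∧ (Np K ω : ℝ) ≤ b * cM r b ω + 2 * e * K := by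
    intro ω hω
    rw [hBd, Set.mem_ofPred_eq, not_le] at hω
    obtain ⟨h1, h2⟩ := cM_cmp (r := r) hb ω
    have h1' : (b : ℝ) * cM r b ω ≤ Np K ω + (((range K).filter fun j => ω ∈ {ω | misM b ω j}).card : ℝ) := by
      exact_mod_cast h1
    have h2' : (Np K ω : ℝ) ≤ b * cM r b ω + (((range K).filter fun j => ω ∈ {ω | misM b ω j}).card : ℝ) + 1 := by
      exact_mod_cast h2
    constructor <;> linarith
  -- upper bound
  have U : PP.real {ω | (cM r b ω : ℝ) ≤ y * r} ≤ AF y + ε := by
    set y' := min 1 (y + 2 * e) with hy'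
    have hy'0 : 0 ≤ y' := by rw [hy']; positivity
    have hy'1 : y' ≤ 1 := min_le_left _ _
    have h1 : PP.real {ω | (cM r b ω : ℝ) ≤ y * r} ≤ PP.real ({ω | (Np K ω : ℝ) ≤ y' * K} ∪ Bd) := by
      apply measureReal_mono _ (measure_ne_top _ _)
      intro ω hω
      rw [Set.mem_ofPred_eq] at hω
      by_cases hB : ω ∈ Bd
      · exact Or.inr hB
      · left
        rw [Set.mem_ofPred_eq]
        have h2 := (hcmp ω hB).2
        have h3 : (b : ℝ) * cM r b ω ≤ b * (y * r) := mul_le_mul_of_nonneg_left hω hbR.le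
        have h4 : (Np K ω : ℝ) ≤ (y + 2 * e) * K := by
          rw [hKrb] at h2 ⊢
          linarith
        have h5 : (Np K ω : ℝ) ≤ 1 * K := by
          rw [one_mul]
          exact_mod_cast Np_le K ω
        rw [hy']
        rcases min_choice 1 (y + 2 * e) with h | h
        · rw [h]; exact h5
        · rw [h]; exact h4
    have h2 := measureReal_union_le (μ := PP) {ω | (Np K ω : ℝ) ≤ y' * K} Bd
    have h3 := (abs_le.1 (harc y' hy'0 hy'1)).2
    have h4 := hAF y' y hy'0 hy'1 hy0 hy1 (by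
      rw [abs_lt]
      have h5 : y' ≤ y + 2 * e := min_le_right _ _
      have h6 : y ≤ y' := le_min hy1 (by linarith)
      constructor <;> linarith)
    have h5 := (abs_lt.1 h4).2
    linarith
  -- lower bound
  have Lw : AF y - ε ≤ PP.real {ω | (cM r b ω : ℝ) ≤ y * r} := by
    rcases lt_or_ge y (2 * e) with hlt | hge
    · have h4 := hAF y 0 hy0 hy1 le_rfl zero_le_one (by
        rw [sub_zero, abs_of_nonneg hy0]
        linarith)
      rw [AF_zero, sub_zero] at h4
      have h5 := (abs_lt.1 h4).2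
      have h6 : 0 ≤ PP.real {ω | (cM r b ω : ℝ) ≤ y * r} := measureReal_nonneg
      linarith
    · set y' := y - 2 * e with hy'
      have hy'0 : 0 ≤ y' := by linarith
      have hy'1 : y' ≤ 1 := by linarith
      have h1 : PP.real {ω | (Np K ω : ℝ) ≤ y' * K} ≤ PP.real ({ω | (cM r b ω : ℝ) ≤ y * r} ∪ Bd) := by
        apply measureReal_mono _ (measure_ne_top _ _)
        intro ω hω
        rw [Set.mem_ofPred_eq] at hω
        by_cases hB : ω ∈ Bd
        · exact Or.inr hB
        · left
          rw [Set.mem_ofPred_eq]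
          have h2 := (hcmp ω hB).1
          have h3 : (b : ℝ) * cM r b ω ≤ b * (y * r) := by
            have h4 : (b : ℝ) * cM r b ω ≤ (y - e) * K := by linarith
            have h5 : (y - e) * K ≤ y * K := mul_le_mul_of_nonneg_right (by linarith) hKR.le
            have h6 : y * (K : ℝ) = b * (y * r) := by rw [hKrb]; ring
            linarith
          exact le_of_mul_le_mul_left h3 hbR
      have h2 := measureReal_union_le (μ := PP) {ω | (cM r b ω : ℝ) ≤ y * r} Bd
      have h3 := (abs_le.1 (harc y' hy'0 hy'1)).1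
      have h4 := hAF y' y hy'0 hy'1 hy0 hy1 (by
        rw [abs_lt]
        constructor <;> linarith)
      have h5 := (abs_lt.1 h4).1
      linarith
  rw [abs_le]
  constructor <;> linarith

end Pool.Agent.H55.AL
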