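import Pool.Agent.H55.AL.A5
import Pool.Agent.H55.AL.A6

/-!
# Typical trajectories and the mean line
-/

set_option autoImplicit false

namespace Pool.Agent.H55.AL

open Filter Topology Finset
open Pool.Agent.Results.MP_f7abf1_nt.BlockLaw (T Syr wait bound oddCount)
open Pool.Agent.H55.UL

/-- the term number `k` is above the mean line -/
def Cond (n k : ℕ) : Prop := (n : ℝ) * (3 / 4 : ℝ) ^ ((k : ℝ) / 2) < (T^[k] n : ℕ)

theorem cond_iff {n : ℕ} (hn : 1 ≤ n) (k : ℕ) :
    Cond n k ↔ (k : ℝ) < 2 * O n k + 2 * er n k / Real.log 3 := by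
  have hnR : (0 : ℝ) < n := by exact_mod_cast hn
  have hp : (0 : ℝ) < (T^[k] n : ℕ) := by exact_mod_cast Ti_pos hn k
  have h3 : 0 < Real.log 3 := by linarith [one_lt_log3]
  have h2 : Real.log (T^[k] n : ℕ) = er n k + Real.log n + O n k * Real.log 3 - k * Real.log 2 := by
    unfold er
    ring
  have h34 : Real.log (3 / 4) = Real.log 3 - 2 * Real.log 2 := by
    rw [Real.log_div (by norm_num) (by norm_num), show (4 : ℝ) = 2 ^ 2 by norm_num, Real.log_pow]
    norm_num
  unfold Cond
  rw [← Real.log_lt_log_iff (by positivity) hp, Real.log_mul hnR.ne' (by positivity),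
    Real.log_rpow (by norm_num), h2, h34]
  have e : 2 * (O n k : ℝ) + 2 * er n k / Real.log 3 - k =
      2 / Real.log 3 * ((er n k + Real.log n + O n k * Real.log 3 - k * Real.log 2) -
        (Real.log n + (k : ℝ) / 2 * (Real.log 3 - 2 * Real.log 2))) := by
    field_simp
    ring
  rw [← sub_pos, ← sub_pos (a := 2 * (O n k : ℝ) + 2 * er n k / Real.log 3), e]
  constructor
  · intro h
    exact mul_pos (by positivity) h
  · intro h
    exact (mul_pos_iff_of_pos_left (by positivity)).1 h

theorem cond_imp {m v t h : ℕ} (hm : m % 2 = 1) (hh : er (2 ^ v * m) t ≤ h) {k : ℕ} (hk : k < t)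
    (hc : Cond (2 ^ v * m) k) (hj : h ≤ k / 2) : S m (k / 2 - h) < k := by
  have hn : 1 ≤ 2 ^ v * m := Nat.mul_pos (by positivity) (by omega)
  rw [cond_iff hn] at hc
  have h1 := er_mono hn hk.le
  have h2 := er_nonneg hn k
  have h4 := one_lt_log3
  have h5 : 2 * er (2 ^ v * m) k / Real.log 3 ≤ 2 * h := by
    rw [div_le_iff₀ (by linarith)]
    have : (0 : ℝ) ≤ h := Nat.cast_nonneg h
    nlinarith
  have h6 : (k : ℝ) < 2 * O (2 ^ v * m) k + 2 * h := by linarith
  have h7 : k < 2 * O (2 ^ v * m) k + 2 * h := by exact_mod_cast h6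
  have h8 : k / 2 - h < O (2 ^ v * m) k := by omega
  rw [lt_O' hm] at h8
  omega

theorem cond_of {m v k j : ℕ} (hm : m % 2 = 1) (h : S m j + v < k) (hk : k ≤ 2 * j + 1) : Cond (2 ^ v * m) k := by
  have hn : 1 ≤ 2 ^ v * m := Nat.mul_pos (by positivity) (by omega)
  rw [cond_iff hn]
  rw [← lt_O' hm] at h
  have h1 : (k : ℝ) < 2 * O (2 ^ v * m) k := by
    have : k < 2 * O (2 ^ v * m) k := by omega
    exact_mod_cast this
  have h2 := er_nonneg hn k
  have h4 := one_lt_log3
  have h3 : 0 ≤ 2 * er (2 ^ v * m) k / Real.log 3 := by positivity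
  linarith

open Classical in
theorem countA {m v t h K : ℕ} {w : ℝ} (hm : m % 2 = 1) (hh : er (2 ^ v * m) t ≤ h) (hw : 2 * (h : ℝ) ≤ w)
    (hv : (v : ℝ) ≤ w) :
    ((range t).filter (Cond (2 ^ v * m))).card ≤
      2 * (((range K).filter (sA m)).card + ((range K).filter (bA w m)).card) + 2 * h + (t - 2 * K) ∧
    2 * ((range K).filter (sA m)).card ≤ ((range t).filter (Cond (2 ^ v * m))).card +
      2 * ((range K).filter (bA w m)).card + (2 * K - t) := by
  constructor
  · have hsub : (range t).filter (Cond (2 ^ v * m)) ⊆ (range (2 * h) ∪ Ico (2 * (K + h)) t) ∪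
        (range t).filter (fun k => h ≤ k / 2 ∧ k / 2 - h < K ∧ (sA m (k / 2 - h) ∨ bA w m (k / 2 - h))) := by
      intro k hk
      rw [Finset.mem_filter, Finset.mem_range] at hk
      rw [Finset.mem_union, Finset.mem_union, Finset.mem_filter, Finset.mem_range, Finset.mem_Ico, Finset.mem_range]
      rcases Nat.lt_or_ge k (2 * h) with h1 | h1
      · exact Or.inl (Or.inl h1)
      rcases Nat.lt_or_ge k (2 * (K + h)) with h2 | h2
      · right
        refine ⟨hk.1, by omega, by omega, ?_⟩
        have h3 := cond_imp hm hh hk.1 hk.2 (by omega)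
        by_cases h4 : sA m (k / 2 - h)
        · exact Or.inl h4
        · right
          unfold sA at h4
          unfold bA
          rw [not_lt] at h4
          set j := k / 2 - h with hj
          have h5 : S m j ≤ 2 * j + 2 * h := by omega
          have h6 : (S m j : ℝ) ≤ 2 * j + 2 * h := by exact_mod_cast h5
          have h7 : (2 : ℝ) * j ≤ S m j := by exact_mod_cast h4
          rw [abs_le]
          constructor <;> linarith
      · exact Or.inl (Or.inr ⟨h2, hk.1⟩)
    have h1 : ((range t).filter (fun k => h ≤ k / 2 ∧ k / 2 - h < K ∧ (sA m (k / 2 - h) ∨ bA w m (k / 2 - h)))).card ≤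
        2 * (((range K).filter (sA m)).card + ((range K).filter (bA w m)).card) := by
      have h2 : ((range t).filter (fun k => h ≤ k / 2 ∧ k / 2 - h < K ∧ (sA m (k / 2 - h) ∨ bA w m (k / 2 - h)))).card ≤
          ((((range K).filter (sA m)) ∪ ((range K).filter (bA w m))) ×ˢ range 2).card := by
        apply Finset.card_le_card_of_injOn (fun k => (k / 2 - h, k % 2))
        · intro k hk
          rw [Finset.mem_coe, Finset.mem_filter] at hk
          obtain ⟨_, h3, h4, h5⟩ := hk
          rw [Finset.mem_coe, Finset.mem_product, Finset.mem_union, Finset.mem_filter, Finset.mem_filter,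
            Finset.mem_range, Finset.mem_range]
          refine ⟨?_, Nat.mod_lt _ (by norm_num)⟩
          rcases h5 with h5 | h5
          · exact Or.inl ⟨h4, h5⟩
          · exact Or.inr ⟨h4, h5⟩
        · intro i hi j hj hij
          rw [Finset.mem_coe, Finset.mem_filter] at hi hj
          simp only [Prod.mk.injEq] at hij
          omega
      rw [Finset.card_product, Finset.card_range] at h2
      have h3 := Finset.card_union_le ((range K).filter (sA m)) ((range K).filter (bA w m))
      omega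
    have h2 := Finset.card_le_card hsub
    have h3 := Finset.card_union_le (range (2 * h) ∪ Ico (2 * (K + h)) t)
      ((range t).filter (fun k => h ≤ k / 2 ∧ k / 2 - h < K ∧ (sA m (k / 2 - h) ∨ bA w m (k / 2 - h))))
    have h4 := Finset.card_union_le (range (2 * h)) (Ico (2 * (K + h)) t)
    rw [Finset.card_range, Nat.card_Ico] at h4
    omega
  · have h1 : ((range K).filter (sA m)).card ≤ ((range K).filter (fun j => sA m j ∧ ¬ bA w m j)).card +
        ((range K).filter (bA w m)).card := by
      refine (Finset.card_le_card ?_).trans (Finset.card_union_le _ _)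
      intro j hj
      rw [Finset.mem_filter] at hj
      rw [Finset.mem_union, Finset.mem_filter, Finset.mem_filter]
      by_cases h : bA w m j
      · exact Or.inr ⟨hj.1, h⟩
      · exact Or.inl ⟨hj.1, hj.2, h⟩
    have h2 : (((range K).filter (fun j => sA m j ∧ ¬ bA w m j)) ×ˢ range 2).card ≤
        (((range t).filter (Cond (2 ^ v * m))) ∪ Ico t (2 * K)).card := by
      apply Finset.card_le_card_of_injOn (fun p => 2 * p.1 + p.2)
      · intro p hp
        rw [Finset.mem_coe, Finset.mem_product, Finset.mem_filter, Finset.mem_range, Finset.mem_range] at hp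
        obtain ⟨⟨h3, h4, h5⟩, h6⟩ := hp
        rw [Finset.mem_coe, Finset.mem_union, Finset.mem_filter, Finset.mem_range, Finset.mem_Ico]
        show (2 * p.1 + p.2 < t ∧ Cond (2 ^ v * m) (2 * p.1 + p.2)) ∨ (t ≤ 2 * p.1 + p.2 ∧ 2 * p.1 + p.2 < 2 * K)
        rcases Nat.lt_or_ge (2 * p.1 + p.2) t with h7 | h7
        · left
          refine ⟨h7, cond_of (j := p.1) hm ?_ (by omega)⟩
          unfold sA at h4
          unfold bA at h5
          rw [not_le] at h5
          have h8 : (S m p.1 : ℝ) < 2 * p.1 := by exact_mod_cast h4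
          rw [abs_of_neg (by linarith)] at h5
          have h9 : (S m p.1 : ℝ) + v < 2 * p.1 := by linarith
          have h10 : S m p.1 + v < 2 * p.1 := by exact_mod_cast h9
          omega
        · exact Or.inr ⟨h7, by omega⟩
      · intro p hp q hq hpq
        simp only [Finset.coe_product, Set.mem_prod, Finset.mem_coe, Finset.mem_range] at hp hq
        simp only at hpq
        have h3 := hp.2
        have h4 := hq.2
        exact Prod.ext (by omega) (by omega)
    rw [Finset.card_product, Finset.card_range] at h2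
    have h3 := Finset.card_union_le ((range t).filter (Cond (2 ^ v * m))) (Ico t (2 * K))
    rw [Nat.card_Ico] at h3
    omega

open Classical in
theorem good_impA {M Z η ε : ℝ} (hM : 0 < M) (hZ : 0 < Z) (hη : 0 < η) (hε : 0 < ε) (hε1 : ε ≤ 1) :
    ∃ κ₀ : ℝ, 0 < κ₀ ∧ κ₀ ≤ 1 / 2 ∧ ∀ κ : ℝ, 0 < κ → κ ≤ κ₀ → ∀ v r : ℕ, ∀ᶠ X : ℕ in atTop, ∀ K : ℕ,
      (1 - κ) * Real.log X / Real.log (4 / 3) - r ≤ K →
      ∀ m : ℕ, m ≤ X → m % 2 = 1 → Good M Z K m → ∃ t : ℕ, 0 < t ∧ IsT (2 ^ v * m) t ∧
        |(t : ℝ) - 2 * K| ≤ ε * K ∧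
        (((range t).filter (Cond (2 ^ v * m))).card : ℝ) ≤
          2 * ((range K).filter (sA m)).card + 2 * ((range K).filter (bA (η * Real.sqrt K) m)).card + ε * K ∧
        2 * (((range K).filter (sA m)).card : ℝ) ≤
          ((range t).filter (Cond (2 ^ v * m))).card + 2 * ((range K).filter (bA (η * Real.sqrt K) m)).card
            + ε * K := by
  obtain ⟨κ₀, h1, h2, h3⟩ := good_imp hM hZ hη (show 0 < ε / 4 by positivity) (show ε / 4 ≤ 1 by linarith)
  refine ⟨κ₀, h1, h2, fun κ hκ hκκ v r => ?_⟩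
  have k1 : κ ≤ 1 / 2 := hκκ.trans h2
  obtain ⟨K₁, hK₁⟩ := eventually_atTop.1 (slow (8 : ℝ) (show (0 : ℝ) < ε / 4 by positivity))
  obtain ⟨K₂, hK₂⟩ := eventually_atTop.1 (slow ((v : ℝ) + 8) hη)
  filter_upwards [h3 κ hκ hκκ v r, log_tendsto.eventually_ge_atTop (max (max K₁ K₂) (max (2 * r) 1))]
    with X hX hL K hK m hmX hm hG
  have hX1 : K₁ ≤ Real.log X := ((le_max_left _ _).trans (le_max_left _ _)).trans hL
  have hX2 : K₂ ≤ Real.log X := ((le_max_right _ _).trans (le_max_left _ _)).trans hL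
  have hX6 : 2 * (r : ℝ) ≤ Real.log X := ((le_max_left _ _).trans (le_max_right _ _)).trans hL
  have hX7 : 1 ≤ Real.log X := ((le_max_right _ _).trans (le_max_right _ _)).trans hL
  have hlo := log43_lo
  have hhi := log43_hi
  have hlpos : 0 < Real.log (4 / 3) := by linarith
  have hLK : Real.log X ≤ K := by
    have h1 : 3 / 2 * Real.log X ≤ (1 - κ) * Real.log X / Real.log (4 / 3) := by
      rw [le_div_iff₀ hlpos]
      have q1 := mul_le_mul_of_nonneg_left hhi (show (0 : ℝ) ≤ Real.log X by linarith)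
      have q2 := mul_le_mul_of_nonneg_right k1 (show (0 : ℝ) ≤ Real.log X by linarith)
      linarith
    linarith
  have hKR1 : (1 : ℝ) ≤ K := hX7.trans hLK
  have hKR : (0 : ℝ) < K := by linarith
  obtain ⟨_, s11, s12⟩ := hK₁ K (hX1.trans hLK)
  obtain ⟨_, s21, s22⟩ := hK₂ K (hX2.trans hLK)
  have hsq1 : 1 ≤ Real.sqrt K := by rw [Real.one_le_sqrt]; exact hKR1
  have hsqK : Real.sqrt K * Real.sqrt K = K := Real.mul_self_sqrt hKR.le
  have hsqle : Real.sqrt K ≤ K := by
    have := mul_le_mul_of_nonneg_left hsq1 (Real.sqrt_nonneg (K : ℝ))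
    linarith
  have hlogK : 0 ≤ Real.log K := Real.log_nonneg hKR1
  obtain ⟨t, ht0, ht, ht2, _, _⟩ := hX K hK m hmX hm hG
  have hεK : 0 < ε * K := by positivity
  have ht3 : (t : ℝ) ≤ 3 * K := by
    have h4 := (abs_le.1 ht2).2
    have h5 : ε * (K : ℝ) ≤ 1 * K := mul_le_mul_of_nonneg_right hε1 hKR.le
    linarith
  set h := ⌈1 + Real.log t⌉₊ with hh
  have hlogt : Real.log t ≤ 2 + Real.log K := log_3K hKR1 (Nat.cast_nonneg _) ht3
  have hlogt0 : 0 ≤ Real.log t := Real.log_natCast_nonneg t
  have hn : 1 ≤ 2 ^ v * m := Nat.mul_pos (by positivity) (by omega)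
  have hhe : er (2 ^ v * m) t ≤ h := (er_bound hn ht).trans (Nat.le_ceil _)
  have hhu : (h : ℝ) ≤ 4 + Real.log K := by
    have := (Nat.ceil_lt_add_one (show 0 ≤ 1 + Real.log t by linarith)).le
    linarith
  have hv0 : (0 : ℝ) ≤ v := Nat.cast_nonneg v
  have hvl : 0 ≤ (v : ℝ) * Real.log K := mul_nonneg hv0 hlogK
  have hw1 : 2 * (h : ℝ) ≤ η * Real.sqrt K := by linarith
  have hw2 : (v : ℝ) ≤ η * Real.sqrt K := by linarith
  have h2h : 2 * (h : ℝ) ≤ ε / 4 * K := by
    have : ε / 4 * Real.sqrt K ≤ ε / 4 * K := by gcongr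
    linarith
  obtain ⟨c1, c2⟩ := countA (K := K) hm hhe hw1 hw2
  refine ⟨t, ht0, ht, ?_, ?_, ?_⟩
  · have : ε / 4 * (K : ℝ) ≤ ε * K := by linarith
    linarith
  · have c1' : (((range t).filter (Cond (2 ^ v * m))).card : ℝ) ≤
        2 * (((range K).filter (sA m)).card + ((range K).filter (bA (η * Real.sqrt K) m)).card) + 2 * h +
          ((t - 2 * K : ℕ) : ℝ) := by exact_mod_cast c1
    have h4 : ((t - 2 * K : ℕ) : ℝ) ≤ ε / 4 * K := by
      rcases le_total (2 * K) t with h5 | h5
      · rw [Nat.cast_sub h5]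
        push_cast
        exact (le_abs_self _).trans ht2
      · rw [Nat.sub_eq_zero_of_le h5]
        push_cast
        positivity
    linarith
  · have c2' : 2 * (((range K).filter (sA m)).card : ℝ) ≤ ((range t).filter (Cond (2 ^ v * m))).card +
      2 * ((range K).filter (bA (η * Real.sqrt K) m)).card + ((2 * K - t : ℕ) : ℝ) := by exact_mod_cast c2
    have h4 : ((2 * K - t : ℕ) : ℝ) ≤ ε / 4 * K := by
      rcases le_total t (2 * K) with h5 | h5
      · rw [Nat.cast_sub h5]
        push_cast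
        have := (neg_abs_le ((t : ℝ) - 2 * K))
        linarith
      · rw [Nat.sub_eq_zero_of_le h5]
        push_cast
        positivity
    linarith

end Pool.Agent.H55.AL
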