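import Pool.Agent.H55.AL.A4b
import Pool.Agent.H55.AL.A7

/-!
# Transfer of the arcsine law
-/

set_option autoImplicit false

namespace Pool.Agent.H55.AL

open MeasureTheory ProbabilityTheory Filter Topology Finset
open Pool.Agent.H499R2.ND.TJ (PP geo)
open Pool.Agent.Results.MP_f7abf1_nt.BlockLaw (T Syr wait blocks Admissible model prob oddCount HasDensity bound Phi)
open Pool.Agent.H55.UL

theorem cont_unif {Φ : ℝ → ℝ} (hΦ : Continuous Φ) {ε : ℝ} (hε : 0 < ε) : ∃ d : ℝ, 0 < d ∧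
    ∀ x y : ℝ, 0 ≤ x → x ≤ 1 → 0 ≤ y → y ≤ 1 → |x - y| < d → |Φ x - Φ y| < ε := by
  have h := (isCompact_Icc (a := (0 : ℝ)) (b := 1)).uniformContinuousOn_of_continuous hΦ.continuousOn
  rw [Metric.uniformContinuousOn_iff] at h
  obtain ⟨d, hd, h⟩ := h ε hε
  refine ⟨d, hd, fun x y h1 h2 h3 h4 h5 => ?_⟩
  exact h x ⟨h1, h2⟩ y ⟨h3, h4⟩ h5

/-- the limit law of the number of the positive values, with a condition on the last value -/
def Lim (F : ℕ → Set ℕ) (Φ : ℝ → ℝ) : Prop := ∀ ε : ℝ, 0 < ε → ∀ᶠ n : ℕ in atTop, ∀ y : ℝ, 0 ≤ y → y ≤ 1 →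
  |PP.real ({ω | (Np n ω : ℝ) ≤ y * n} ∩ {ω | bs (range n) ω ∈ F n}) - Φ y| ≤ ε

theorem Lim_AF : Lim (fun _ => Set.univ) AF := by
  intro ε hε
  filter_upwards [model_arc hε] with n hn y hy0 hy1
  simp only [Set.mem_univ]
  have : {ω : ℕ → ℕ | True} = Set.univ := by ext; simp
  rw [this, Set.inter_univ]
  exact hn y hy0 hy1

theorem Lim_JF : Lim (fun n => {s | s < 2 * n}) JF := by
  intro ε hε
  filter_upwards [model_joint hε] with n hn y hy0 hy1
  have : {ω : ℕ → ℕ | bs (range n) ω < 2 * n} = {ω | 0 < Zw ω n} := by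
    ext ω
    simp only [Set.mem_ofPred_eq]
    unfold Zw
    omega
  have h := hn y hy0 hy1
  rw [← this] at h
  exact h

/-- the law for the block endpoints -/
theorem model_blocksV {F : ℕ → Set ℕ} {Φ : ℝ → ℝ} (hΦ : Continuous Φ) (hΦ0 : Φ 0 = 0) (hV : Lim F Φ) {ε : ℝ}
    (hε : 0 < ε) : ∃ r₀ : ℕ, ∀ r : ℕ, r₀ ≤ r → 0 < r →
    ∀ᶠ b : ℕ in atTop, ∀ y : ℝ, 0 ≤ y → y ≤ 1 →
      |PP.real ({ω | (cM r b ω : ℝ) ≤ y * r} ∩ {ω | bs (range (r * b)) ω ∈ F (r * b)}) - Φ y| ≤ ε := by
  classical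
  obtain ⟨d, hd, hAF⟩ := cont_unif hΦ (show 0 < ε / 4 by positivity)
  set e : ℝ := min (min (ε / 4) (d / 4)) (1 / 2) with he
  have he0 : 0 < e := by rw [he]; positivity
  have heε : e ≤ ε / 4 := (min_le_left _ _).trans (min_le_left _ _)
  have hed : e ≤ d / 4 := (min_le_left _ _).trans (min_le_right _ _)
  have he2 : e ≤ 1 / 2 := min_le_right _ _
  have hee : e ^ 2 ≤ 1 := by nlinarith
  obtain ⟨r₀, hr₀⟩ := mis_model (ε₀ := e ^ 2) (by positivity) hee
  refine ⟨r₀, fun r hr hrpos => ?_⟩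
  have hrR : (0 : ℝ) < r := by exact_mod_cast hrpos
  have hKt : Tendsto (fun b : ℕ => r * b) atTop atTop :=
    tendsto_id.const_mul_atTop' hrpos
  obtain ⟨N₁, hN₁⟩ := exists_nat_gt (1 / e)
  filter_upwards [hr₀ r hr hrpos, hKt.eventually (hV (ε / 4) (by positivity)),
    eventually_ge_atTop (max 1 N₁)] with b hmis harc hb' y hy0 hy1
  have hb : 0 < b := lt_of_lt_of_le one_pos ((le_max_left _ _).trans hb')
  have hb1 : N₁ ≤ b := (le_max_right _ _).trans hb'
  set K := r * b with hKdef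
  have hK0 : 0 < K := Nat.mul_pos hrpos hb
  have hKR : (0 : ℝ) < K := by exact_mod_cast hK0
  have hKrb : (K : ℝ) = r * b := by rw [hKdef]; push_cast; ring
  have hbR : (0 : ℝ) < b := by exact_mod_cast hb
  have hr1 : (1 : ℝ) ≤ r := by exact_mod_cast hrpos
  have h1K : 1 ≤ e * K := by
    have h1 : (N₁ : ℝ) ≤ b := by exact_mod_cast hb1
    have h2 : (b : ℝ) ≤ K := by rw [hKrb]; nlinarith
    have h3 : 1 / e ≤ K := by linarith
    rw [div_le_iff₀ he0] at h3
    linarith
  set Bd : Set (ℕ → ℕ) := {ω | e * K ≤ (((range K).filter fun j => ω ∈ {ω | misM b ω j}).card : ℝ)} with hBd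
  have hB : PP.real Bd ≤ e := by
    have h1 := markovM K (fun j => {ω | misM b ω j}) (fun j => dep_meas (misM_dep b j)) (c := e * K)
    have h2 : e * K * PP.real Bd ≤ e * K * e := by
      refine (h1.trans hmis).trans (le_of_eq ?_)
      ring
    exact le_of_mul_le_mul_left h2 (by positivity)
  have hcmp : ∀ ω, ω ∉ Bd → (b : ℝ) * cM r b ω ≤ Np K ω + e * K ∧ (Np K ω : ℝ) ≤ b * cM r b ω + 2 * e * K := by
    intro ω hω
    rw [hBd, Set.mem_ofPred_eq, not_le] at hω
    obtain ⟨h1, h2⟩ := cM_cmp (r := r) hb ω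
    have h1' : (b : ℝ) * cM r b ω ≤ Np K ω + (((range K).filter fun j => ω ∈ {ω | misM b ω j}).card : ℝ) := by
      exact_mod_cast h1
    have h2' : (Np K ω : ℝ) ≤ b * cM r b ω + (((range K).filter fun j => ω ∈ {ω | misM b ω j}).card : ℝ) + 1 := by
      exact_mod_cast h2
    constructor <;> linarith
  set VF : Set (ℕ → ℕ) := {ω | bs (range K) ω ∈ F K} with hVF
  -- upper bound
  have U : PP.real ({ω | (cM r b ω : ℝ) ≤ y * r} ∩ VF) ≤ Φ y + ε := by
    set y' := min 1 (y + 2 * e) with hy'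
    have hy'0 : 0 ≤ y' := by rw [hy']; positivity
    have hy'1 : y' ≤ 1 := min_le_left _ _
    have h1 : PP.real ({ω | (cM r b ω : ℝ) ≤ y * r} ∩ VF) ≤ PP.real (({ω | (Np K ω : ℝ) ≤ y' * K} ∩ VF) ∪ Bd) := by
      apply measureReal_mono _ (measure_ne_top _ _)
      rintro ω ⟨hω, hωV⟩
      rw [Set.mem_ofPred_eq] at hω
      by_cases hB : ω ∈ Bd
      · exact Or.inr hB
      · left
        refine ⟨?_, hωV⟩
        rw [Set.mem_ofPred_eq]
        have h2 := (hcmp ω hB).2
        have h3 : (b : ℝ) * cM r b ω ≤ b * (y * r) := mul_le_mul_of_nonneg_left hω hbR.le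
        have h4 : (Np K ω : ℝ) ≤ (y + 2 * e) * K := by
          rw [hKrb] at h2 ⊢
          linarith
        have h5 : (Np K ω : ℝ) ≤ 1 * K := by
          rw [one_mul]
          exact_mod_cast Np_le K ω
        rw [hy']
        rcases min_choice 1 (y + 2 * e) with h | h
        · rw [h]; exact h5
        · rw [h]; exact h4
    have h2 := measureReal_union_le (μ := PP) ({ω | (Np K ω : ℝ) ≤ y' * K} ∩ VF) Bd
    have h3 := (abs_le.1 (harc y' hy'0 hy'1)).2
    have h4 := hAF y' y hy'0 hy'1 hy0 hy1 (by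
      rw [abs_lt]
      have h5 : y' ≤ y + 2 * e := min_le_right _ _
      have h6 : y ≤ y' := le_min hy1 (by linarith)
      constructor <;> linarith)
    have h5 := (abs_lt.1 h4).2
    linarith
  -- lower bound
  have Lw : Φ y - ε ≤ PP.real ({ω | (cM r b ω : ℝ) ≤ y * r} ∩ VF) := by
    rcases lt_or_ge y (2 * e) with hlt | hge
    · have h4 := hAF y 0 hy0 hy1 le_rfl zero_le_one (by
        rw [sub_zero, abs_of_nonneg hy0]
        linarith)
      rw [hΦ0, sub_zero] at h4
      have h5 := (abs_lt.1 h4).2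
      have h6 : 0 ≤ PP.real ({ω | (cM r b ω : ℝ) ≤ y * r} ∩ VF) := measureReal_nonneg
      linarith
    · set y' := y - 2 * e with hy'
      have hy'0 : 0 ≤ y' := by linarith
      have hy'1 : y' ≤ 1 := by linarith
      have h1 : PP.real ({ω | (Np K ω : ℝ) ≤ y' * K} ∩ VF) ≤ PP.real (({ω | (cM r b ω : ℝ) ≤ y * r} ∩ VF) ∪ Bd) := by
        apply measureReal_mono _ (measure_ne_top _ _)
        rintro ω ⟨hω, hωV⟩
        rw [Set.mem_ofPred_eq] at hω
        by_cases hB : ω ∈ Bd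
        · exact Or.inr hB
        · left
          refine ⟨?_, hωV⟩
          rw [Set.mem_ofPred_eq]
          have h2 := (hcmp ω hB).1
          have h3 : (b : ℝ) * cM r b ω ≤ b * (y * r) := by
            have h4 : (b : ℝ) * cM r b ω ≤ (y - e) * K := by linarith
            have h5 : (y - e) * K ≤ y * K := mul_le_mul_of_nonneg_right (by linarith) hKR.le
            have h6 : y * (K : ℝ) = b * (y * r) := by rw [hKrb]; ring
            linarith
          exact le_of_mul_le_mul_left h3 hbR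
      have h2 := measureReal_union_le (μ := PP) ({ω | (cM r b ω : ℝ) ≤ y * r} ∩ VF) Bd
      have h3 := (abs_le.1 (harc y' hy'0 hy'1)).1
      have h4 := hAF y' y hy'0 hy'1 hy0 hy1 (by
        rw [abs_lt]
        constructor <;> linarith)
      have h5 := (abs_lt.1 h4).1
      linarith
  rw [abs_le]
  constructor <;> linarith

/-- the number of the block endpoints above the mean line -/
def cnA (r b m : ℕ) : ℕ := ((range r).filter fun i => S m (i * b) < 2 * (i * b)).card

/-- transfer by the block law -/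
theorem lawA {δ : ℝ} (hδ : HasDensity R δ) {κ ε : ℝ} (hκ : 0 < κ) (hε : 0 < ε) : ∀ᶠ X : ℕ in atTop, ∀ r b : ℕ,
    0 < r → 0 < b → κ * Real.log X ≤ b → ((r * b : ℕ) : ℝ) ≤ (1 - κ) * Real.log X / Real.log (4 / 3) →
    ∀ (y : ℝ) (F : Set ℕ), |oddCount X (fun n => R n ∧ (cnA r b n : ℝ) ≤ y * r ∧ S n (r * b) ∈ F) -
      δ / 2 * PP.real ({ω | (cM r b ω : ℝ) ≤ y * r} ∩ {ω | bs (range (r * b)) ω ∈ F}) * X| ≤ ε * X := by
  obtain ⟨δ', h0, h1, h2, _, h3⟩ := Pool.Agent.Results.MP_f7abf1_nt.BlockLaw.result.1 R (fun _ _ => R_T)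
  have hδ' : δ' = δ := tendsto_nhds_unique h2 hδ
  subst hδ'
  obtain ⟨X₀, hX⟩ := h3 κ ε hκ hε
  filter_upwards [eventually_ge_atTop X₀] with X hX₀ r b hr hb h4 h5 y F
  have hadm : Admissible κ X r (fun i => i * b) := by
    refine ⟨by simp, ?_, by simpa using h5⟩
    intro i _
    push_cast
    linarith
  set E : Set (Fin r → ℕ) := {v | ((((range r).filter fun i => ps v i < 2 * (i * b)).card : ℕ) : ℝ) ≤ y * r ∧ ps v r ∈ F}
    with hE
  have h := hX X hX₀ r (fun i => i * b) hadm E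
  have e1 : ∀ x : ℕ → ℕ, blocks (fun i => i * b) r x ∈ E ↔
      ((((range r).filter fun i => (∑ j ∈ range (i * b), x j) < 2 * (i * b)).card : ℕ) : ℝ) ≤ y * r ∧
        (∑ j ∈ range (r * b), x j) ∈ F := by
    intro x
    rw [hE, Set.mem_ofPred_eq, ps_blocks x le_rfl]
    have : ((range r).filter fun i => ps (blocks (fun i => i * b) r x) i < 2 * (i * b)) =
        ((range r).filter fun i => (∑ j ∈ range (i * b), x j) < 2 * (i * b)) := by
      apply Finset.filter_congr
      intro i hi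
      rw [Finset.mem_range] at hi
      rw [ps_blocks x hi.le]
    rw [this]
  have e2 : prob (fun i => i * b) r E =
      PP.real ({ω | (cM r b ω : ℝ) ≤ y * r} ∩ {ω | bs (range (r * b)) ω ∈ F}) := by
    unfold prob
    rw [Pool.Agent.Results.MP_f7abf1_nt.BlockLaw.model_eq]
    congr 1
    ext ω
    rw [Set.mem_ofPred_eq, e1]
    have : ((range r).filter fun i => (∑ j ∈ range (i * b), (ω j + 1)) < 2 * (i * b)) =
        ((range r).filter fun i => 0 < Zw ω (i * b)) := by
      apply Finset.filter_congr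
      intro i _
      unfold Zw bs
      rw [sub_pos]
      constructor
      · intro h; exact_mod_cast h
      · intro h; exact_mod_cast h
    rw [this]
    rfl
  have e3 : (fun n => R n ∧ (cnA r b n : ℝ) ≤ y * r ∧ S n (r * b) ∈ F) =
      (fun n => R n ∧ blocks (fun i => i * b) r (wait n) ∈ E) := by
    funext n
    rw [e1]
    rfl
  rw [e3, ← e2]
  exact h

theorem sA_block {b m i : ℕ} : sA m (i * b) ↔ S m (i * b) < 2 * (i * b) := Iff.rfl

open Classical in
theorem cnA_cmp {r b m : ℕ} (hb : 0 < b) :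
    b * cnA r b m ≤ ((range (r * b)).filter (sA m)).card + ((range (r * b)).filter (misA b m)).card ∧
    ((range (r * b)).filter (sA m)).card ≤ b * cnA r b m + ((range (r * b)).filter (misA b m)).card := by
  have h1 : ((range (r * b)).filter fun j => sA m (j / b * b)).card = b * cnA r b m := by
    rw [card_div (fun i => sA m (i * b)) r hb]
    unfold cnA
    congr 2
    ext i
    simp only [Finset.mem_filter, sA_block]
  rw [← h1]
  constructor
  · refine (Finset.card_le_card ?_).trans (Finset.card_union_le _ _)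
    intro j hj
    rw [Finset.mem_filter] at hj
    rw [Finset.mem_union, Finset.mem_filter, Finset.mem_filter]
    by_cases h : sA m j
    · exact Or.inl ⟨hj.1, h⟩
    · exact Or.inr ⟨hj.1, by unfold misA; tauto⟩
  · refine (Finset.card_le_card ?_).trans (Finset.card_union_le _ _)
    intro j hj
    rw [Finset.mem_filter] at hj
    rw [Finset.mem_union, Finset.mem_filter, Finset.mem_filter]
    by_cases h : sA m (j / b * b)
    · exact Or.inl ⟨hj.1, h⟩
    · exact Or.inr ⟨hj.1, by unfold misA; tauto⟩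

theorem cnA_le (r b m : ℕ) : cnA r b m ≤ r := by
  unfold cnA
  refine (Finset.card_filter_le _ _).trans ?_
  rw [Finset.card_range]

open Classical in
/-- the proportion of the times above the mean line is at most `u` -/
def PA (u : ℝ) (n : ℕ) : Prop := ∃ t, 0 < t ∧ IsT n t ∧ (((range t).filter (Cond n)).card : ℝ) ≤ u * t

theorem coreA {δ : ℝ} (hδ0 : 0 ≤ δ) (hδ1 : δ ≤ 1) (hδ : HasDensity R δ) {F : ℕ → Set ℕ} {Φ : ℝ → ℝ}
    (hΦ : Continuous Φ) (hΦ0 : Φ 0 = 0) (hV : Lim F Φ) {ε : ℝ} (hε : 0 < ε) :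
    ∃ κ₀ : ℝ, 0 < κ₀ ∧ ∀ κ : ℝ, 0 < κ → κ ≤ κ₀ →
    ∃ r : ℕ, 0 < r ∧ ∀ v : ℕ, ∀ᶠ X : ℕ in atTop, ∀ u : ℝ, 0 ≤ u → u ≤ 1 →
      |oddCount X (fun m => PA u (2 ^ v * m) ∧ S m (r * ⌊(1 - κ) * Real.log X / Real.log (4 / 3) / r⌋₊) ∈
          F (r * ⌊(1 - κ) * Real.log X / Real.log (4 / 3) / r⌋₊)) - δ / 2 * Φ u * X| ≤ ε * X := by
  classical
  obtain ⟨d, hd, hunif⟩ := cont_unif hΦ (show 0 < ε / 4 by positivity)
  set e : ℝ := min (min (ε / 16) (d / 8)) (1 / 2) with he
  have he0 : 0 < e := by rw [he]; positivity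
  have heε : e ≤ ε / 16 := (min_le_left _ _).trans (min_le_left _ _)
  have hed : e ≤ d / 8 := (min_le_left _ _).trans (min_le_right _ _)
  have he2 : e ≤ 1 / 2 := min_le_right _ _
  have he1 : e ≤ 1 := by linarith
  have hee1 : e ^ 2 ≤ 1 := by nlinarith
  obtain ⟨η, hη, hbad⟩ := bad_sumA (ε₀ := e ^ 2) (by positivity) hee1
  obtain ⟨r₀, hmis⟩ := mis_sumA (ε₀ := e ^ 2) (by positivity) hee1
  obtain ⟨r₁, hmod⟩ := model_blocksV hΦ hΦ0 hV (show 0 < ε / 4 by positivity)
  obtain ⟨_, _, _, _, _, htail⟩ := tail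
  obtain ⟨M, Z, hM, hZ, htail⟩ := htail e he0
  obtain ⟨κ₀, hκ₀, hκ₀2, hgood⟩ := good_impA hM hZ hη he0 he1
  refine ⟨κ₀, hκ₀, fun κ hκ hκκ => ?_⟩
  have hκ2 : κ ≤ 1 / 2 := hκκ.trans hκ₀2
  set r : ℕ := r₀ + r₁ + 1 with hr
  have hr0 : 0 < r := by omega
  refine ⟨r, hr0, fun v => ?_⟩
  have hrR : (0 : ℝ) < r := by exact_mod_cast hr0
  have hr1 : (1 : ℝ) ≤ r := by exact_mod_cast hr0
  have hlpos : 0 < Real.log (4 / 3) := by linarith [log43_lo]
  set κ₁ : ℝ := κ / r with hκ₁
  have hκ₁0 : 0 < κ₁ := by positivity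
  have hκ₁κ : κ₁ ≤ κ := by
    rw [hκ₁, div_le_iff₀ hrR]
    have := mul_le_mul_of_nonneg_left hr1 hκ.le
    linarith
  obtain ⟨b₀, hb₀⟩ := eventually_atTop.1 (hmod r (by omega) hr0)
  filter_upwards [hbad κ hκ hκ2, hmis r (by omega) hr0 κ hκ hκ2, htail κ hκ, hgood κ hκ hκκ v r,
    lawA hδ hκ₁0 he0, b_facts hκ2 hr0, log_tendsto.eventually_ge_atTop (max 1 (r * b₀))]
    with X hXbad hXmis hXtail hXgood hXlaw hXb hL u hu0 hu1
  obtain ⟨hbpos, hLK, h1K, hbr2⟩ := hXb
  have hL1 : 1 ≤ Real.log X := (le_max_left _ _).trans hL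
  have hL2 : (r : ℝ) * b₀ ≤ Real.log X := (le_max_right _ _).trans hL
  set L := Real.log X with hLdef
  set b : ℕ := ⌊(1 - κ) * L / Real.log (4 / 3) / r⌋₊ with hb
  have hbR : (0 : ℝ) < b := by exact_mod_cast hbpos
  set K := r * b with hK
  have hKR : (K : ℝ) = r * b := by rw [hK]; push_cast; ring
  have hK0 : 0 < K := Nat.mul_pos hr0 hbpos
  have hKR0 : (0 : ℝ) < K := by exact_mod_cast hK0
  have hX0 : (0 : ℝ) ≤ X := Nat.cast_nonneg X
  have hb₀b : b₀ ≤ b := by
    have h1 : (r : ℝ) * b₀ ≤ r * b := by rw [← hKR]; linarith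
    have h2 := le_of_mul_le_mul_left h1 hrR
    exact_mod_cast h2
  have hmodel := hb₀ b hb₀b
  have hκb : κ₁ * L ≤ b := by
    rw [hκ₁, div_mul_eq_mul_div, div_le_iff₀ hrR]
    have h1 : κ * L ≤ 1 * L := mul_le_mul_of_nonneg_right (by linarith) (by linarith)
    have h2 : L ≤ b * r := by rw [mul_comm, ← hKR]; exact hLK
    linarith
  have h1K' : ((r * b : ℕ) : ℝ) ≤ (1 - κ₁) * L / Real.log (4 / 3) := by
    refine le_trans h1K ?_
    gcongr
  -- the exceptional sets
  have B1 : oddCount X (fun n => e * K ≤ (((range K).filter fun j => bA (η * Real.sqrt K) n j).card : ℝ)) ≤ e * X := by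
    have h1 := markov X K (fun n j => bA (η * Real.sqrt K) n j) (e * K)
    have h2 : ∑ j ∈ range K, oddCount X (fun n => bA (η * Real.sqrt K) n j) ≤ e ^ 2 * K * X := hXbad K hLK h1K
    have h3 : e * K * oddCount X (fun n => e * K ≤ (((range K).filter fun j => bA (η * Real.sqrt K) n j).card : ℝ)) ≤
        e * K * (e * X) := by
      have h4 : e ^ 2 * K * X = e * K * (e * X) := by ring
      rw [← h4]
      exact h1.trans h2
    exact le_of_mul_le_mul_left h3 (by positivity)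
  have B2 : oddCount X (fun n => e * K ≤ (((range K).filter fun j => misA b n j).card : ℝ)) ≤ e * X := by
    have h1 := markov X K (fun n j => misA b n j) (e * K)
    have h2 : ∑ j ∈ range K, oddCount X (fun n => misA b n j) ≤ e ^ 2 * K * X := hXmis b hbpos hLK h1K
    have h3 : e * K * oddCount X (fun n => e * K ≤ (((range K).filter fun j => misA b n j).card : ℝ)) ≤
        e * K * (e * X) := by
      have h4 : e ^ 2 * K * X = e * K * (e * X) := by ring
      rw [← h4]
      exact h1.trans h2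
    exact le_of_mul_le_mul_left h3 (by positivity)
  have B3 : oddCount X (fun n => R n ∧ ¬ Good M Z K n) ≤ e * X := by
    apply hXtail K hK0 _ h1K
    have : κ * L ≤ 1 * L := mul_le_mul_of_nonneg_right (by linarith) (by linarith)
    linarith
  set Bad : ℕ → Prop := fun n => (R n ∧ ¬ Good M Z K n) ∨
    ((e * K ≤ (((range K).filter fun j => bA (η * Real.sqrt K) n j).card : ℝ)) ∨
    (e * K ≤ (((range K).filter fun j => misA b n j).card : ℝ))) with hBad
  have B : oddCount X Bad ≤ 3 * e * X := by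
    have h1 := oc_or X (fun n => R n ∧ ¬ Good M Z K n) (fun n =>
      (e * K ≤ (((range K).filter fun j => bA (η * Real.sqrt K) n j).card : ℝ)) ∨
      (e * K ≤ (((range K).filter fun j => misA b n j).card : ℝ)))
    have h2 := oc_or X (fun n => e * K ≤ (((range K).filter fun j => bA (η * Real.sqrt K) n j).card : ℝ))
      (fun n => e * K ≤ (((range K).filter fun j => misA b n j).card : ℝ))
    linarith
  -- the comparison outside the exceptional set
  have key : ∀ m : ℕ, m ≤ X → m % 2 = 1 → R m → ¬ Bad m →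
      (PA u (2 ^ v * m) → (cnA r b m : ℝ) ≤ (u + 3 * e) * r) ∧
      ((cnA r b m : ℝ) ≤ (u - 5 * e) * r → PA u (2 ^ v * m)) := by
    intro m hmX hm hRm hB
    obtain ⟨g1, g23⟩ := not_or.1 hB
    obtain ⟨g2, g3⟩ := not_or.1 g23
    rw [not_le] at g2 g3
    have hG : Good M Z K m := by
      by_contra h
      exact g1 ⟨hRm, h⟩
    obtain ⟨t, ht0, ht, ht2, c1, c2⟩ := hXgood K hbr2 m hmX hm hG
    obtain ⟨d1, d2⟩ := cnA_cmp (r := r) (b := b) (m := m) hbpos
    have d1' : (b : ℝ) * cnA r b m ≤ ((range K).filter (sA m)).card +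
      (((range K).filter fun j => misA b m j).card : ℝ) := by exact_mod_cast d1
    have d2' : (((range K).filter (sA m)).card : ℝ) ≤ b * cnA r b m +
      (((range K).filter fun j => misA b m j).card : ℝ) := by exact_mod_cast d2
    rw [abs_le] at ht2
    have heK : 0 < e * K := by positivity
    have ht3 : u * t ≤ 2 * u * K + e * K := by
      have h1 : (t : ℝ) ≤ 2 * K + e * K := by linarith [ht2.2]
      have h2 := mul_le_mul_of_nonneg_left h1 hu0
      have h3 : u * (e * K) ≤ 1 * (e * K) := mul_le_mul_of_nonneg_right hu1 heK.le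
      linarith
    have ht4 : 2 * u * K - e * K ≤ u * t := by
      have h1 : 2 * K - e * K ≤ (t : ℝ) := by linarith [ht2.1]
      have h2 := mul_le_mul_of_nonneg_left h1 hu0
      have h3 : u * (e * K) ≤ 1 * (e * K) := mul_le_mul_of_nonneg_right hu1 heK.le
      linarith
    constructor
    · rintro ⟨t', _, ht', hle⟩
      have : t' = t := IsT_unique ht' ht
      subst this
      have h1 : (b : ℝ) * cnA r b m ≤ (u + 3 * e) * K := by linarith
      rw [hKR] at h1
      have h2 : (b : ℝ) * cnA r b m ≤ b * ((u + 3 * e) * r) := by linarith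
      exact le_of_mul_le_mul_left h2 hbR
    · intro h
      refine ⟨t, ht0, ht, ?_⟩
      have h1 : (b : ℝ) * cnA r b m ≤ b * ((u - 5 * e) * r) := mul_le_mul_of_nonneg_left h hbR.le
      have h2 : (b : ℝ) * cnA r b m ≤ (u - 5 * e) * K := by rw [hKR]; linarith
      linarith
  set A := oddCount X (fun m => PA u (2 ^ v * m) ∧ S m K ∈ F K) with hA
  have hPR : ∀ m, PA u (2 ^ v * m) → R m := by
    rintro m ⟨t, _, ht, _⟩
    exact R_two.1 ⟨t, ht.1⟩
  have hδX : ∀ x : ℝ, 0 ≤ x → δ / 2 * x * X ≤ x * X := by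
    intro x hx
    apply mul_le_mul_of_nonneg_right _ hX0
    nlinarith
  have hεX : 0 ≤ ε * X := by positivity
  have heX : e * X ≤ ε / 16 * X := mul_le_mul_of_nonneg_right heε hX0
  -- upper bound
  have U : A ≤ δ / 2 * Φ u * X + ε * X := by
    set y : ℝ := min 1 (u + 3 * e) with hy
    have hy0 : 0 ≤ y := by rw [hy]; positivity
    have hy1 : y ≤ 1 := min_le_left _ _
    have h1 : A ≤ oddCount X (fun m => (R m ∧ (cnA r b m : ℝ) ≤ y * r ∧ S m K ∈ F K) ∨ Bad m) := by
      apply oc_mono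
      rintro m hmX hm ⟨h2, h3⟩
      by_cases hB : Bad m
      · exact Or.inr hB
      · left
        have hR := hPR m h2
        refine ⟨hR, ?_, h3⟩
        have h4 := (key m hmX (Nat.odd_iff.1 hm) hR hB).1 h2
        have h5 : (cnA r b m : ℝ) ≤ 1 * r := by
          rw [one_mul]
          exact_mod_cast cnA_le r b m
        rw [hy]
        rcases min_choice 1 (u + 3 * e) with h | h
        · rw [h]; exact h5
        · rw [h]; exact h4
    have h2 := oc_or X (fun m => R m ∧ (cnA r b m : ℝ) ≤ y * r ∧ S m K ∈ F K) Bad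
    have h3 := (abs_le.1 (hXlaw r b hr0 hbpos hκb h1K' y (F K))).2
    have h4 := (abs_le.1 (hmodel y hy0 hy1)).2
    have h5 := hunif y u hy0 hy1 hu0 hu1 (by
      rw [abs_lt]
      have h5 : y ≤ u + 3 * e := min_le_right _ _
      have h6 : u ≤ y := le_min hu1 (by linarith)
      constructor <;> linarith)
    have h6 := (abs_lt.1 h5).2
    set p := PP.real ({ω | (cM r b ω : ℝ) ≤ y * r} ∩ {ω | bs (range (r * b)) ω ∈ F (r * b)}) with hp
    have h7 : p ≤ Φ u + ε / 2 := by linarith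
    have h8 : δ / 2 * p * X ≤ δ / 2 * (Φ u + ε / 2) * X := by gcongr
    have h9 := hδX (ε / 2) (by positivity)
    have h10 : δ / 2 * (Φ u + ε / 2) * X = δ / 2 * Φ u * X + δ / 2 * (ε / 2) * X := by ring
    change oddCount X (fun m => R m ∧ (cnA r b m : ℝ) ≤ y * r ∧ S m K ∈ F K) - δ / 2 * p * X ≤ _ at h3
    linarith
  -- lower bound
  have Lw : δ / 2 * Φ u * X - ε * X ≤ A := by
    have hA0 : 0 ≤ A := oc_nonneg _ _
    by_cases hu5 : u - 5 * e < 0
    · have h5 := hunif u 0 hu0 hu1 le_rfl zero_le_one (by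
        rw [sub_zero, abs_of_nonneg hu0]
        linarith)
      rw [hΦ0, sub_zero] at h5
      have h6 := (abs_lt.1 h5).2
      have h7 : δ / 2 * Φ u * X ≤ δ / 2 * (ε / 4) * X := by gcongr
      have h8 := hδX (ε / 4) (by positivity)
      linarith
    · push Not at hu5
      set y : ℝ := u - 5 * e with hy
      have hy1 : y ≤ 1 := by linarith
      have h1 : oddCount X (fun m => R m ∧ (cnA r b m : ℝ) ≤ y * r ∧ S m K ∈ F K) ≤
          oddCount X (fun m => (PA u (2 ^ v * m) ∧ S m K ∈ F K) ∨ Bad m) := by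
        apply oc_mono
        rintro m hmX hm ⟨hR, h2, h3⟩
        by_cases hB : Bad m
        · exact Or.inr hB
        · left
          exact ⟨(key m hmX (Nat.odd_iff.1 hm) hR hB).2 h2, h3⟩
      have h2 := oc_or X (fun m => PA u (2 ^ v * m) ∧ S m K ∈ F K) Bad
      have h3 := (abs_le.1 (hXlaw r b hr0 hbpos hκb h1K' y (F K))).1
      have h4 := (abs_le.1 (hmodel y hu5 hy1)).1
      have h5 := hunif y u hu5 hy1 hu0 hu1 (by
        rw [abs_lt]
        constructor <;> linarith)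
      have h6 := (abs_lt.1 h5).1
      set p := PP.real ({ω | (cM r b ω : ℝ) ≤ y * r} ∩ {ω | bs (range (r * b)) ω ∈ F (r * b)}) with hp
      have h7 : Φ u - ε / 2 ≤ p := by linarith
      have h8 : δ / 2 * (Φ u - ε / 2) * X ≤ δ / 2 * p * X := by gcongr
      have h9 := hδX (ε / 2) (by positivity)
      have h10 : δ / 2 * (Φ u - ε / 2) * X = δ / 2 * Φ u * X - δ / 2 * (ε / 2) * X := by ring
      change _ ≤ oddCount X (fun m => R m ∧ (cnA r b m : ℝ) ≤ y * r ∧ S m K ∈ F K) - δ / 2 * p * X at h3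
      linarith
  rw [abs_le]
  constructor <;> linarith

end Pool.Agent.H55.AL
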