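import Pool.Agent.H55.AL.A8

/-!
# The arcsine law
-/

set_option autoImplicit false

namespace Pool.Agent.H55.AL

open MeasureTheory ProbabilityTheory Filter Topology Finset
open Pool.Agent.Results.MP_f7abf1_nt.BlockLaw (T Syr wait blocks Admissible model prob oddCount HasDensity bound Phi)
open Pool.Agent.H55.UL

theorem oc_R {δ : ℝ} (hδ : HasDensity R δ) {ε : ℝ} (hε : 0 < ε) : ∀ᶠ X : ℕ in atTop,
    |oddCount X R - δ / 2 * X| ≤ ε * X := by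
  obtain ⟨δ', h0, h1, h2, _, h3⟩ := Pool.Agent.Results.MP_f7abf1_nt.BlockLaw.result.1 R (fun _ _ => R_T)
  have hδ' : δ' = δ := tendsto_nhds_unique h2 hδ
  subst hδ'
  obtain ⟨X₀, hX⟩ := h3 (1 / 8) ε (by norm_num) hε
  filter_upwards [eventually_ge_atTop X₀, log_tendsto.eventually_ge_atTop 8] with X hX₀ hL
  set K := ⌈(1 / 8 : ℝ) * Real.log X⌉₊ with hK
  have hK1 : (1 / 8 : ℝ) * Real.log X ≤ K := Nat.le_ceil _
  have hK2 : (K : ℝ) ≤ (1 - 1 / 8) * Real.log X / Real.log (4 / 3) := by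
    have h5 := (Nat.ceil_lt_add_one (show 0 ≤ (1 / 8 : ℝ) * Real.log X by linarith)).le
    rw [le_div_iff₀ (by linarith [log43_lo])]
    have h6 := log43_hi
    have h7 : (K : ℝ) * Real.log (4 / 3) ≤ K * (1 / 3) := mul_le_mul_of_nonneg_left h6 (Nat.cast_nonneg _)
    linarith
  have h := hX X hX₀ 1 (K1 K) (adm1 hK1 hK2) Set.univ
  have hpu : prob (K1 K) 1 Set.univ = 1 := by
    unfold prob
    rw [Pool.Agent.Results.MP_f7abf1_nt.BlockLaw.model_eq]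
    simp
  rw [hpu, mul_one] at h
  simp only [Set.mem_univ, and_true] at h
  exact h

theorem AF_le_one {x : ℝ} (h : x ≤ 1) : AF x ≤ 1 := by
  rw [← AF_one]
  exact AF_mono h

theorem AF_nonneg {x : ℝ} (h : 0 ≤ x) : 0 ≤ AF x := by
  rw [← AF_zero]
  exact AF_mono h

theorem JF_nonneg {x : ℝ} (h0 : 0 ≤ x) (h1 : x ≤ 1) : 0 ≤ JF x := by
  have := JF_lower le_rfl h0 h1
  rw [JF_zero] at this
  linarith

theorem JF_le_one {x : ℝ} (h0 : 0 ≤ x) (h1 : x ≤ 1) : JF x ≤ 1 := by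
  have := JF_upper le_rfl h0 h1
  rw [JF_zero, AF_zero] at this
  have h2 := AF_le_one h1
  have h3 := AF_nonneg h0
  nlinarith

theorem class1 {δ : ℝ} (hδ0 : 0 ≤ δ) (hδ1 : δ ≤ 1) (hδ : HasDensity R δ) (v : ℕ) {ε : ℝ} (hε : 0 < ε) :
    ∀ᶠ X : ℕ in atTop, ∀ u : ℝ, 0 ≤ u → u ≤ 1 →
    |oddCount X (fun m => PA u (2 ^ v * m)) - AF u * oddCount X (fun m => R (2 ^ v * m))| ≤ ε * X := by
  obtain ⟨κ₀, hκ₀, h⟩ := coreA hδ0 hδ1 hδ AF_cont AF_zero Lim_AF (show 0 < ε / 2 by positivity)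
  obtain ⟨r, hr0, h⟩ := h κ₀ hκ₀ le_rfl
  filter_upwards [h v, oc_R hδ (show 0 < ε / 2 by positivity)] with X hX hR u hu0 hu1
  have h1 := hX u hu0 hu1
  simp only [Set.mem_univ, and_true] at h1
  simp only [R_two]
  have hF0 := AF_nonneg hu0
  have hF1 := AF_le_one hu1
  have h2 : |AF u * (δ / 2 * X) - AF u * oddCount X R| ≤ ε / 2 * X := by
    rw [← mul_sub, abs_mul, abs_of_nonneg hF0, abs_sub_comm]
    calc AF u * |oddCount X R - δ / 2 * X| ≤ 1 * |oddCount X R - δ / 2 * X| :=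
          mul_le_mul_of_nonneg_right hF1 (abs_nonneg _)
      _ ≤ ε / 2 * X := by rw [one_mul]; exact hR
  have h3 := abs_sub_le (oddCount X (fun m => PA u (2 ^ v * m))) (δ / 2 * AF u * X) (AF u * oddCount X R)
  have h4 : δ / 2 * AF u * X - AF u * oddCount X R = AF u * (δ / 2 * X) - AF u * oddCount X R := by ring
  rw [h4] at h3
  linarith

theorem class2 {δ : ℝ} (hδ0 : 0 ≤ δ) (hδ1 : δ ≤ 1) (hδ : HasDensity R δ) (v : ℕ) {ε : ℝ} (hε : 0 < ε) :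
    ∀ᶠ X : ℕ in atTop, ∀ u : ℝ, 0 ≤ u → u ≤ 1 →
    |oddCount X (fun m => PA u (2 ^ v * m) ∧ ¬ NZ 0 (2 ^ v * m)) - JF u * oddCount X (fun m => R (2 ^ v * m))|
      ≤ ε * X := by
  set e : ℝ := min 1 (ε / 20) with he
  have he0 : 0 < e := by rw [he]; positivity
  have he1 : e ≤ 1 := min_le_left _ _
  have heε : 20 * e ≤ ε := by
    have : e ≤ ε / 20 := min_le_right _ _
    linarith
  obtain ⟨κ₁, hκ₁, hcore⟩ := coreA hδ0 hδ1 hδ JF_cont JF_zero Lim_JF he0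
  obtain ⟨_, _, _, _, _, htail⟩ := tail
  obtain ⟨M, Z, hM, hZ, htail⟩ := htail e he0
  obtain ⟨κ₂, hκ₂, hκ₂2, hjd⟩ := joint_det hM hZ he0
  set κ := min κ₁ κ₂ with hκ
  have hκ0 : 0 < κ := lt_min hκ₁ hκ₂
  have hκ2 : κ ≤ 1 / 2 := (min_le_right _ _).trans hκ₂2
  obtain ⟨r, hr0, hcore⟩ := hcore κ hκ0 (min_le_left _ _)
  obtain ⟨N₁, hN₁⟩ := exists_nat_gt (1 / e ^ 2)
  filter_upwards [hcore v, htail κ hκ0, hjd κ hκ0 (min_le_right _ _) v r e 0 he0 he1, oc_small he0,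
    b_facts hκ2 hr0, up_short hκ0 he0, log_tendsto.eventually_ge_atTop (max 1 N₁), oc_R hδ he0]
    with X hXcore hXtail hXjd hXs hXb hXsh hL hR u hu0 hu1
  obtain ⟨hb, hLK, hK1, hK2⟩ := hXb
  set K := r * ⌊(1 - κ) * Real.log X / Real.log (4 / 3) / r⌋₊ with hKdef
  have hL1 : 1 ≤ Real.log X := (le_max_left _ _).trans hL
  have hL2 : (N₁ : ℝ) ≤ Real.log X := (le_max_right _ _).trans hL
  have hK0 : 0 < K := Nat.mul_pos hr0 hb
  have hKR0 : (0 : ℝ) < K := by exact_mod_cast hK0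
  have hX0 : (0 : ℝ) ≤ X := Nat.cast_nonneg X
  have hκL : κ * Real.log X ≤ K := by
    have : κ * Real.log X ≤ 1 * Real.log X := mul_le_mul_of_nonneg_right (by linarith) (by linarith)
    linarith
  have h1 := hXcore u hu0 hu1
  have h2 := hXtail K hK0 hκL hK1
  have h3 := hXsh K hK0 hκL hK1 (2 * K) (e * Real.sqrt K) (by positivity)
  have hsK : 0 < Real.sqrt K := Real.sqrt_pos.2 hKR0
  have h4 : (2 * (e * Real.sqrt K) + 1) / Real.sqrt K / 2 + e ≤ 3 * e := by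
    have h5 : 1 ≤ e * Real.sqrt K := by
      have h6 : 1 / e ^ 2 ≤ K := (hN₁.le.trans hL2).trans hLK
      have h7 : 1 / e ≤ Real.sqrt K := by
        apply Real.le_sqrt_of_sq_le
        rw [div_pow, one_pow]
        exact h6
      rw [div_le_iff₀ he0] at h7
      linarith
    have h6 : (2 * (e * Real.sqrt K) + 1) / Real.sqrt K ≤ 4 * e := by
      rw [div_le_iff₀ hsK]
      linarith
    linarith
  have h5 : oddCount X (fun n => |(S n K : ℝ) - 2 * K| ≤ e * Real.sqrt K) ≤ 3 * e * X :=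
    h3.trans (mul_le_mul_of_nonneg_right h4 hX0)
  set Bad : ℕ → Prop := fun n => (R n ∧ ¬ Good M Z K n) ∨
    ((¬ (e * X ≤ n)) ∨ (|(S n K : ℝ) - 2 * K| ≤ e * Real.sqrt K)) with hBad
  have hB : oddCount X Bad ≤ 6 * e * X := by
    have h6 := oc_or X (fun n => R n ∧ ¬ Good M Z K n) (fun n =>
      (¬ (e * X ≤ n)) ∨ (|(S n K : ℝ) - 2 * K| ≤ e * Real.sqrt K))
    have h7 := oc_or X (fun n => ¬ (e * X ≤ n)) (fun n => |(S n K : ℝ) - 2 * K| ≤ e * Real.sqrt K)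
    have h8 : oddCount X (fun n => ¬ (e * X ≤ n)) ≤ 2 * e * X := hXs
    linarith
  have key : ∀ m : ℕ, m ≤ X → m % 2 = 1 → R m → ¬ Bad m → (¬ NZ 0 (2 ^ v * m) ↔ S m K < 2 * K) := by
    intro m hmX hm hRm hb
    obtain ⟨g1, g23⟩ := not_or.1 hb
    obtain ⟨g2, g3⟩ := not_or.1 g23
    rw [not_not] at g2
    rw [not_le] at g3
    have hG : Good M Z K m := by
      by_contra h
      exact g1 ⟨hRm, h⟩
    have := hXjd K hK2 m hmX g2 hm hG (by
      rw [zero_mul, add_zero]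
      exact g3)
    rw [this, zero_mul, add_zero, not_lt]
    have hpos : 0 < e * Real.sqrt K := by positivity
    constructor
    · intro h
      have h6 : (S m K : ℝ) < 2 * K := by
        rcases h.lt_or_eq with h7 | h7
        · linarith
        · rw [h7, abs_zero] at g3
          linarith
      exact_mod_cast h6
    · intro h
      have h6 : (S m K : ℝ) < 2 * K := by exact_mod_cast h
      linarith
  have hPR : ∀ m, PA u (2 ^ v * m) → R m := by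
    rintro m ⟨t, _, ht, _⟩
    exact R_two.1 ⟨t, ht.1⟩
  set A := oddCount X (fun m => PA u (2 ^ v * m) ∧ ¬ NZ 0 (2 ^ v * m)) with hA
  set A' := oddCount X (fun m => PA u (2 ^ v * m) ∧ S m K ∈ {s | s < 2 * K}) with hA'
  have a1 : A ≤ A' + 6 * e * X := by
    have h6 : A ≤ oddCount X (fun m => (PA u (2 ^ v * m) ∧ S m K ∈ {s | s < 2 * K}) ∨ Bad m) := by
      apply oc_mono
      rintro m hmX hm ⟨b1, b2⟩
      by_cases hb : Bad m
      · exact Or.inr hb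
      · exact Or.inl ⟨b1, (key m hmX (Nat.odd_iff.1 hm) (hPR m b1) hb).1 b2⟩
    have h7 := oc_or X (fun m => PA u (2 ^ v * m) ∧ S m K ∈ {s | s < 2 * K}) Bad
    linarith
  have a2 : A' ≤ A + 6 * e * X := by
    have h6 : A' ≤ oddCount X (fun m => (PA u (2 ^ v * m) ∧ ¬ NZ 0 (2 ^ v * m)) ∨ Bad m) := by
      apply oc_mono
      rintro m hmX hm ⟨b1, b2⟩
      by_cases hb : Bad m
      · exact Or.inr hb
      · exact Or.inl ⟨b1, (key m hmX (Nat.odd_iff.1 hm) (hPR m b1) hb).2 b2⟩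
    have h7 := oc_or X (fun m => PA u (2 ^ v * m) ∧ ¬ NZ 0 (2 ^ v * m)) Bad
    linarith
  simp only [R_two]
  have hF0 := JF_nonneg hu0 hu1
  have hF1 := JF_le_one hu0 hu1
  have h6 : |JF u * (δ / 2 * X) - JF u * oddCount X R| ≤ e * X := by
    rw [← mul_sub, abs_mul, abs_of_nonneg hF0, abs_sub_comm]
    calc JF u * |oddCount X R - δ / 2 * X| ≤ 1 * |oddCount X R - δ / 2 * X| :=
          mul_le_mul_of_nonneg_right hF1 (abs_nonneg _)
      _ ≤ e * X := by rw [one_mul]; exact hR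
  have heX : 0 ≤ e * X := by positivity
  have hεX : 20 * e * X ≤ ε * X := mul_le_mul_of_nonneg_right heε hX0
  rw [abs_le] at h1 h6 ⊢
  change _ ≤ A' - δ / 2 * JF u * X ∧ A' - δ / 2 * JF u * X ≤ _ at h1
  constructor <;> linarith [h1.1, h1.2, h6.1, h6.2]

theorem dens1 {δ : ℝ} (hδ0 : 0 ≤ δ) (hδ1 : δ ≤ 1) (hδ : HasDensity R δ) {u : ℝ} (hu0 : 0 ≤ u) (hu1 : u ≤ 1) :
    HasDensity (PA u) (AF u * δ) :=
  dens_transfer (A := PA u) (B := R) (AF_nonneg hu0) (AF_le_one hu1) (fun v ε hε => by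
    filter_upwards [class1 hδ0 hδ1 hδ v hε] with X hX
    exact hX u hu0 hu1) hδ

theorem dens2 {δ : ℝ} (hδ0 : 0 ≤ δ) (hδ1 : δ ≤ 1) (hδ : HasDensity R δ) {u : ℝ} (hu0 : 0 ≤ u) (hu1 : u ≤ 1) :
    HasDensity (fun n => PA u n ∧ ¬ NZ 0 n) (JF u * δ) :=
  dens_transfer (A := fun n => PA u n ∧ ¬ NZ 0 n) (B := R) (JF_nonneg hu0 hu1) (JF_le_one hu0 hu1) (fun v ε hε => by
    filter_upwards [class2 hδ0 hδ1 hδ v hε] with X hX
    exact hX u hu0 hu1) hδ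

theorem dens_sub {P Q : ℕ → Prop} {a b : ℝ} (hP : HasDensity P a) (hQ : HasDensity (fun n => P n ∧ ¬ Q n) b) :
    HasDensity (fun n => P n ∧ Q n) (a - b) := by
  unfold HasDensity at *
  refine (hP.sub hQ).congr fun N => ?_
  rw [← sub_div]
  congr 1
  have hf : {n : ℕ | 1 ≤ n ∧ n ≤ N ∧ P n}.Finite := (Set.finite_Iic N).subset fun n hn => hn.2.1
  have hsub : {n : ℕ | 1 ≤ n ∧ n ≤ N ∧ P n ∧ ¬ Q n} ⊆ {n : ℕ | 1 ≤ n ∧ n ≤ N ∧ P n} :=
    fun n hn => ⟨hn.1, hn.2.1, hn.2.2.1⟩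
  have e : {n : ℕ | 1 ≤ n ∧ n ≤ N ∧ P n ∧ Q n} = {n : ℕ | 1 ≤ n ∧ n ≤ N ∧ P n} \ {n : ℕ | 1 ≤ n ∧ n ≤ N ∧ P n ∧ ¬ Q n} := by
    ext n
    simp only [Set.mem_ofPred_eq, Set.mem_sdiff]
    tauto
  rw [e, Set.ncard_sdiff hsub (hf.subset hsub), Nat.cast_sub (Set.ncard_le_ncard hsub hf)]

end Pool.Agent.H55.AL
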